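import Mathlib

set_option linter.unusedSectionVars false

open MvPolynomial Finset

noncomputable section

namespace SR

/-- determinant of `(x i) ^ (e j)` (alternant) in a commutative ring -/
def altR {K : Type*} [CommRing K] {N : ℕ} (x : Fin N → K) (e : Fin N → ℕ) : K :=
  Matrix.det (Matrix.of fun i j => x i ^ e j)

/-- Schur polynomial with increasing exponent vector `e`, defined by the branching recursion -/
def sp : (N : ℕ) → (Fin N → ℕ) → MvPolynomial (Fin N) ℝ
  | 0, _ => 1
  | (N + 1), e => X 0 ^ (e 0) *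
      ∑ m ∈ Fintype.piFinset (fun j : Fin N => Finset.Ico (e j.castSucc) (e j.succ)),
        (∏ j : Fin N, (X 0 : MvPolynomial (Fin (N + 1)) ℝ) ^ (e j.succ - 1 - m j)) *
          rename Fin.succ (sp N m)

/-- sum of `x_i ∂_i` over `i ∈ J` -/
def DD {N : ℕ} (J : Finset (Fin N)) (P : MvPolynomial (Fin N) ℝ) : MvPolynomial (Fin N) ℝ :=
  ∑ i ∈ J, X i * pderiv i P

/-- multiply the coordinates in `J` by `exp τ` -/
def curve {N : ℕ} (J : Finset (Fin N)) (x : Fin N → ℝ) (τ : ℝ) : Fin N → ℝ :=
  fun k => if k ∈ J then x k * Real.exp τ else x k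

/-- the point with the first `N - k` coordinates `a` and the last `k` coordinates `b` -/
def cor {N : ℕ} (a b : ℝ) (k : ℕ) : Fin N → ℝ := fun j => if (j : ℕ) + k < N then a else b

/-- the ratio -/
def rat {N : ℕ} (P Q : MvPolynomial (Fin N) ℝ) (x : Fin N → ℝ) : ℝ := eval x P / eval x Q

/-- sum of the last `k` entries -/
def tsum {N : ℕ} (k : ℕ) (e : Fin N → ℕ) : ℕ := ∑ j with N ≤ (j : Fin N).val + k, e j

/-- number of coordinates in the open interval -/
def free {N : ℕ} (a b : ℝ) (x : Fin N → ℝ) : ℕ := (univ.filter fun i => a < x i ∧ x i < b).card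

/-- properties of Schur polynomials used in the argument -/
structure Good {N : ℕ} (P : MvPolynomial (Fin N) ℝ) (d : ℕ) : Prop where
  pos : ∀ x : Fin N → ℝ, (∀ i, 0 < x i) → 0 < eval x P
  hom : P.IsHomogeneous d
  symm : ∀ (σ : Equiv.Perm (Fin N)) (x : Fin N → ℝ), eval (x ∘ σ) P = eval x P
  star : ∀ (x : Fin N → ℝ) (i j : Fin N), i ≠ j →
    (x i - x j) ^ 2 * (eval x P * eval x (pderiv i (pderiv j P)) -
        eval x (pderiv i P) * eval x (pderiv j P)) =
      eval (Function.update x j (x i)) P * eval (Function.update x i (x j)) P - (eval x P) ^ 2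

/-- the numerator expression of the second logarithmic derivative in the direction `J` -/
def GG {N : ℕ} (P : MvPolynomial (Fin N) ℝ) (J : Finset (Fin N)) (x : Fin N → ℝ) : ℝ :=
  -∑ k ∈ J, ∑ l ∈ Jᶜ, x k * x l * (eval x P * eval x (pderiv k (pderiv l P)) -
      eval x (pderiv k P) * eval x (pderiv l P)) / (eval x P) ^ 2

/-- `rat P Q` is minimized at the all ones point on `I ^ N` -/
def minOn {N : ℕ} (P Q : MvPolynomial (Fin N) ℝ) (I : Set ℝ) : Prop :=
  ∀ x : Fin N → ℝ, (∀ i, x i ∈ I) → rat P Q (fun _ => 1) ≤ rat P Q x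

end SR
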