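import Pool.Agent.Helper204.SR.Defs

set_option linter.unusedSectionVars false

open MvPolynomial Finset

noncomputable section

namespace SR

/-- the alternant `det (x_i ^ (l_j + N - j))` (`j = 1, …, N` in the usual numbering; here `j` starts at `0`) -/
def alternant {N : ℕ} (l : Fin N → ℕ) : MvPolynomial (Fin N) ℝ :=
  Matrix.det (Matrix.of fun i j : Fin N =>
    (X i : MvPolynomial (Fin N) ℝ) ^ (l j + (N - 1 - (j : ℕ))))

/-- the Vandermonde determinant `det (x_i ^ (N - j))` -/
def vandermonde (N : ℕ) : MvPolynomial (Fin N) ℝ :=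
  Matrix.det (Matrix.of fun i j : Fin N => (X i : MvPolynomial (Fin N) ℝ) ^ (N - 1 - (j : ℕ)))

/-- the Schur polynomial `s_l = alternant l / vandermonde`, i.e. the polynomial `P` with
`P * vandermonde N = alternant l` (it exists and is unique, see the main theorem) -/
def schur {N : ℕ} (l : Fin N → ℕ) : MvPolynomial (Fin N) ℝ :=
  Classical.epsilon fun P => P * vandermonde N = alternant l

/-- the ratio `s_l (x) / s_m (x)` -/
def ratio {N : ℕ} (l m : Fin N → ℕ) (x : Fin N → ℝ) : ℝ := eval x (schur l) / eval x (schur m)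

/-- `s_l / s_m` is minimized at the all-ones point on `I ^ N` -/
def MinimizedAtOne {N : ℕ} (l m : Fin N → ℕ) (I : Set ℝ) : Prop :=
  ∀ x : Fin N → ℝ, (∀ i, x i ∈ I) → ratio l m x ≥ ratio l m (fun _ => 1)

/-- `a` weakly majorizes `b`: the partial sums of the non-increasing rearrangement of `a` dominate those
of the non-increasing rearrangement of `b` -/
def WeaklyMajorizes {N : ℕ} (a b : Fin N → ℝ) : Prop :=
  ∀ σ τ : Equiv.Perm (Fin N), Antitone (a ∘ σ) → Antitone (b ∘ τ) →
    ∀ k ≤ N, ∑ i with (i : Fin N).val < k, a (σ i) ≥ ∑ i with (i : Fin N).val < k, b (τ i)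

/-- `a` majorizes `b` -/
def Majorizes {N : ℕ} (a b : Fin N → ℝ) : Prop :=
  WeaklyMajorizes a b ∧ ∑ i, a i = ∑ i, b i

/-- the vertex of the box `[a, b] ^ N` with the first `N - k` coordinates `a` and the last `k` coordinates `b` -/
def corner {N : ℕ} (a b : ℝ) (k : ℕ) : Fin N → ℝ := fun i => if (i : ℕ) + k < N then a else b

/-- increasing exponent vector of a non-increasing tuple -/
def expo {N : ℕ} (l : Fin N → ℕ) : Fin N → ℕ := fun j => l j.rev + (j : ℕ)

end SR
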