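import Pool.Agent.Helper204.SR.Defs2

set_option linter.unusedSectionVars false

open MvPolynomial Finset

noncomputable section

namespace SR

/-- the `i`-th divided derivative of `x ^ m` at `x` : `binom(m, i) * x ^ (m - i)` -/
def hs (i : ℕ) (x : ℝ) (m : ℕ) : ℝ := (m.choose i : ℝ) * x ^ (m - i)

/-- confluent alternant matrix: rows `i + k < N` are divided derivatives at `a`, the last `k` rows are divided
derivatives at `b` -/
def cmat {N : ℕ} (a b : ℝ) (k : ℕ) (e : Fin N → ℕ) : Matrix (Fin N) (Fin N) ℝ :=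
  Matrix.of fun i j => if (i : ℕ) + k < N then hs (i : ℕ) a (e j) else hs ((i : ℕ) + k - N) b (e j)

/-- the same matrix where the rows of the `b`-block are replaced by `(b - a) * row_i + row_{i-1}` -/
def cmat' {N : ℕ} (a b : ℝ) (k : ℕ) (e : Fin N → ℕ) : Matrix (Fin N) (Fin N) ℝ :=
  Matrix.of fun i j => if (i : ℕ) + k < N then hs (i : ℕ) a (e j)
    else (b - a) * hs ((i : ℕ) + k - N) b (e j) +
      (if (i : ℕ) + k = N then 0 else hs ((i : ℕ) + k - N - 1) b (e j))

end SR
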