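import Pool.Agent.Helper204.SR.Defs

set_option linter.unusedSectionVars false

open MvPolynomial Finset

noncomputable section

namespace SR



/-- HINT: polynomial identity. Euler: `∑ i, X i * pderiv i P = d • P` (`IsHomogeneous.sum_X_mul_pderiv`), so `DD Jᶜ P = d P - DD J P`.
For `k ∈ J`, `l ∈ Jᶜ`: `X k * pderiv k (X l * pderiv l P) = X k * X l * pderiv k (pderiv l P)` (as `k ≠ l`), so
`∑∑ X k X l (P ∂k∂l P - ∂k P ∂l P) = P * DD J (DD Jᶜ P) - DD J P * DD Jᶜ P`; `DD J` is linear so `DD J (DD Jᶜ P) = d DD J P - DD J (DD J P)`. -/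
theorem DD_sq {N : ℕ} (J : Finset (Fin N)) (P : MvPolynomial (Fin N) ℝ) (d : ℕ)
    (hP : P.IsHomogeneous d) (x : Fin N → ℝ) :
    eval x P * eval x (DD J (DD J P)) - (eval x (DD J P)) ^ 2 =
      -∑ k ∈ J, ∑ l ∈ Jᶜ, x k * x l * (eval x P * eval x (pderiv k (pderiv l P)) -
        eval x (pderiv k P) * eval x (pderiv l P)) := by
  have heul : DD J P + DD Jᶜ P = (d : ℝ) • P := by
    have h := hP.sum_X_mul_pderiv
    have h2 : DD J P + DD Jᶜ P = ∑ i, X i * pderiv i P := by
      unfold DD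
      exact Finset.sum_add_sum_compl J _
    rw [h2, h, Nat.cast_smul_eq_nsmul]
  have hlin : DD J (DD Jᶜ P) = (d : ℝ) • DD J P - DD J (DD J P) := by
    have h1 : DD Jᶜ P = (d : ℝ) • P - DD J P := by rw [← heul]; ring
    rw [h1]
    have h2 : DD J ((d : ℝ) • P - DD J P) = ∑ i ∈ J, X i * pderiv i ((d : ℝ) • P - DD J P) := rfl
    have h3 : DD J (DD J P) = ∑ i ∈ J, X i * pderiv i (DD J P) := rfl
    have h4 : (d : ℝ) • DD J P = ∑ i ∈ J, (d : ℝ) • (X i * pderiv i P) := by
      unfold DD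
      rw [Finset.smul_sum]
    rw [h2, h3, h4, ← Finset.sum_sub_distrib]
    refine Finset.sum_congr rfl fun i _ => ?_
    rw [map_sub, Derivation.map_smul, mul_sub, mul_smul_comm]
  have hmix : DD J (DD Jᶜ P) = ∑ k ∈ J, ∑ l ∈ Jᶜ, X k * (X l * pderiv k (pderiv l P)) := by
    have h3 : DD J (DD Jᶜ P) = ∑ k ∈ J, X k * pderiv k (∑ l ∈ Jᶜ, X l * pderiv l P) := rfl
    rw [h3]
    refine Finset.sum_congr rfl fun k hk => ?_
    rw [map_sum, Finset.mul_sum]
    refine Finset.sum_congr rfl fun l hl => ?_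
    have hkl : l ≠ k := by
      rintro rfl
      exact (Finset.mem_compl.1 hl) hk
    rw [Derivation.leibniz, pderiv_X_of_ne hkl, smul_zero, add_zero, smul_eq_mul]
  have hprod : eval x (DD J P) * eval x (DD Jᶜ P) =
      ∑ k ∈ J, ∑ l ∈ Jᶜ, (x k * eval x (pderiv k P)) * (x l * eval x (pderiv l P)) := by
    have h1 : eval x (DD J P) = ∑ k ∈ J, x k * eval x (pderiv k P) := by
      unfold DD
      rw [map_sum]
      refine Finset.sum_congr rfl fun k _ => ?_
      rw [map_mul, eval_X]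
    have h2 : eval x (DD Jᶜ P) = ∑ k ∈ Jᶜ, x k * eval x (pderiv k P) := by
      unfold DD
      rw [map_sum]
      refine Finset.sum_congr rfl fun k _ => ?_
      rw [map_mul, eval_X]
    rw [h1, h2, Finset.sum_mul_sum]
  have hmixe : eval x (DD J (DD Jᶜ P)) =
      ∑ k ∈ J, ∑ l ∈ Jᶜ, x k * (x l * eval x (pderiv k (pderiv l P))) := by
    rw [hmix, map_sum]
    refine Finset.sum_congr rfl fun k _ => ?_
    rw [map_sum]
    refine Finset.sum_congr rfl fun l _ => ?_
    rw [map_mul, map_mul, eval_X, eval_X]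
  have hrhs : ∑ k ∈ J, ∑ l ∈ Jᶜ, x k * x l * (eval x P * eval x (pderiv k (pderiv l P)) -
        eval x (pderiv k P) * eval x (pderiv l P)) =
      eval x P * eval x (DD J (DD Jᶜ P)) - eval x (DD J P) * eval x (DD Jᶜ P) := by
    rw [hprod, hmixe, Finset.mul_sum, ← Finset.sum_sub_distrib]
    refine Finset.sum_congr rfl fun k _ => ?_
    rw [Finset.mul_sum, ← Finset.sum_sub_distrib]
    refine Finset.sum_congr rfl fun l _ => ?_
    ring
  rw [hrhs]
  have e1 : eval x (DD J P) + eval x (DD Jᶜ P) = d * eval x P := by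
    have := congrArg (eval x) heul
    rw [map_add, smul_eval] at this
    exact this
  have e2 : eval x (DD J (DD Jᶜ P)) = d * eval x (DD J P) - eval x (DD J (DD J P)) := by
    have := congrArg (eval x) hlin
    rw [map_sub, smul_eval] at this
    exact this
  have e3 : eval x (DD Jᶜ P) = d * eval x P - eval x (DD J P) := by linarith
  rw [e2, e3]
  ring

end SR
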