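import Pool.Agent.Helper204.SR.Defs

set_option linter.unusedSectionVars false

open MvPolynomial Finset

noncomputable section

namespace SR



/-- HINT: if `a = b` trivial (`k = 0`, constant). WLOG by cases `a < b` or `b < a`: sort `v` (`Tuple.sort v`, `Tuple.monotone_sort`; for `b < a` sort `-v` or use the other order) so
that `v ∘ σ` takes the value `a` first and then `b`; `k` = number of `j` with `v j = b`. (Alternative: induction or an explicit equivalence between the two filters,
`Equiv.Perm` extending a bijection `{j | v j = a} ≃ {j | j + k < N}`, `Equiv.extendSubtype`, `Fintype.card_subtype`.) -/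
theorem two_valued {N : ℕ} (a b : ℝ) (v : Fin N → ℝ) (hv : ∀ i, v i = a ∨ v i = b) :
    ∃ k ≤ N, ∃ σ : Equiv.Perm (Fin N), v ∘ σ = cor a b k := by
  classical
  set k : ℕ := Fintype.card {i : Fin N // ¬ (v i = a)} with hk
  have hkN : k ≤ N := by
    have h := Fintype.card_subtype_le (fun i : Fin N => ¬ (v i = a))
    rw [Fintype.card_fin] at h
    exact h
  have h1 : Fintype.card {i : Fin N // v i = a} = N - k := by
    have := Fintype.card_subtype_compl (fun i : Fin N => v i = a)
    rw [Fintype.card_fin] at this
    have h2 := Fintype.card_subtype_le (fun i : Fin N => v i = a)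
    rw [Fintype.card_fin] at h2
    omega
  have h2 : Fintype.card {j : Fin N // (j : ℕ) + k < N} = N - k := by
    have e : Fintype.card {j : Fin N // (j : ℕ) < N - k} = N - k :=
      Fintype.card_fin_lt_of_le (Nat.sub_le _ _)
    rw [← e]
    refine Fintype.card_congr (Equiv.subtypeEquivRight (fun j => ?_))
    omega
  have h3 : Fintype.card {j : Fin N // (j : ℕ) + k < N} = Fintype.card {i : Fin N // v i = a} := by
    rw [h1, h2]
  let e : {j : Fin N // (j : ℕ) + k < N} ≃ {i : Fin N // v i = a} := Fintype.equivOfCardEq h3
  refine ⟨k, hkN, e.extendSubtype, ?_⟩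
  funext j
  simp only [Function.comp, cor]
  split_ifs with hj
  · exact e.extendSubtype_mem j hj
  · exact (hv _).resolve_left (e.extendSubtype_not_mem j hj)

end SR
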