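import Pool.Agent.Helper204.SR.Defs

set_option linter.unusedSectionVars false

open MvPolynomial Finset

noncomputable section

namespace SR



/-- HINT: the box is compact (`isCompact_univ_pi` / `isCompact_Icc` in `Fin N → ℝ`), nonempty, `rat P Q` is continuous on it (`MvPolynomial.continuous_eval`,
denominator positive since `0 < a`): `IsCompact.exists_isMinOn`. -/
theorem exists_min {N : ℕ} (P Q : MvPolynomial (Fin N) ℝ) (p q : ℕ)
    (hP : Good P p) (hQ : Good Q q) (a b : ℝ) (ha : 0 < a) (hab : a ≤ b) :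
    ∃ x : Fin N → ℝ, (∀ i, a ≤ x i ∧ x i ≤ b) ∧
      ∀ z : Fin N → ℝ, (∀ i, a ≤ z i ∧ z i ≤ b) → rat P Q x ≤ rat P Q z := by
  have hcomp : IsCompact (Set.univ.pi fun _ : Fin N => Set.Icc a b) :=
    isCompact_univ_pi fun _ => isCompact_Icc
  have hne : (Set.univ.pi fun _ : Fin N => Set.Icc a b).Nonempty :=
    ⟨fun _ => a, fun _ _ => ⟨le_refl _, hab⟩⟩
  have hcont : ContinuousOn (rat P Q) (Set.univ.pi fun _ : Fin N => Set.Icc a b) := by
    unfold rat
    apply ContinuousOn.div
    · exact (MvPolynomial.continuous_eval P).continuousOn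
    · exact (MvPolynomial.continuous_eval Q).continuousOn
    · intro x hx
      exact (hQ.pos x fun i => lt_of_lt_of_le ha (hx i (Set.mem_univ i)).1).ne'
  obtain ⟨x, hx, hmin⟩ := hcomp.exists_isMinOn hne hcont
  exact ⟨x, fun i => hx i (Set.mem_univ i), fun z hz => hmin (fun i _ => hz i)⟩

end SR
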