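import Pool.Agent.Helper204.SR.Defs

set_option linter.unusedSectionVars false

open MvPolynomial Finset

noncomputable section

namespace SR



theorem rat_scale_aux {N : ℕ} (P : MvPolynomial (Fin N) ℝ) (p : ℕ) (hP : P.IsHomogeneous p)
    (c : ℝ) (x : Fin N → ℝ) : eval (fun i => c * x i) P = c ^ p * eval x P := by
  rw [MvPolynomial.eval_eq', MvPolynomial.eval_eq', Finset.mul_sum]
  refine Finset.sum_congr rfl fun d hd => ?_
  have h1 : d.degree = p := by
    have := hP (MvPolynomial.mem_support_iff.1 hd)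
    rw [← this]
    rw [Finsupp.degree_eq_weight_one]; rfl
  have h2 : ∑ i, d i = p := by
    rw [← h1, Finsupp.degree_eq_sum]
  have h3 : ∏ i, (c * x i) ^ d i = c ^ p * ∏ i, x i ^ d i := by
    simp only [mul_pow]
    rw [Finset.prod_mul_distrib, Finset.prod_pow_eq_pow_sum, h2]
  rw [h3]; ring

/-- scaling -/
theorem rat_scale {N : ℕ} (P Q : MvPolynomial (Fin N) ℝ) (p q : ℕ)
    (hP : Good P p) (hQ : Good Q q) (c : ℝ) (x : Fin N → ℝ) :
    eval (fun i => c * x i) P = c ^ p * eval x P ∧
      rat P Q (fun i => c * x i) = c ^ p / c ^ q * rat P Q x := by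
  have h1 := rat_scale_aux P p hP.hom c x
  have h2 := rat_scale_aux Q q hQ.hom c x
  refine ⟨h1, ?_⟩
  unfold rat
  rw [h1, h2, mul_div_mul_comm]

end SR
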