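import Pool.Agent.Helper204.SR.Defs
import Pool.Agent.Helper204.SR.P_rat_scale

set_option linter.unusedSectionVars false

open MvPolynomial Finset

noncomputable section

namespace SR



theorem scaleStep_aux {N : ℕ} (P Q : MvPolynomial (Fin N) ℝ) (p q : ℕ)
    (hP : Good P p) (hQ : Good Q q) (a b : ℝ) (ha : 0 < a) (x : Fin N → ℝ)
    (hx : ∀ i, a < x i ∧ x i < b)
    (hmin : ∀ y : Fin N → ℝ, (∀ i, a ≤ y i ∧ y i ≤ b) → rat P Q x ≤ rat P Q y)
    (c : ℝ) (hc : 0 < c) (hpq : c ^ p ≤ c ^ q) (hy : ∀ i, a ≤ c * x i ∧ c * x i ≤ b)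
    (i0 : Fin N) (hi0 : ¬ (a < c * x i0 ∧ c * x i0 < b)) :
    ∃ y : Fin N → ℝ, (∀ i, a ≤ y i ∧ y i ≤ b) ∧ free a b y < free a b x ∧
      ∀ z : Fin N → ℝ, (∀ i, a ≤ z i ∧ z i ≤ b) → rat P Q y ≤ rat P Q z := by
  refine ⟨fun i => c * x i, hy, ?_, ?_⟩
  · unfold free
    apply Finset.card_lt_card
    rw [Finset.ssubset_iff_of_subset]
    · refine ⟨i0, ?_, ?_⟩
      · simp only [Finset.mem_filter, Finset.mem_univ, true_and]
        exact hx i0
      · simp only [Finset.mem_filter, Finset.mem_univ, true_and]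
        exact hi0
    · intro i _
      simp only [Finset.mem_filter, Finset.mem_univ, true_and]
      exact hx i
  · intro z hz
    refine le_trans ?_ (hmin z hz)
    have hxp : ∀ i, 0 < x i := fun i => ha.trans (hx i).1
    have hr : 0 < rat P Q x := div_pos (hP.pos x hxp) (hQ.pos x hxp)
    rw [(rat_scale P Q p q hP hQ c x).2]
    have h1 : c ^ p / c ^ q ≤ 1 := by
      rw [div_le_one (pow_pos hc q)]
      exact hpq
    calc c ^ p / c ^ q * rat P Q x ≤ 1 * rat P Q x := mul_le_mul_of_nonneg_right h1 hr.le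
      _ = rat P Q x := one_mul _

/-- HINT: if `q ≤ p` let `m = min_i x i = x i0` and `c = a / m < 1` (`c > 0`); otherwise `m = max_i x i`, `c = b / m > 1`. `y = c x` is in the box, with coordinate
`i0` equal to `a` (resp. `b`), `rat P Q y = c^p / c^q * rat P Q x ≤ rat P Q x` (`rat_scale`; `rat P Q x > 0`), so `rat P Q y ≤ rat P Q z` for all `z` in the box.
`free a b x = N` (all free) and `free a b y < N` as `i0` is not free (`Finset.card_lt_card`). -/
theorem scaleStep {N : ℕ} (hN : 0 < N) (P Q : MvPolynomial (Fin N) ℝ) (p q : ℕ)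
    (hP : Good P p) (hQ : Good Q q) (a b : ℝ) (ha : 0 < a) (x : Fin N → ℝ)
    (hx : ∀ i, a < x i ∧ x i < b)
    (hmin : ∀ y : Fin N → ℝ, (∀ i, a ≤ y i ∧ y i ≤ b) → rat P Q x ≤ rat P Q y) :
    ∃ y : Fin N → ℝ, (∀ i, a ≤ y i ∧ y i ≤ b) ∧ free a b y < free a b x ∧
      ∀ z : Fin N → ℝ, (∀ i, a ≤ z i ∧ z i ≤ b) → rat P Q y ≤ rat P Q z := by
  haveI : Nonempty (Fin N) := ⟨⟨0, hN⟩⟩
  have hxp : ∀ i, 0 < x i := fun i => ha.trans (hx i).1
  by_cases hqp : q ≤ p
  · obtain ⟨i0, -, hi0⟩ := Finset.exists_min_image (univ : Finset (Fin N)) x univ_nonempty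
    have hc : 0 < a / x i0 := div_pos ha (hxp i0)
    have hc1 : a / x i0 ≤ 1 := by
      rw [div_le_one (hxp i0)]; exact (hx i0).1.le
    have he : a / x i0 * x i0 = a := div_mul_cancel₀ _ (hxp i0).ne'
    apply scaleStep_aux P Q p q hP hQ a b ha x hx hmin (a / x i0) hc
      (pow_le_pow_of_le_one hc.le hc1 hqp) _ i0
    · rw [he]
      exact fun h => lt_irrefl _ h.1
    · intro i
      constructor
      · calc a = a / x i0 * x i0 := he.symm
          _ ≤ a / x i0 * x i := mul_le_mul_of_nonneg_left (hi0 i (mem_univ i)) hc.le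
      · calc a / x i0 * x i ≤ 1 * x i := mul_le_mul_of_nonneg_right hc1 (hxp i).le
          _ = x i := one_mul _
          _ ≤ b := (hx i).2.le
  · obtain ⟨i0, -, hi0⟩ := Finset.exists_max_image (univ : Finset (Fin N)) x univ_nonempty
    have hb : 0 < b := (hxp i0).trans (hx i0).2
    have hc : 0 < b / x i0 := div_pos hb (hxp i0)
    have hc1 : 1 ≤ b / x i0 := by
      rw [one_le_div (hxp i0)]; exact (hx i0).2.le
    have he : b / x i0 * x i0 = b := div_mul_cancel₀ _ (hxp i0).ne'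
    apply scaleStep_aux P Q p q hP hQ a b ha x hx hmin (b / x i0) hc
      (pow_le_pow_right₀ hc1 (not_le.mp hqp).le) _ i0
    · rw [he]
      exact fun h => lt_irrefl _ h.2
    · intro i
      constructor
      · calc a ≤ x i := (hx i).1.le
          _ = 1 * x i := (one_mul _).symm
          _ ≤ b / x i0 * x i := mul_le_mul_of_nonneg_right hc1 (hxp i).le
      · calc b / x i0 * x i ≤ b / x i0 * x i0 :=
              mul_le_mul_of_nonneg_left (hi0 i (mem_univ i)) hc.le
          _ = b := he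

end SR
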