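import Pool.Agent.Helper204.SR.Defs

set_option linter.unusedSectionVars false

open MvPolynomial Finset

noncomputable section

namespace SR



/-- HINT: unfold `GG`; for `k ∈ J`, `l ∈ Jᶜ` use `star` of `Good` divided by `(x k - x l)^2 ≠ 0` for `P` and `Q`; the constants `-1` cancel. -/
theorem GG_diff {N : ℕ} (J : Finset (Fin N)) (P Q : MvPolynomial (Fin N) ℝ) (p q : ℕ)
    (hP : Good P p) (hQ : Good Q q) (x : Fin N → ℝ) (hx : ∀ i, 0 < x i)
    (hJ : ∀ k ∈ J, ∀ l ∈ Jᶜ, x k ≠ x l) :
    GG P J x - GG Q J x = -∑ k ∈ J, ∑ l ∈ Jᶜ, x k * x l / (x k - x l) ^ 2 *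
      (eval (Function.update x l (x k)) P * eval (Function.update x k (x l)) P / (eval x P) ^ 2 -
       eval (Function.update x l (x k)) Q * eval (Function.update x k (x l)) Q / (eval x Q) ^ 2) := by
  have key : ∀ (R : MvPolynomial (Fin N) ℝ) (r : ℕ), Good R r → ∀ k ∈ J, ∀ l ∈ Jᶜ,
      x k * x l * (eval x R * eval x (pderiv k (pderiv l R)) -
        eval x (pderiv k R) * eval x (pderiv l R)) / (eval x R) ^ 2 =
      x k * x l / (x k - x l) ^ 2 * (eval (Function.update x l (x k)) R *
        eval (Function.update x k (x l)) R / (eval x R) ^ 2 - 1) := by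
    intro R r hR k hk l hl
    have hne := hJ k hk l hl
    have hkl : k ≠ l := fun h => hne (by rw [h])
    have hs := hR.star x k l hkl
    have hpos := (hR.pos x hx).ne'
    have hd : x k - x l ≠ 0 := sub_ne_zero.2 hne
    have h1 : eval x R * eval x (pderiv k (pderiv l R)) - eval x (pderiv k R) * eval x (pderiv l R) =
        (eval (Function.update x l (x k)) R * eval (Function.update x k (x l)) R - (eval x R) ^ 2) /
          (x k - x l) ^ 2 := by
      rw [← hs]
      field_simp
    rw [h1]
    field_simp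
  unfold GG
  rw [sub_neg_eq_add, neg_add_eq_sub, ← Finset.sum_sub_distrib, ← Finset.sum_neg_distrib]
  refine Finset.sum_congr rfl fun k hk => ?_
  rw [← Finset.sum_sub_distrib, ← Finset.sum_neg_distrib]
  refine Finset.sum_congr rfl fun l hl => ?_
  rw [key P p hP k hk l hl, key Q q hQ k hk l hl]
  ring

end SR
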