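import Pool.Agent.Helper204.SR.Defs

set_option linter.unusedSectionVars false

open MvPolynomial Finset

noncomputable section

namespace SR



theorem j32966_curve_k {N : ℕ} (J : Finset (Fin N)) (x : Fin N → ℝ) (τ : ℝ) (k : Fin N) :
    HasDerivAt (fun s => curve J x s k) (if k ∈ J then curve J x τ k else 0) τ := by
  unfold curve
  by_cases hk : k ∈ J
  · simp only [hk, if_true]
    exact (Real.hasDerivAt_exp τ).const_mul (x k)
  · simp only [hk, if_false]
    exact hasDerivAt_const τ (x k)

theorem j32966_DD_X {N : ℕ} (J : Finset (Fin N)) (p : MvPolynomial (Fin N) ℝ) (k : Fin N) :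
    DD J (p * X k) = DD J p * X k + p * (if k ∈ J then X k else 0) := by
  classical
  unfold DD
  simp only [Derivation.leibniz, smul_eq_mul, pderiv_X, mul_add, Finset.sum_add_distrib]
  rw [add_comm]
  congr 1
  · rw [Finset.sum_mul]
    refine Finset.sum_congr rfl fun i _ => ?_
    ring
  · by_cases hk : k ∈ J
    · rw [Finset.sum_eq_single k]
      · simp [hk]
        ring
      · intro b _ hb
        rw [Pi.single_eq_of_ne (Ne.symm hb)]
        simp
      · intro h
        exact absurd hk h
    · rw [Finset.sum_eq_zero]
      · simp [hk]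
      · intro b hb
        have hne : k ≠ b := fun h => hk (h ▸ hb)
        rw [Pi.single_eq_of_ne hne]
        simp

/-- HINT: induction on `P` (`MvPolynomial.induction_on`), `DD` is a derivation (`pderiv_X`, `Derivation.leibniz`);
`d/dτ (x k * exp τ) = x k * exp τ` for `k ∈ J`, `0` otherwise. -/
theorem hasDeriv_curve {N : ℕ} (J : Finset (Fin N)) (P : MvPolynomial (Fin N) ℝ) (x : Fin N → ℝ)
    (τ : ℝ) : HasDerivAt (fun s => eval (curve J x s) P) (eval (curve J x τ) (DD J P)) τ := by
  induction P using MvPolynomial.induction_on with
  | C a =>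
    have h : DD J (C a : MvPolynomial (Fin N) ℝ) = 0 := by
      unfold DD
      simp
    rw [h]
    simp only [eval_C, map_zero]
    exact hasDerivAt_const τ a
  | add p q hp hq =>
    have h : DD J (p + q) = DD J p + DD J q := by
      unfold DD
      simp [mul_add, Finset.sum_add_distrib]
    rw [h]
    simp only [map_add]
    exact hp.add hq
  | mul_X p k hp =>
    rw [j32966_DD_X]
    simp only [map_add, map_mul, eval_X]
    have h2 := hp.mul (j32966_curve_k J x τ k)
    have h3 : eval (curve J x τ) (if k ∈ J then X k else 0 : MvPolynomial (Fin N) ℝ) =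
        if k ∈ J then curve J x τ k else 0 := by
      split_ifs <;> simp
    rw [h3]
    exact h2

end SR
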