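import Pool.Agent.Helper204.SR.Defs
import Pool.Agent.Helper204.SR.P_hasDeriv_curve
import Pool.Agent.Helper204.SR.P_DD_sq

set_option linter.unusedSectionVars false

open MvPolynomial Finset

noncomputable section

namespace SR



/-- HINT: `hasDeriv_curve` for `P` and `DD J P`, quotient rule `HasDerivAt.div`, `HasDerivAt.log`; `curve J x τ` is positive; then `DD_sq` to identify
`(eval P * eval (DD J (DD J P)) - (eval (DD J P))^2) / (eval P)^2` with `GG P J (curve J x τ)`. -/
theorem curve_second {N : ℕ} (J : Finset (Fin N)) (P : MvPolynomial (Fin N) ℝ) (d : ℕ)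
    (hP : Good P d) (x : Fin N → ℝ) (hx : ∀ i, 0 < x i) (τ : ℝ) :
    HasDerivAt (fun s => Real.log (eval (curve J x s) P))
        (eval (curve J x τ) (DD J P) / eval (curve J x τ) P) τ ∧
      HasDerivAt (fun s => eval (curve J x s) (DD J P) / eval (curve J x s) P)
        (GG P J (curve J x τ)) τ := by
  have hpos : ∀ i, 0 < curve J x τ i := by
    intro i
    unfold curve
    split_ifs
    · exact mul_pos (hx i) (Real.exp_pos _)
    · exact hx i
  have hP0 : 0 < eval (curve J x τ) P := hP.pos _ hpos
  have h1 := hasDeriv_curve J P x τ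
  have h2 := hasDeriv_curve J (DD J P) x τ
  refine ⟨h1.log hP0.ne', ?_⟩
  refine (h2.div h1 hP0.ne').congr_deriv ?_
  have h3 := DD_sq J P d hP.hom (curve J x τ)
  unfold GG
  have e : (-∑ k ∈ J, ∑ l ∈ Jᶜ, curve J x τ k * curve J x τ l *
      (eval (curve J x τ) P * eval (curve J x τ) (pderiv k (pderiv l P)) -
      eval (curve J x τ) (pderiv k P) * eval (curve J x τ) (pderiv l P)) /
        (eval (curve J x τ) P) ^ 2) =
      (-∑ k ∈ J, ∑ l ∈ Jᶜ, curve J x τ k * curve J x τ l *
      (eval (curve J x τ) P * eval (curve J x τ) (pderiv k (pderiv l P)) -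
      eval (curve J x τ) (pderiv k P) * eval (curve J x τ) (pderiv l P))) /
        (eval (curve J x τ) P) ^ 2 := by
    rw [neg_div, Finset.sum_div]
    congr 1
    refine Finset.sum_congr rfl fun k _ => ?_
    rw [Finset.sum_div]
  rw [e, ← h3]
  congr 1
  ring

end SR
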