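import Pool.Agent.Helper204.SR.Defs

set_option linter.unusedSectionVars false

open MvPolynomial Finset

noncomputable section

namespace SR



/-- HINT: Suppose `c < 0`. By Fermat `h1 0 = 0` (`IsLocalMin.hasDerivAt_eq_zero`). Since `h1` has negative derivative at `0` and `h1 0 = 0`, `h1 t < 0` for small
`t > 0`; so `h` is strictly decreasing on a small `[0, ε]` (`strictAntiOn_of_deriv_neg` or mean value theorem), contradicting the local minimum.
Or use Mathlib second derivative test `isLocalMax...`. -/
theorem second_test (h h1 : ℝ → ℝ) (c s0 : ℝ) (hd : ∀ s, HasDerivAt h (h1 s) s)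
    (hd2 : HasDerivAt h1 c s0) (hmin : IsLocalMin h s0) : 0 ≤ c := by
  by_contra hc
  rw [not_le] at hc
  have h0 : h1 s0 = 0 := hmin.hasDerivAt_eq_zero (hd s0)
  have hnegder : deriv (fun s => -h s) = fun s => -h1 s := funext fun s => (hd s).fun_neg.deriv
  have hm : IsLocalMin (fun s => -h s) s0 := by
    apply isLocalMin_of_deriv_deriv_pos
    · rw [hnegder, hd2.fun_neg.deriv]
      linarith
    · rw [hnegder]
      simp [h0]
    · exact (hd s0).fun_neg.continuousAt
  have heq : h =ᶠ[nhds s0] fun _ => h s0 := by
    filter_upwards [hmin, hm] with s ha hb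
    have hb' : -h s0 ≤ -h s := hb
    linarith
  have hz : h1 =ᶠ[nhds s0] fun _ => (0:ℝ) := by
    filter_upwards [heq.eventually_nhds] with s hs
    have h2 : HasDerivAt h 0 s := (hasDerivAt_const s (h s0)).congr_of_eventuallyEq hs
    exact (hd s).unique h2
  have h3 : HasDerivAt h1 0 s0 := (hasDerivAt_const s0 (0:ℝ)).congr_of_eventuallyEq hz
  have h4 := hd2.unique h3
  linarith

end SR
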