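import Pool.Agent.Helper204.SR.Defs

set_option linter.unusedSectionVars false

open MvPolynomial Finset

noncomputable section

namespace SR



/-- HINT: elementary: `r = P0/Q0 ≤ P1/Q1`, `r ≤ P2/Q2` give `P1 P2 ≥ r^2 Q1 Q2`, i.e. `P1 P2 / P0^2 ≥ Q1 Q2 / Q0^2`; in case of equality both are equalities
(if `P2/Q2 > r` then the product is strictly bigger). -/
theorem term_sign (P0 Q0 P1 Q1 P2 Q2 : ℝ) (hP0 : 0 < P0) (hQ0 : 0 < Q0) (hP1 : 0 < P1) (hQ1 : 0 < Q1)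
    (hP2 : 0 < P2) (hQ2 : 0 < Q2) (h1 : P0 / Q0 ≤ P1 / Q1) (h2 : P0 / Q0 ≤ P2 / Q2) :
    0 ≤ P1 * P2 / P0 ^ 2 - Q1 * Q2 / Q0 ^ 2 ∧
      (P1 * P2 / P0 ^ 2 - Q1 * Q2 / Q0 ^ 2 = 0 → P2 / Q2 = P0 / Q0) := by
  have hu : Q1 / Q0 ≤ P1 / P0 := by
    rw [div_le_div_iff₀ hQ0 hQ1] at h1
    rw [div_le_div_iff₀ hQ0 hP0]
    linarith
  have hv : Q2 / Q0 ≤ P2 / P0 := by
    rw [div_le_div_iff₀ hQ0 hQ2] at h2
    rw [div_le_div_iff₀ hQ0 hP0]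
    linarith
  have e : P1 * P2 / P0 ^ 2 - Q1 * Q2 / Q0 ^ 2 =
      (P1 / P0) * (P2 / P0 - Q2 / Q0) + (Q2 / Q0) * (P1 / P0 - Q1 / Q0) := by
    field_simp
    ring
  have hu0 : 0 < P1 / P0 := by positivity
  have ht0 : 0 < Q2 / Q0 := by positivity
  have a1 : 0 ≤ (P1 / P0) * (P2 / P0 - Q2 / Q0) := mul_nonneg hu0.le (by linarith)
  have a2 : 0 ≤ (Q2 / Q0) * (P1 / P0 - Q1 / Q0) := mul_nonneg ht0.le (by linarith)
  rw [e]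
  refine ⟨by linarith, ?_⟩
  intro h
  have h3 : (P1 / P0) * (P2 / P0 - Q2 / Q0) = 0 := by linarith
  rcases mul_eq_zero.mp h3 with h4 | h4
  · exact absurd h4 hu0.ne'
  · have h5 : P2 / P0 = Q2 / Q0 := by linarith
    rw [div_eq_div_iff hP0.ne' hQ0.ne'] at h5
    rw [div_eq_div_iff hQ2.ne' hQ0.ne']
    linarith

end SR
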