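import Pool.Agent.Helper204.SR.Defs
import Pool.Agent.Helper204.SR.P_curve_second
import Pool.Agent.Helper204.SR.P_GG_diff
import Pool.Agent.Helper204.SR.P_term_sign
import Pool.Agent.Helper204.SR.P_second_test

set_option linter.unusedSectionVars false

open MvPolynomial Finset

noncomputable section

namespace SR



/-- HINT: let `J = univ.filter (fun k => x k = x i)`, so `j ∉ J`, `x k ≠ x l` for `k ∈ J`, `l ∉ J`. The function
`h s = Real.log (eval (curve J x s) P) - Real.log (eval (curve J x s) Q)` has, by `curve_second`, first derivative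
`h1 s = eval (DD J P)/eval P - eval (DD J Q)/eval Q` and `h1` has derivative `GG P J x - GG Q J x` at `0` (`curve J x 0 = x`).
For small `s` `curve J x s` is in the box (`x k = x i ∈ (a,b)` for `k ∈ J`), so `h` has a local minimum at `0` (`rat` is a quotient of positive numbers,
`Real.log_div`, `Real.log_le_log`). `second_test`: `0 ≤ GG P J x - GG Q J x`. By `GG_diff` this is minus a sum of terms which are all nonnegative
by `term_sign` (the points `update x l (x k)`, `update x k (x l)` are in the box, so `rat` there is at least `rat P Q x`). So every term is zero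
(`Finset.sum_eq_zero_iff_of_nonneg`), in particular the one with `k = i`, `l = j`, and `term_sign` gives the equality. -/
theorem transfer {N : ℕ} (P Q : MvPolynomial (Fin N) ℝ) (p q : ℕ)
    (hP : Good P p) (hQ : Good Q q) (a b : ℝ) (ha : 0 < a) (x : Fin N → ℝ)
    (hx : ∀ i, a ≤ x i ∧ x i ≤ b)
    (hmin : ∀ y : Fin N → ℝ, (∀ i, a ≤ y i ∧ y i ≤ b) → rat P Q x ≤ rat P Q y)
    (i : Fin N) (hi : a < x i ∧ x i < b) (j : Fin N) (hj : x j ≠ x i) :
    rat P Q (Function.update x i (x j)) = rat P Q x := by
  classical
  have hxpos : ∀ k, 0 < x k := fun k => ha.trans_le (hx k).1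
  obtain ⟨J, hJdef⟩ : ∃ J : Finset (Fin N), J = univ.filter (fun k => x k = x i) := ⟨_, rfl⟩
  have hJmem : ∀ k, k ∈ J ↔ x k = x i := by
    intro k
    rw [hJdef, mem_filter]
    simp
  have hJc : ∀ l, l ∈ Jᶜ ↔ x l ≠ x i := by
    intro l
    rw [mem_compl, hJmem]
  have hc0 : curve J x 0 = x := by
    funext k
    simp [curve]
  have hcpos : ∀ s k, 0 < curve J x s k := by
    intro s k
    unfold curve
    split_ifs
    · exact mul_pos (hxpos k) (Real.exp_pos s)
    · exact hxpos k
  have hd : ∀ s, HasDerivAt
      (fun s => Real.log (eval (curve J x s) P) - Real.log (eval (curve J x s) Q))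
      (eval (curve J x s) (DD J P) / eval (curve J x s) P
        - eval (curve J x s) (DD J Q) / eval (curve J x s) Q) s :=
    fun s => (curve_second J P p hP x hxpos s).1.sub (curve_second J Q q hQ x hxpos s).1
  have hd2 : HasDerivAt
      (fun s => eval (curve J x s) (DD J P) / eval (curve J x s) P
        - eval (curve J x s) (DD J Q) / eval (curve J x s) Q) (GG P J x - GG Q J x) 0 := by
    have h := (curve_second J P p hP x hxpos 0).2.sub (curve_second J Q q hQ x hxpos 0).2
    rw [hc0] at h
    exact h
  have hlog : ∀ y : Fin N → ℝ, (∀ k, 0 < y k) →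
      Real.log (eval y P) - Real.log (eval y Q) = Real.log (rat P Q y) := by
    intro y hy
    unfold rat
    rw [Real.log_div (hP.pos y hy).ne' (hQ.pos y hy).ne']
  have hratpos : ∀ y : Fin N → ℝ, (∀ k, 0 < y k) → 0 < rat P Q y := by
    intro y hy
    unfold rat
    exact div_pos (hP.pos y hy) (hQ.pos y hy)
  have hloc : IsLocalMin
      (fun s => Real.log (eval (curve J x s) P) - Real.log (eval (curve J x s) Q)) 0 := by
    have hcont : Continuous (fun s : ℝ => x i * Real.exp s) := by fun_prop
    have h0 : x i * Real.exp 0 = x i := by simp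
    have e1 : ∀ᶠ s in nhds (0 : ℝ), a < x i * Real.exp s :=
      (hcont.tendsto 0).eventually_const_lt (by rw [h0]; exact hi.1)
    have e2 : ∀ᶠ s in nhds (0 : ℝ), x i * Real.exp s < b :=
      (hcont.tendsto 0).eventually_lt_const (by rw [h0]; exact hi.2)
    filter_upwards [e1, e2] with s h1 h2
    have hbox : ∀ k, a ≤ curve J x s k ∧ curve J x s k ≤ b := by
      intro k
      unfold curve
      split_ifs with hk
      · rw [(hJmem k).mp hk]
        exact ⟨h1.le, h2.le⟩
      · exact hx k
    show Real.log (eval (curve J x 0) P) - Real.log (eval (curve J x 0) Q)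
      ≤ Real.log (eval (curve J x s) P) - Real.log (eval (curve J x s) Q)
    rw [hc0, hlog x hxpos, hlog _ (hcpos s)]
    exact Real.log_le_log (hratpos x hxpos) (hmin _ hbox)
  have hGG : 0 ≤ GG P J x - GG Q J x := second_test _ _ _ 0 hd hd2 hloc
  have hJne : ∀ k ∈ J, ∀ l ∈ Jᶜ, x k ≠ x l := by
    intro k hk l hl heq
    rw [hJmem] at hk
    rw [hJc] at hl
    exact hl (heq.symm.trans hk)
  rw [GG_diff J P Q p q hP hQ x hxpos hJne] at hGG
  have hupd : ∀ k l, ∀ m, a ≤ Function.update x l (x k) m ∧ Function.update x l (x k) m ≤ b := by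
    intro k l m
    by_cases hm : m = l
    · subst hm
      rw [Function.update_self]
      exact hx k
    · rw [Function.update_of_ne hm]
      exact hx m
  have hupos : ∀ k l, ∀ m, 0 < Function.update x l (x k) m :=
    fun k l m => ha.trans_le (hupd k l m).1
  have hterm : ∀ k l, 0 ≤ (eval (Function.update x l (x k)) P * eval (Function.update x k (x l)) P /
        (eval x P) ^ 2 - eval (Function.update x l (x k)) Q * eval (Function.update x k (x l)) Q /
        (eval x Q) ^ 2) ∧
      ((eval (Function.update x l (x k)) P * eval (Function.update x k (x l)) P /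
        (eval x P) ^ 2 - eval (Function.update x l (x k)) Q * eval (Function.update x k (x l)) Q /
        (eval x Q) ^ 2) = 0 → eval (Function.update x k (x l)) P / eval (Function.update x k (x l)) Q
          = eval x P / eval x Q) :=
    fun k l => term_sign _ _ _ _ _ _ (hP.pos x hxpos) (hQ.pos x hxpos) (hP.pos _ (hupos k l))
      (hQ.pos _ (hupos k l)) (hP.pos _ (hupos l k)) (hQ.pos _ (hupos l k))
      (hmin _ (hupd k l)) (hmin _ (hupd l k))
  have hw : ∀ k l, 0 ≤ x k * x l / (x k - x l) ^ 2 := by
    intro k l
    have h1 := hxpos k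
    have h2 := hxpos l
    positivity
  have hnn : ∀ k ∈ J, ∀ l ∈ Jᶜ, 0 ≤ x k * x l / (x k - x l) ^ 2 *
      (eval (Function.update x l (x k)) P * eval (Function.update x k (x l)) P / (eval x P) ^ 2 -
       eval (Function.update x l (x k)) Q * eval (Function.update x k (x l)) Q / (eval x Q) ^ 2) :=
    fun k _ l _ => mul_nonneg (hw k l) (hterm k l).1
  have hsum0 : ∑ k ∈ J, ∑ l ∈ Jᶜ, x k * x l / (x k - x l) ^ 2 *
      (eval (Function.update x l (x k)) P * eval (Function.update x k (x l)) P / (eval x P) ^ 2 -
       eval (Function.update x l (x k)) Q * eval (Function.update x k (x l)) Q / (eval x Q) ^ 2)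
      = 0 := by
    refine le_antisymm (by linarith) ?_
    exact Finset.sum_nonneg fun k hk => Finset.sum_nonneg fun l hl => hnn k hk l hl
  have h1 := (Finset.sum_eq_zero_iff_of_nonneg
    (fun k hk => Finset.sum_nonneg fun l hl => hnn k hk l hl)).mp hsum0 i ((hJmem i).mpr rfl)
  have hjJ : j ∈ Jᶜ := (hJc j).mpr hj
  have h2 := (Finset.sum_eq_zero_iff_of_nonneg (fun l hl => hnn i ((hJmem i).mpr rfl) l hl)).mp h1
    j hjJ
  have hwpos : x i * x j / (x i - x j) ^ 2 ≠ 0 := by
    have h3 : x i - x j ≠ 0 := sub_ne_zero.mpr (fun h => hj h.symm)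
    have h4 := hxpos i
    have h5 := hxpos j
    positivity
  have h3 := (mul_eq_zero.mp h2).resolve_left hwpos
  exact (hterm i j).2 h3

end SR
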