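import Pool.Agent.Helper204.SR.Defs
import Pool.Agent.Helper204.SR.P_transfer
import Pool.Agent.Helper204.SR.P_scaleStep
import Pool.Agent.Helper204.SR.P_exists_min

set_option linter.unusedSectionVars false

open MvPolynomial Finset

noncomputable section

namespace SR



theorem vertex0_aux {N : ℕ} (P Q : MvPolynomial (Fin N) ℝ) (p q : ℕ)
    (hP : Good P p) (hQ : Good Q q) (a b : ℝ) (ha : 0 < a) (n : ℕ) :
    ∀ x : Fin N → ℝ, free a b x = n → (∀ i, a ≤ x i ∧ x i ≤ b) →
      (∀ z : Fin N → ℝ, (∀ i, a ≤ z i ∧ z i ≤ b) → rat P Q x ≤ rat P Q z) →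
    ∃ v : Fin N → ℝ, (∀ i, v i = a ∨ v i = b) ∧
      ∀ z : Fin N → ℝ, (∀ i, a ≤ z i ∧ z i ≤ b) → rat P Q v ≤ rat P Q z := by
  induction n using Nat.strong_induction_on with
  | _ n ih =>
    intro x hxn hx hmin
    by_cases h : ∃ i, a < x i ∧ x i < b
    · obtain ⟨i, hi⟩ := h
      by_cases h2 : ∃ j, ¬ (a < x j ∧ x j < b)
      · obtain ⟨j, hj⟩ := h2
        have hji : x j ≠ x i := by
          intro h3
          rw [h3] at hj
          exact hj hi
        have htr := transfer P Q p q hP hQ a b ha x hx hmin i hi j hji
        have hlt : free a b (Function.update x i (x j)) < n := by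
          rw [← hxn]
          unfold free
          apply Finset.card_lt_card
          have hsub : (univ.filter fun k => a < Function.update x i (x j) k ∧ Function.update x i (x j) k < b) ⊆
              (univ.filter fun k => a < x k ∧ x k < b) := by
            intro k hk
            rw [Finset.mem_filter] at hk ⊢
            refine ⟨mem_univ _, ?_⟩
            by_cases hki : k = i
            · rw [hki]; exact hi
            · rw [Function.update_of_ne hki] at hk
              exact hk.2
          rw [Finset.ssubset_iff_of_subset hsub]
          refine ⟨i, ?_, ?_⟩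
          · rw [Finset.mem_filter]; exact ⟨mem_univ _, hi⟩
          · rw [Finset.mem_filter]
            rintro ⟨_, h4⟩
            rw [Function.update_self] at h4
            exact hj h4
        refine ih _ hlt (Function.update x i (x j)) rfl ?_ ?_
        · intro k
          by_cases hki : k = i
          · rw [hki, Function.update_self]; exact hx j
          · rw [Function.update_of_ne hki]; exact hx k
        · intro z hz
          rw [htr]
          exact hmin z hz
      · push Not at h2
        obtain ⟨y, hy1, hy2, hy3⟩ := scaleStep (Fin.pos i) P Q p q hP hQ a b ha x h2 hmin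
        exact ih _ (hxn ▸ hy2) y rfl hy1 hy3
    · push Not at h
      refine ⟨x, ?_, hmin⟩
      intro i
      obtain ⟨h1, h2⟩ := hx i
      rcases eq_or_lt_of_le h1 with h3 | h3
      · left; exact h3.symm
      · right; exact le_antisymm h2 (h i h3)

/-- HINT: by `exists_min` the set of minimizers is nonempty; choose a minimizer `x` with the least `free a b x` (`Nat.find` or well-founded minimum / strong induction).
If `free a b x > 0`, take a free `i`. If some `j` is not free, then `x j = a` or `x j = b`, so `x j ≠ x i` and `transfer` shows that `update x i (x j)` is again a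
minimizer, with fewer free coordinates (`Finset.card_lt_card`, `i` is no longer free, the others unchanged): contradiction. If all are free: `scaleStep`. -/
theorem vertex0 {N : ℕ} (P Q : MvPolynomial (Fin N) ℝ) (p q : ℕ)
    (hP : Good P p) (hQ : Good Q q) (a b : ℝ) (ha : 0 < a) (hab : a ≤ b) :
    ∃ v : Fin N → ℝ, (∀ i, v i = a ∨ v i = b) ∧
      ∀ z : Fin N → ℝ, (∀ i, a ≤ z i ∧ z i ≤ b) → rat P Q v ≤ rat P Q z := by
  obtain ⟨x, hx1, hx2⟩ := exists_min P Q p q hP hQ a b ha hab
  exact vertex0_aux P Q p q hP hQ a b ha _ x rfl hx1 hx2

end SR
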