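import Pool.Agent.Helper204.SR.Defs
import Pool.Agent.Helper204.SR.P_vertex0
import Pool.Agent.Helper204.SR.P_two_valued

set_option linter.unusedSectionVars false

open MvPolynomial Finset

noncomputable section

namespace SR



/-- HINT: `vertex0`, `two_valued` and `symm` of `Good` (for `P` and `Q`). -/
theorem vertex {N : ℕ} (P Q : MvPolynomial (Fin N) ℝ) (p q : ℕ)
    (hP : Good P p) (hQ : Good Q q) (a b : ℝ) (ha : 0 < a) (hab : a ≤ b) :
    ∃ k ≤ N, ∀ z : Fin N → ℝ, (∀ i, a ≤ z i ∧ z i ≤ b) → rat P Q (cor a b k) ≤ rat P Q z := by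
  obtain ⟨v, hv, hmin⟩ := vertex0 P Q p q hP hQ a b ha hab
  obtain ⟨k, hk, σ, hσ⟩ := two_valued a b v hv
  refine ⟨k, hk, fun z hz => ?_⟩
  have e : rat P Q (cor a b k) = rat P Q v := by
    unfold rat
    rw [← hσ, hP.symm, hQ.symm]
  rw [e]
  exact hmin z hz

end SR
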