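import Pool.Agent.Helper204.SR.Defs
import Pool.Agent.Helper204.SR.P_vertex

set_option linter.unusedSectionVars false

open MvPolynomial Finset

noncomputable section

namespace SR



/-- HINT: (←) `vertex` gives `k ≤ N` with `rat P Q (cor a b k) ≤ rat P Q x` for all `x` in the closed box `⊇ I^N`. (→) `cor a b k` is the limit of `cor (a + t) (b - t) k`,
`t → 0+`, whose coordinates are in `Ioo a b ⊆ I` for small `t > 0`; `rat P Q` is continuous there (`MvPolynomial.continuous_eval`, positive denominators):
`ge_of_tendsto`/`le_of_tendsto`. -/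
theorem T1 {N : ℕ} (P Q : MvPolynomial (Fin N) ℝ) (p q : ℕ)
    (hP : Good P p) (hQ : Good Q q) (a b : ℝ) (ha : 0 < a) (hab : a < b) (I : Set ℝ)
    (hI1 : Set.Ioo a b ⊆ I) (hI2 : I ⊆ Set.Icc a b) :
    minOn P Q I ↔ ∀ k ≤ N, rat P Q (fun _ => 1) ≤ rat P Q (cor a b k) := by
  constructor
  · intro h k hk
    have hcont : Continuous (fun t : ℝ => (cor (a + t) (b - t) k : Fin N → ℝ)) := by
      apply continuous_pi
      intro j
      unfold cor
      by_cases hj : (j : ℕ) + k < N
      · simp only [hj, if_true]; fun_prop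
      · simp only [hj, if_false]; fun_prop
    have hcP : Continuous (fun t : ℝ => eval (cor (a + t) (b - t) k : Fin N → ℝ) P) :=
      (MvPolynomial.continuous_eval P).comp hcont
    have hcQ : Continuous (fun t : ℝ => eval (cor (a + t) (b - t) k : Fin N → ℝ) Q) :=
      (MvPolynomial.continuous_eval Q).comp hcont
    have h0 : (cor (a + 0) (b - 0) k : Fin N → ℝ) = cor a b k := by rw [add_zero, sub_zero]
    have hQpos : 0 < eval (cor (a + 0) (b - 0) k : Fin N → ℝ) Q := by
      apply hQ.pos
      intro i
      rw [h0]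
      unfold cor
      split_ifs
      · exact ha
      · exact ha.trans hab
    have hlim : Filter.Tendsto (fun t : ℝ => rat P Q (cor (a + t) (b - t) k : Fin N → ℝ)) (nhdsWithin 0 (Set.Ioi 0))
        (nhds (rat P Q (cor a b k))) := by
      have h1 : ContinuousAt (fun t : ℝ => eval (cor (a + t) (b - t) k : Fin N → ℝ) P / eval (cor (a + t) (b - t) k : Fin N → ℝ) Q) 0 :=
        hcP.continuousAt.div hcQ.continuousAt hQpos.ne'
      have h2 := h1.tendsto
      rw [h0] at h2
      exact h2.mono_left nhdsWithin_le_nhds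
    apply ge_of_tendsto hlim
    have hmem : Set.Ioo (0:ℝ) ((b - a) / 2) ∈ nhdsWithin 0 (Set.Ioi 0) :=
      Ioo_mem_nhdsGT (by linarith)
    filter_upwards [hmem] with t ht
    apply h
    intro i
    apply hI1
    unfold cor
    obtain ⟨ht1, ht2⟩ := ht
    split_ifs
    · constructor <;> linarith
    · constructor <;> linarith
  · intro h x hx
    obtain ⟨k, hk, hv⟩ := vertex P Q p q hP hQ a b ha hab.le
    exact (h k hk).trans (hv x (fun i => hI2 (hx i)))

end SR
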