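import Pool.Agent.Helper204.SR.Defs
import Pool.Agent.Helper204.SR.Defs2
import Pool.Agent.Helper204.SR.P_T1
import Pool.Agent.Helper204.SR.P_rat_scale

set_option linter.unusedSectionVars false

open MvPolynomial Finset

noncomputable section

namespace SR



theorem T1b_aux0 {N : ℕ} (a b : ℝ) : (cor a b 0 : Fin N → ℝ) = fun i => a * (fun _ => (1:ℝ)) i := by
  funext i
  simp [cor]

theorem T1b_auxN {N : ℕ} (a b : ℝ) : (cor a b N : Fin N → ℝ) = fun i => b * (fun _ => (1:ℝ)) i := by
  funext i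
  simp [cor]

theorem T1b_auxk {N : ℕ} (a b : ℝ) (ha : a ≠ 0) (k : ℕ) :
    (cor a b k : Fin N → ℝ) = fun i => a * (cor 1 (b / a) k : Fin N → ℝ) i := by
  funext i
  unfold cor
  split_ifs
  · simp
  · field_simp

/-- HINT: use `T1`. (→) the constant points (`k = 0`: all coordinates `a < 1`; `k = N`: all coordinates `b > 1`) give, with `rat_scale`, `1 ≤ a^p/a^q` and `1 ≤ b^p/b^q`
(`rat 1 > 0`), so `p ≤ q` and `q ≤ p`. With `p = q`, `rat_scale` with `c = a`: `rat (cor a b k) = rat (cor 1 (b/a) k)`. (←) the same, and for `k = 0`, `k = N` the point is constant,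
so `rat = rat 1`. -/
theorem T1b {N : ℕ} (P Q : MvPolynomial (Fin N) ℝ) (p q : ℕ)
    (hP : Good P p) (hQ : Good Q q) (a b : ℝ) (ha : 0 < a) (ha1 : a < 1) (hb1 : 1 < b) (I : Set ℝ)
    (hI1 : Set.Ioo a b ⊆ I) (hI2 : I ⊆ Set.Icc a b) :
    minOn P Q I ↔ p = q ∧ ∀ k, 1 ≤ k → k < N → rat P Q (fun _ => 1) ≤ rat P Q (cor 1 (b / a) k) := by
  rw [T1 P Q p q hP hQ a b ha (by linarith) I hI1 hI2]
  have hb : 0 < b := by linarith
  have hr : 0 < rat P Q (fun _ => 1) := by
    unfold rat
    exact div_pos (hP.pos _ (fun _ => one_pos)) (hQ.pos _ (fun _ => one_pos))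
  have e0 : rat P Q (cor a b 0) = a ^ p / a ^ q * rat P Q (fun _ => 1) := by
    rw [T1b_aux0]; exact (rat_scale P Q p q hP hQ a _).2
  have eN : rat P Q (cor a b N) = b ^ p / b ^ q * rat P Q (fun _ => 1) := by
    rw [T1b_auxN]; exact (rat_scale P Q p q hP hQ b _).2
  have ek : ∀ k, rat P Q (cor a b k) = a ^ p / a ^ q * rat P Q (cor 1 (b / a) k) := by
    intro k
    rw [T1b_auxk a b ha.ne' k]; exact (rat_scale P Q p q hP hQ a _).2
  constructor
  · intro h
    have h0 := h 0 (Nat.zero_le _)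
    have hN := h N le_rfl
    rw [e0] at h0
    rw [eN] at hN
    have h0' : 1 ≤ a ^ p / a ^ q := by
      by_contra hc
      push Not at hc
      nlinarith
    have hN' : 1 ≤ b ^ p / b ^ q := by
      by_contra hc
      push Not at hc
      nlinarith
    rw [one_le_div (by positivity)] at h0' hN'
    have hpq : p ≤ q := (pow_le_pow_iff_right_of_lt_one₀ ha ha1).mp h0'
    have hqp : q ≤ p := (pow_le_pow_iff_right₀ hb1).mp hN'
    have he : p = q := le_antisymm hpq hqp
    refine ⟨he, fun k _ hk => ?_⟩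
    have := h k hk.le
    rw [ek, he, div_self (by positivity), one_mul] at this
    exact this
  · rintro ⟨he, h⟩ k hk
    rcases Nat.eq_zero_or_pos k with hk0 | hk0
    · subst hk0
      rw [e0, he, div_self (by positivity), one_mul]
    · rcases Nat.eq_or_lt_of_le hk with hkN | hkN
      · subst hkN
        rw [eN, he, div_self (by positivity), one_mul]
      · rw [ek, he, div_self (by positivity), one_mul]
        exact h k hk0 hkN

end SR
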