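import Pool.Agent.Helper204.SR.Defs
import Pool.Agent.Helper204.SR.Defs2

set_option linter.unusedSectionVars false

open MvPolynomial Finset

noncomputable section

namespace SR



/-- HINT: `Fin.rev` is antitone. -/
theorem expo_strict {N : ℕ} (l : Fin N → ℕ) (hl : Antitone l) : StrictMono (expo l) := by
  intro i j hij
  show l i.rev + (i : ℕ) < l j.rev + (j : ℕ)
  have h1 : l i.rev ≤ l j.rev := hl (Fin.rev_le_rev.2 hij.le)
  have h2 : (i : ℕ) < (j : ℕ) := hij
  omega
end SR
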