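import Pool.Agent.Helper204.SR.Defs

set_option linter.unusedSectionVars false

open MvPolynomial Finset

noncomputable section

namespace SR



/-- HINT: `Matrix.det_vandermonde_ne_zero_iff` (`Matrix.vandermonde v = of fun i j => v i ^ (j:ℕ)`). -/
theorem altR_idx_ne_zero {K : Type*} [CommRing K] [IsDomain K] {N : ℕ} (x : Fin N → K)
    (hx : Function.Injective x) : altR x (fun j => (j : ℕ)) ≠ 0 := by
  exact Matrix.det_vandermonde_ne_zero_iff.mpr hx

end SR
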