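import Pool.Agent.Helper204.SR.Defs

set_option linter.unusedSectionVars false

open MvPolynomial Finset

noncomputable section

namespace SR



theorem ab_geom {K : Type*} [CommRing K] (y z : K) (a b : ℕ) (hab : a ≤ b) :
    y ^ b - z ^ (b - a) * y ^ a = (y - z) * ∑ m ∈ Finset.Ico a b, z ^ (b - 1 - m) * y ^ m := by
  induction b, hab using Nat.le_induction with
  | base => simp
  | succ b hab ih =>
    rw [Finset.sum_Ico_succ_top hab]
    have h1 : ∑ m ∈ Finset.Ico a b, z ^ (b + 1 - 1 - m) * y ^ m =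
        z * ∑ m ∈ Finset.Ico a b, z ^ (b - 1 - m) * y ^ m := by
      rw [Finset.mul_sum]
      refine Finset.sum_congr rfl fun m hm => ?_
      rw [Finset.mem_Ico] at hm
      rw [← mul_assoc, ← pow_succ']
      congr 2
      omega
    rw [h1]
    have h2 : b + 1 - 1 - b = 0 := by omega
    have h3 : z ^ (b + 1 - a) = z * z ^ (b - a) := by
      rw [← pow_succ']; congr 1; omega
    rw [h2, h3, pow_zero, one_mul, mul_add]
    linear_combination z * ih

theorem ab_det {K : Type*} [CommRing K] {N : ℕ} (y : Fin N → K) (s : Fin N → Finset ℕ)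
    (c : Fin N → ℕ → K) :
    Matrix.det (Matrix.of fun i j => ∑ m ∈ s j, c j m * y i ^ m) =
      ∑ m ∈ Fintype.piFinset s, (∏ j, c j (m j)) * altR y m := by
  unfold altR
  rw [Matrix.det_apply]
  simp only [Matrix.of_apply, Finset.prod_univ_sum, Finset.smul_sum]
  rw [Finset.sum_comm]
  refine Finset.sum_congr rfl fun m _ => ?_
  rw [Matrix.det_apply, Finset.mul_sum]
  refine Finset.sum_congr rfl fun σ _ => ?_
  rw [Finset.prod_mul_distrib, mul_smul_comm]
  rfl

/-- HINT: `A i j = x i ^ e j`. Column operations `Matrix.det_eq_of_forall_col_eq_smul_add_pred` with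
`c j = x 0 ^ (e j.succ - e j.castSucc)`: `det A = det B` with `B i 0 = x i ^ e 0`,
`B i j.succ = x i ^ e j.succ - x 0 ^ (e j.succ - e j.castSucc) * x i ^ e j.castSucc`. Row `0` of `B` is
`(x 0 ^ e 0, 0, .., 0)`, so `Matrix.det_succ_row_zero` (or `det_succ_column_zero` of the transpose) gives
`det B = x 0 ^ e 0 * det (B i.succ j.succ)`. For `i` a successor
`B i j.succ = (x i - x 0) * ∑ m ∈ Ico (e j.castSucc) (e j.succ), x 0 ^ (e j.succ - 1 - m) * x i ^ m`
(`Commute.geom_sum₂_mul` / `geom_sum₂_Ico..` / induction). Pull out the row factors (`Matrix.det_mul_column`/`det_mul_row`) and expand by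
multilinearity in the columns: `Matrix.det_transpose`, `Matrix.detRowAlternating`, `MultilinearMap.map_sum_finset`,
`Matrix.det_mul_row`/`det_mul_column` for the scalars `x 0 ^ (e j.succ - 1 - m j)`.
Another way for the last step: `Matrix.det_apply` and `Finset.prod_univ_sum` (product of sums = sum over `Fintype.piFinset`) and swap sums. -/
theorem altR_branch {K : Type*} [CommRing K] {N : ℕ} (x : Fin (N + 1) → K) (e : Fin (N + 1) → ℕ)
    (he : Monotone e) :
    altR x e = x 0 ^ e 0 * (∏ i : Fin N, (x i.succ - x 0)) *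
      ∑ m ∈ Fintype.piFinset (fun j : Fin N => Finset.Ico (e j.castSucc) (e j.succ)),
        (∏ j : Fin N, x 0 ^ (e j.succ - 1 - m j)) * altR (fun i : Fin N => x i.succ) m := by

  unfold altR
  set A : Matrix (Fin (N + 1)) (Fin (N + 1)) K := Matrix.of fun i j => x i ^ e j with hA
  set B : Matrix (Fin (N + 1)) (Fin (N + 1)) K := Matrix.of fun i =>
    Fin.cases (x i ^ e 0) (fun j : Fin N =>
      x i ^ e j.succ - x 0 ^ (e j.succ - e j.castSucc) * x i ^ e j.castSucc) with hB
  have hB0 : ∀ i, B i 0 = x i ^ e 0 := fun i => rfl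
  have hBs : ∀ i (j : Fin N), B i j.succ =
      x i ^ e j.succ - x 0 ^ (e j.succ - e j.castSucc) * x i ^ e j.castSucc := fun i j => rfl
  have h1 : A.det = B.det := by
    refine Matrix.det_eq_of_forall_col_eq_smul_add_pred
      (fun j : Fin N => x 0 ^ (e j.succ - e j.castSucc)) (fun i => rfl) (fun i j => ?_)
    rw [hBs]
    show x i ^ e j.succ = _ + _ * x i ^ e j.castSucc
    ring
  have hle : ∀ j : Fin N, e j.castSucc ≤ e j.succ := fun j => he (Fin.castSucc_lt_succ).le
  have h2 : B.det = x 0 ^ e 0 * (B.submatrix Fin.succ Fin.succ).det := by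
    rw [Matrix.det_succ_row_zero, Fin.sum_univ_succ, Finset.sum_eq_zero, add_zero, hB0]
    · simp
    · intro j _
      have h3 : B 0 j.succ = 0 := by
        rw [hBs, ← pow_add, Nat.sub_add_cancel (hle j), sub_self]
      rw [h3, mul_zero, zero_mul]
  have h4 : B.submatrix Fin.succ Fin.succ = Matrix.of fun i j => (x i.succ - x 0) *
      (Matrix.of fun (i : Fin N) (j : Fin N) =>
        ∑ m ∈ Finset.Ico (e j.castSucc) (e j.succ), x 0 ^ (e j.succ - 1 - m) * x i.succ ^ m) i j := by
    ext i j
    rw [Matrix.submatrix_apply, hBs, Matrix.of_apply, Matrix.of_apply]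
    exact ab_geom (x i.succ) (x 0) _ _ (hle j)
  have h5 := ab_det (fun i : Fin N => x i.succ)
    (fun j : Fin N => Finset.Ico (e j.castSucc) (e j.succ)) (fun j m => x 0 ^ (e j.succ - 1 - m))
  unfold altR at h5
  rw [h1, h2, h4, Matrix.det_mul_column, h5, mul_assoc]

end SR
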