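import Pool.Agent.Helper204.SR.Defs
import Pool.Agent.Helper204.SR.P_altR_branch

set_option linter.unusedSectionVars false

open MvPolynomial Finset

noncomputable section

namespace SR



/-- HINT: `altR_branch` with `e j = (j : ℕ)`: `Fintype.piFinset` of `Ico j (j+1)` is the singleton `fun j => (j:ℕ)`. Or directly from
`Matrix.det_vandermonde` (`Matrix.vandermonde v = of fun i j => v i ^ (j:ℕ)`) with `Fin.prod_univ_succ`. -/
theorem altR_branch_idx {K : Type*} [CommRing K] {N : ℕ} (x : Fin (N + 1) → K) :
    altR x (fun j => (j : ℕ)) = (∏ i : Fin N, (x i.succ - x 0)) *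
      altR (fun i : Fin N => x i.succ) (fun j => (j : ℕ)) := by
  have h1 : altR x (fun j => (j : ℕ)) = (Matrix.vandermonde x).det := rfl
  have h2 : altR (fun i : Fin N => x i.succ) (fun j => (j : ℕ)) =
      (Matrix.vandermonde (fun i : Fin N => x i.succ)).det := rfl
  rw [h1, h2, Matrix.det_vandermonde, Matrix.det_vandermonde, Fin.prod_univ_succ]
  congr 1
  · rw [Fin.prod_Ioi_zero]
  · refine Finset.prod_congr rfl fun i _ => ?_
    rw [Fin.prod_Ioi_succ]

end SR
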