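import Pool.Agent.Helper204.SR.Defs

set_option linter.unusedSectionVars false

open MvPolynomial Finset

noncomputable section

namespace SR



/-- HINT: Pluecker relation. Let `A = of (Fin.cons a (Fin.cons b Y))`. By Cramer for rows
(`Matrix.mulVec_cramer Aᵀ c : Aᵀ *ᵥ cramer Aᵀ c = Aᵀ.det • c`, `Matrix.cramer_transpose_apply : cramer Aᵀ c i = (A.updateRow i c).det`)
`det A • c = det(c,b,Y) • a + det(a,c,Y) • b + ∑ k, (..) • Y k`. Apply the linear map `z ↦ det (of (Fin.cons z (Fin.cons d Y)))`
(linear in row `0`: `Matrix.det_updateRow_add`, `det_updateRow_smul`, or `Matrix.detRowAlternating`), which kills `Y k` (two equal rows,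
`Matrix.det_zero_of_row_eq`). -/
theorem plucker {K : Type*} [CommRing K] {n : ℕ} (Y : Fin n → Fin (n + 2) → K)
    (a b c d : Fin (n + 2) → K) :
    let Ω : (Fin (n + 2) → K) → (Fin (n + 2) → K) → K :=
      fun u v => Matrix.det (Matrix.of (Fin.cons u (Fin.cons v Y) : Fin (n + 2) → Fin (n + 2) → K))
    Ω a b * Ω c d = Ω c b * Ω a d + Ω a c * Ω b d := by
  intro Ω
  set A : Matrix (Fin (n + 2)) (Fin (n + 2)) K :=
    Matrix.of (Fin.cons a (Fin.cons b Y) : Fin (n + 2) → Fin (n + 2) → K) with hA
  set B : Matrix (Fin (n + 2)) (Fin (n + 2)) K :=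
    Matrix.of (Fin.cons 0 (Fin.cons d Y) : Fin (n + 2) → Fin (n + 2) → K) with hB
  have hL : ∀ z : Fin (n + 2) → K, Matrix.cramer B.transpose z 0 = Ω z d := by
    intro z
    rw [Matrix.cramer_transpose_apply]
    show (B.updateRow 0 z).det = Matrix.det _
    congr 1
    ext i j
    refine Fin.cases ?_ (fun i => ?_) i
    · simp [hB]
    · rw [Matrix.updateRow_ne (Fin.succ_ne_zero i)]
      simp [hB]
  have h1 := Matrix.mulVec_cramer A.transpose c
  have h2 : A.det • c = ∑ i, (A.updateRow i c).det • (fun j => A i j) := by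
    funext j
    have h := congrFun h1 j
    simp only [Matrix.mulVec, dotProduct, Matrix.transpose_apply, Matrix.cramer_transpose_apply,
      Matrix.det_transpose, Pi.smul_apply, smul_eq_mul] at h
    rw [Finset.sum_apply]
    simp only [Pi.smul_apply, smul_eq_mul]
    rw [← h]
    exact Finset.sum_congr rfl (fun i _ => mul_comm _ _)
  have h3 := congrArg (fun z => Matrix.cramer B.transpose z 0) h2
  simp only [map_smul, map_sum, Pi.smul_apply, Finset.sum_apply, smul_eq_mul] at h3
  simp only [hL] at h3
  rw [Fin.sum_univ_succ, Fin.sum_univ_succ] at h3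
  have hz : ∀ k : Fin n, Ω (fun j => A k.succ.succ j) d = 0 := by
    intro k
    show Matrix.det _ = 0
    refine Matrix.det_zero_of_row_eq (i := 0) (j := k.succ.succ) ?_ ?_
    · exact (Fin.succ_ne_zero _).symm
    · funext j
      simp [hA]
  have hsum : ∑ k : Fin n, (A.updateRow k.succ.succ c).det * Ω (fun j => A k.succ.succ j) d = 0 := by
    refine Finset.sum_eq_zero (fun k _ => ?_)
    rw [hz k, mul_zero]
  rw [hsum, add_zero] at h3
  have e0 : (fun j => A 0 j) = a := by
    funext j
    simp [hA]
  have e1 : (fun j => A (Fin.succ 0) j) = b := by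
    funext j
    simp [hA]
  have u0 : (A.updateRow 0 c).det = Ω c b := by
    show (A.updateRow 0 c).det = Matrix.det _
    congr 1
    ext i j
    refine Fin.cases ?_ (fun i => ?_) i
    · simp [hA]
    · rw [Matrix.updateRow_ne (Fin.succ_ne_zero i)]
      simp [hA]
  have u1 : (A.updateRow (Fin.succ 0) c).det = Ω a c := by
    show (A.updateRow (Fin.succ 0) c).det = Matrix.det _
    congr 1
    ext i j
    refine Fin.cases ?_ (fun i => ?_) i
    · rw [Matrix.updateRow_ne (Fin.succ_ne_zero _).symm]
      simp [hA]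
    · refine Fin.cases ?_ (fun i => ?_) i
      · rw [Matrix.updateRow_self]
        simp
      · rw [Matrix.updateRow_ne (fun h => Fin.succ_ne_zero i (Fin.succ_injective _ h))]
        simp [hA]
  rw [e0, e1, u0, u1] at h3
  exact h3

end SR
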