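import Pool.Agent.Helper204.SR.Defs
import Pool.Agent.Helper204.SR.P_plucker

set_option linter.unusedSectionVars false

open MvPolynomial Finset

noncomputable section

namespace SR



/-- HINT: `plucker` with `a k = u ^ e k` etc. and `Y i k = y i ^ e k` (`altR (Fin.cons u (Fin.cons v y)) e` is `Ω a b`: the matrices agree entrywise,
`Fin.cases`). -/
theorem alt_plucker {K : Type*} [CommRing K] {n : ℕ} (y : Fin n → K) (e : Fin (n + 2) → ℕ)
    (u v u' v' : K) :
    altR (Fin.cons u (Fin.cons v y) : Fin (n + 2) → K) e *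
        altR (Fin.cons u' (Fin.cons v' y) : Fin (n + 2) → K) e =
      altR (Fin.cons u' (Fin.cons v y) : Fin (n + 2) → K) e *
          altR (Fin.cons u (Fin.cons v' y) : Fin (n + 2) → K) e +
        altR (Fin.cons u (Fin.cons u' y) : Fin (n + 2) → K) e *
          altR (Fin.cons v (Fin.cons v' y) : Fin (n + 2) → K) e := by
  have key : ∀ p q : K, altR (Fin.cons p (Fin.cons q y) : Fin (n + 2) → K) e =
      Matrix.det (Matrix.of (Fin.cons (fun k => p ^ e k) (Fin.cons (fun k => q ^ e k)
        (fun i k => y i ^ e k)) : Fin (n + 2) → Fin (n + 2) → K)) := by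
    intro p q
    unfold altR
    congr 1
    ext i j
    refine Fin.cases ?_ (fun i => ?_) i
    · rfl
    · refine Fin.cases ?_ (fun i => ?_) i
      · rfl
      · rfl
  rw [key, key, key, key, key, key]
  exact plucker (fun i k => y i ^ e k) (fun k => u ^ e k) (fun k => v ^ e k)
    (fun k => u' ^ e k) (fun k => v' ^ e k)

end SR
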