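import Pool.Agent.Helper204.SR.Defs
import Pool.Agent.Helper204.SR.P_altR_branch_idx
import Pool.Agent.Helper204.SR.P_alt_plucker

set_option linter.unusedSectionVars false

open MvPolynomial Finset

noncomputable section

namespace SR



theorem dg_aeval {K : Type*} [CommRing K] [Algebra ℝ K] {N : ℕ} (e : Fin N → ℕ) (x : Fin N → K) :
    aeval x (altR (X : Fin N → MvPolynomial (Fin N) ℝ) e) = altR x e := by
  unfold altR
  rw [AlgHom.map_det]
  congr 1
  ext i j
  simp

theorem dg_quot {K : Type*} [CommRing K] [Algebra ℝ K] {N : ℕ}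
    (P : MvPolynomial (Fin N) ℝ) (e : Fin N → ℕ)
    (hP : P * altR (X : Fin N → MvPolynomial (Fin N) ℝ) (fun j => (j : ℕ)) = altR X e)
    (x : Fin N → K) : altR x e = aeval x P * altR x (fun j => (j : ℕ)) := by
  rw [← dg_aeval e x, ← hP, map_mul, dg_aeval]

theorem dg_idx {K : Type*} [CommRing K] {n : ℕ} (y : Fin n → K) (u v : K) :
    altR (Fin.cons u (Fin.cons v y) : Fin (n + 2) → K) (fun j => (j : ℕ)) =
      ((v - u) * ∏ k, (y k - u)) * ((∏ k, (y k - v)) * altR y (fun j => (j : ℕ))) := by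
  have h1 := altR_branch_idx (Fin.cons u (Fin.cons v y) : Fin (n + 2) → K)
  have h2 := altR_branch_idx (Fin.cons v y : Fin (n + 1) → K)
  simp only [Fin.cons_succ, Fin.cons_zero] at h1 h2
  rw [h1, h2, Fin.prod_univ_succ]
  simp only [Fin.cons_succ, Fin.cons_zero]

/-- HINT: apply `aeval (Fin.cons u (Fin.cons v y))` to `hP`: `aeval .. P * altR (cons u (cons v y)) idx = altR (cons u (cons v y)) e`
(`AlgHom.map_det`), and `altR_branch_idx` twice gives `altR (cons u (cons v y)) idx = (v - u) * (∏ k (y k - u)) * (∏ k (y k - v)) * altR y idx`.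
Insert in `alt_plucker`: all three products have the common factor
`(∏ (y k - u)) (∏ (y k - v)) (∏ (y k - u')) (∏ (y k - v')) (altR y idx)^2`, which is nonzero by `hg`; cancel it (`mul_left_cancel₀`). -/
theorem disc_gen {K : Type*} [CommRing K] [IsDomain K] [Algebra ℝ K] {n : ℕ}
    (P : MvPolynomial (Fin (n + 2)) ℝ) (e : Fin (n + 2) → ℕ)
    (hP : P * altR (X : Fin (n + 2) → MvPolynomial (Fin (n + 2)) ℝ) (fun j => (j : ℕ)) = altR X e)
    (y : Fin n → K) (u v u' v' : K)
    (hg : (∏ k, (y k - u)) * (∏ k, (y k - v)) * (∏ k, (y k - u')) * (∏ k, (y k - v')) *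
      (altR y (fun j => (j : ℕ))) ^ 2 ≠ 0) :
    (v - u) * (v' - u') * (aeval (Fin.cons u (Fin.cons v y) : Fin (n + 2) → K) P *
        aeval (Fin.cons u' (Fin.cons v' y) : Fin (n + 2) → K) P) =
      (v - u') * (v' - u) * (aeval (Fin.cons u' (Fin.cons v y) : Fin (n + 2) → K) P *
        aeval (Fin.cons u (Fin.cons v' y) : Fin (n + 2) → K) P) +
      (u' - u) * (v' - v) * (aeval (Fin.cons u (Fin.cons u' y) : Fin (n + 2) → K) P *
        aeval (Fin.cons v (Fin.cons v' y) : Fin (n + 2) → K) P) := by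
  have h := alt_plucker y e u v u' v'
  simp only [dg_quot P e hP, dg_idx] at h
  apply mul_left_cancel₀ hg
  linear_combination h

end SR
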