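import Pool.Agent.Helper204.SR.Defs
import Pool.Agent.Helper204.SR.P_altR_idx_ne_zero
import Pool.Agent.Helper204.SR.P_disc_gen

set_option linter.unusedSectionVars false

open MvPolynomial Finset

noncomputable section

namespace SR



/-- HINT: `disc_gen` over `K = MvPolynomial (Fin (n + 4)) ℝ` with `u = X 0, v = X 1, u' = X 2, v' = X 3, y k = X (k + 4)` (e.g. `Fin.natAdd 4 k` after
a cast; or take `K = MvPolynomial (Option (Option (Option (Option (Fin n))))) ℝ` or `MvPolynomial (Fin 4 ⊕ Fin n) ℝ` which is more convenient)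
where the nonvanishing holds (`X a - X b ≠ 0` for `a ≠ b` since `X` is injective, `altR_idx_ne_zero`), then apply
`aeval`/`eval` at the real point (`MvPolynomial.aeval`-composition: `(eval p) (aeval g P) = eval (fun i => eval p (g i)) P`, e.g. `eval₂Hom`/`map_aeval`/
`MvPolynomial.aeval_def`, `comp_aeval_apply`). -/
theorem disc {n : ℕ} (P : MvPolynomial (Fin (n + 2)) ℝ) (e : Fin (n + 2) → ℕ)
    (hP : P * altR (X : Fin (n + 2) → MvPolynomial (Fin (n + 2)) ℝ) (fun j => (j : ℕ)) = altR X e)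
    (y : Fin n → ℝ) (u v u' v' : ℝ) :
    (v - u) * (v' - u') * (eval (Fin.cons u (Fin.cons v y) : Fin (n + 2) → ℝ) P *
        eval (Fin.cons u' (Fin.cons v' y) : Fin (n + 2) → ℝ) P) =
      (v - u') * (v' - u) * (eval (Fin.cons u' (Fin.cons v y) : Fin (n + 2) → ℝ) P *
        eval (Fin.cons u (Fin.cons v' y) : Fin (n + 2) → ℝ) P) +
      (u' - u) * (v' - v) * (eval (Fin.cons u (Fin.cons u' y) : Fin (n + 2) → ℝ) P *
        eval (Fin.cons v (Fin.cons v' y) : Fin (n + 2) → ℝ) P) := by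
  let Y : Fin n → MvPolynomial (Fin 4 ⊕ Fin n) ℝ := fun k => X (Sum.inr k)
  let φ : MvPolynomial (Fin 4 ⊕ Fin n) ℝ →ₐ[ℝ] ℝ := aeval (Sum.elim ![u, v, u', v'] y)
  have hX : ∀ a b : Fin 4 ⊕ Fin n, a ≠ b → (X a - X b : MvPolynomial (Fin 4 ⊕ Fin n) ℝ) ≠ 0 :=
    fun a b hab => sub_ne_zero.2 (X_injective.ne hab)
  have hprod : ∀ c : Fin 4, (∏ k, (Y k - X (Sum.inl c)) : MvPolynomial (Fin 4 ⊕ Fin n) ℝ) ≠ 0 := by
    intro c
    rw [Finset.prod_ne_zero_iff]
    intro k _
    exact hX _ _ (by simp)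
  have halt : altR Y (fun j => (j : ℕ)) ≠ 0 := by
    apply altR_idx_ne_zero
    intro a b hab
    exact Sum.inr_injective (X_injective hab)
  have hev : ∀ a b : MvPolynomial (Fin 4 ⊕ Fin n) ℝ,
      φ (aeval (Fin.cons a (Fin.cons b Y) : Fin (n + 2) → MvPolynomial (Fin 4 ⊕ Fin n) ℝ) P) =
        eval (Fin.cons (φ a) (Fin.cons (φ b) y) : Fin (n + 2) → ℝ) P := by
    intro a b
    rw [comp_aeval_apply]
    have h1 : (fun i => φ ((Fin.cons a (Fin.cons b Y) :
        Fin (n + 2) → MvPolynomial (Fin 4 ⊕ Fin n) ℝ) i)) =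
        (Fin.cons (φ a) (Fin.cons (φ b) y) : Fin (n + 2) → ℝ) := by
      funext i
      refine Fin.cases ?_ (fun i => ?_) i
      · rfl
      · refine Fin.cases ?_ (fun i => ?_) i
        · rfl
        · simp only [Fin.cons_succ, φ, Y, aeval_X, Sum.elim_inr]
    rw [h1, aeval_def, Algebra.algebraMap_self, eval₂_id]
  have h0 : φ (X (Sum.inl 0)) = u := by simp [φ]
  have h1 : φ (X (Sum.inl 1)) = v := by simp [φ]
  have h2 : φ (X (Sum.inl 2)) = u' := by simp [φ]
  have h3 : φ (X (Sum.inl 3)) = v' := by simp [φ]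
  have key := disc_gen P e hP Y (X (Sum.inl 0)) (X (Sum.inl 1)) (X (Sum.inl 2)) (X (Sum.inl 3))
    (mul_ne_zero (mul_ne_zero (mul_ne_zero (mul_ne_zero (hprod 0) (hprod 1)) (hprod 2)) (hprod 3))
      (pow_ne_zero 2 halt))
  have key2 := congrArg φ key
  simp only [map_mul, map_sub, map_add, hev, h0, h1, h2, h3] at key2
  exact key2

end SR
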