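import Pool.Agent.Helper204.SR.Defs

set_option linter.unusedSectionVars false

open MvPolynomial Finset

noncomputable section

namespace SR



/-- HINT: `Fintype.mem_piFinset`, `Fin.strictMono_iff_lt_succ`-like: cases `N`, `m j.castSucc < e (j.castSucc).succ = e (j.succ).castSucc ≤ m j.succ`. -/
theorem mem_strict (N : ℕ) (e : Fin (N + 1) → ℕ) (m : Fin N → ℕ)
    (hm : m ∈ Fintype.piFinset (fun j : Fin N => Finset.Ico (e j.castSucc) (e j.succ))) :
    StrictMono m := by
  rw [Fintype.mem_piFinset] at hm
  cases N with
  | zero => intro a; exact a.elim0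
  | succ n =>
    rw [Fin.strictMono_iff_lt_succ]
    intro j
    have h1 := hm j.castSucc
    have h2 := hm j.succ
    rw [Finset.mem_Ico] at h1 h2
    have h3 : (j.castSucc).succ = (j.succ).castSucc := by
      ext; simp
    rw [h3] at h1
    exact lt_of_lt_of_le h1.2 h2.1

end SR
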