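import Pool.Agent.Helper204.SR.Defs
import Pool.Agent.Helper204.SR.P_altR_branch
import Pool.Agent.Helper204.SR.P_altR_branch_idx
import Pool.Agent.Helper204.SR.P_mem_strict

set_option linter.unusedSectionVars false

open MvPolynomial Finset

noncomputable section

namespace SR



/-- HINT: induction on `N`. For `N + 1`: `altR_branch` and `altR_branch_idx` with `x = X` over `K = MvPolynomial (Fin (N+1)) ℝ`; for
`m` in the index set `m` is strictly monotone (`m j < e j.succ = e j'.castSucc ≤ m j'` for `j' = j+1`; `Fin.strictMono_iff_lt_succ`).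
Apply `rename Fin.succ` (a ring hom, `RingHom.map_det`/`AlgHom.map_det`, `rename_X`) to the induction hypothesis
`sp N m * altR X idx = altR X m`. -/
theorem sp_alt (N : ℕ) (e : Fin N → ℕ) (he : StrictMono e) :
    sp N e * altR (X : Fin N → MvPolynomial (Fin N) ℝ) (fun j => (j : ℕ)) = altR X e := by
  have hmap : ∀ {K L : Type} [CommRing K] [CommRing L] (f : K →+* L) {n : ℕ} (x : Fin n → K)
      (e : Fin n → ℕ), f (altR x e) = altR (fun i => f (x i)) e := by
    intro K L _ _ f n x e
    unfold altR
    rw [RingHom.map_det]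
    congr 1
    ext i j
    simp
  induction N with
  | zero =>
    unfold altR sp
    simp
  | succ N ih =>
    have h1 := altR_branch (X : Fin (N + 1) → MvPolynomial (Fin (N + 1)) ℝ) e he.monotone
    have h2 := altR_branch_idx (X : Fin (N + 1) → MvPolynomial (Fin (N + 1)) ℝ)
    rw [h1, h2]
    have h3 : ∀ m ∈ Fintype.piFinset (fun j : Fin N => Finset.Ico (e j.castSucc) (e j.succ)),
        altR (fun i : Fin N => (X i.succ : MvPolynomial (Fin (N + 1)) ℝ)) m
          = rename Fin.succ (sp N m) *
            altR (fun i : Fin N => (X i.succ : MvPolynomial (Fin (N + 1)) ℝ))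
              (fun j => (j : ℕ)) := by
      intro m hm
      have h4 := ih m (mem_strict N e m hm)
      have h5 := congrArg (rename (Fin.succ : Fin N → Fin (N + 1)) :
        MvPolynomial (Fin N) ℝ → MvPolynomial (Fin (N + 1)) ℝ) h4
      rw [map_mul] at h5
      have h6 : ∀ e' : Fin N → ℕ, rename (Fin.succ : Fin N → Fin (N + 1))
          (altR (X : Fin N → MvPolynomial (Fin N) ℝ) e')
          = altR (fun i : Fin N => (X i.succ : MvPolynomial (Fin (N + 1)) ℝ)) e' := by
        intro e'
        have := hmap (rename (Fin.succ : Fin N → Fin (N + 1)) :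
          MvPolynomial (Fin N) ℝ →ₐ[ℝ] MvPolynomial (Fin (N + 1)) ℝ).toRingHom
          (X : Fin N → MvPolynomial (Fin N) ℝ) e'
        simpa using this
      rw [h6, h6] at h5
      exact h5.symm
    unfold sp
    simp only [Finset.mul_sum, Finset.sum_mul]
    refine Finset.sum_congr rfl fun m hm => ?_
    rw [h3 m hm]
    ring

end SR
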