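import Pool.Agent.Helper204.SR.Defs
import Pool.Agent.Helper204.SR.P_mem_strict

set_option linter.unusedSectionVars false

open MvPolynomial Finset

noncomputable section

namespace SR



theorem sp_hom_le {N : ℕ} (m : Fin N → ℕ) (hm : StrictMono m) (j : Fin N) : (j : ℕ) ≤ m j := by
  obtain ⟨j, hj⟩ := j
  induction j with
  | zero => exact Nat.zero_le _
  | succ j ih =>
    have h1 := ih (by omega)
    have h2 : m ⟨j, by omega⟩ < m ⟨j + 1, hj⟩ := hm (by simp [Fin.lt_def])
    simp only at h1 ⊢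
    omega

theorem sp_hom_arith {N : ℕ} (e : Fin (N + 1) → ℕ) (d : ℕ)
    (hd : d + ∑ j : Fin (N + 1), (j : ℕ) = ∑ j, e j) (m : Fin N → ℕ)
    (hm : m ∈ Fintype.piFinset (fun j : Fin N => Finset.Ico (e j.castSucc) (e j.succ))) :
    ∃ dm : ℕ, dm + ∑ j : Fin N, (j : ℕ) = ∑ j, m j ∧
      e 0 + (∑ j : Fin N, (e j.succ - 1 - m j) + dm) = d := by
  have hs := mem_strict N e m hm
  have hle : ∑ j : Fin N, (j : ℕ) ≤ ∑ j, m j := Finset.sum_le_sum fun j _ => sp_hom_le m hs j
  refine ⟨∑ j, m j - ∑ j : Fin N, (j : ℕ), Nat.sub_add_cancel hle, ?_⟩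
  rw [Fin.sum_univ_castSucc, Fin.sum_univ_succ (fun j => e j)] at hd
  simp only [Fin.val_castSucc, Fin.val_last] at hd
  have h2 : ∑ j : Fin N, 1 = N := by simp
  have h1 : ∑ j : Fin N, (e j.succ - 1 - m j) + ∑ j, m j + ∑ j : Fin N, 1 =
      ∑ j : Fin N, e j.succ := by
    rw [← Finset.sum_add_distrib, ← Finset.sum_add_distrib]
    refine Finset.sum_congr rfl fun j _ => ?_
    have h3 := Finset.mem_Ico.mp (Fintype.mem_piFinset.mp hm j)
    omega
  omega

/-- HINT: induction on `N`. Each summand of `sp (N+1) e` is homogeneous (`IsHomogeneous.mul`, `isHomogeneous_X_pow`, `IsHomogeneous.prod`,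
`IsHomogeneous.rename_isHomogeneous`, `IsHomogeneous.sum`) of degree `e 0 + ∑ j (e j.succ - 1 - m j) + deg m` where
`deg m + ∑ j, (j:ℕ) = ∑ j, m j` by induction. Arithmetic: `∑ j (e j.succ - 1 - m j) + ∑ j m j + N = ∑ j e j.succ`, `Fin.sum_univ_succ`,
and `∑_{j : Fin (N+1)} j = ∑_{j : Fin N} j + N`. -/
theorem sp_hom (N : ℕ) (e : Fin N → ℕ) (he : StrictMono e) (d : ℕ)
    (hd : d + ∑ j : Fin N, (j : ℕ) = ∑ j, e j) : (sp N e).IsHomogeneous d := by
  induction N generalizing d with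
  | zero =>
    have h0 : d = 0 := by simpa using hd
    subst h0
    exact isHomogeneous_one _ _
  | succ N ih =>
    have hm0 : (fun j : Fin N => e j.castSucc) ∈
        Fintype.piFinset (fun j : Fin N => Finset.Ico (e j.castSucc) (e j.succ)) := by
      rw [Fintype.mem_piFinset]
      intro j
      exact Finset.mem_Ico.mpr ⟨le_refl _, he Fin.castSucc_lt_succ⟩
    obtain ⟨d0, _, hd0⟩ := sp_hom_arith e d hd _ hm0
    have hde : e 0 + (d - e 0) = d := by omega
    rw [← hde]
    unfold sp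
    apply IsHomogeneous.mul (isHomogeneous_X_pow 0 (e 0))
    apply IsHomogeneous.sum
    intro m hm
    obtain ⟨dm, h1, h2⟩ := sp_hom_arith e d hd m hm
    have h3 : d - e 0 = ∑ j : Fin N, (e j.succ - 1 - m j) + dm := by omega
    rw [h3]
    apply IsHomogeneous.mul
    · apply IsHomogeneous.prod
      intro j _
      exact isHomogeneous_X_pow _ _
    · exact (ih m (mem_strict N e m hm) dm h1).rename_isHomogeneous

end SR
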