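import Pool.Agent.Helper204.SR.Defs

set_option linter.unusedSectionVars false

open MvPolynomial Finset

noncomputable section

namespace SR



/-- HINT: unfold `sp`, `map_mul`, `map_sum`, `map_prod`, `eval_rename`. -/
theorem sp_eval_succ (N : ℕ) (e : Fin (N + 1) → ℕ) (x : Fin (N + 1) → ℝ) :
    eval x (sp (N + 1) e) = x 0 ^ (e 0) *
      ∑ m ∈ Fintype.piFinset (fun j : Fin N => Finset.Ico (e j.castSucc) (e j.succ)),
        (∏ j : Fin N, x 0 ^ (e j.succ - 1 - m j)) * eval (fun i : Fin N => x i.succ) (sp N m) := by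
  rw [sp, map_mul, map_pow, eval_X, map_sum]
  congr 1
  refine Finset.sum_congr rfl fun m _ => ?_
  rw [map_mul, map_prod, eval_rename]
  congr 1
  refine Finset.prod_congr rfl fun j _ => ?_
  rw [map_pow, eval_X]

end SR
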