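import Pool.Agent.Helper204.SR.Defs
import Pool.Agent.Helper204.SR.P_sp_eval_succ
import Pool.Agent.Helper204.SR.P_mem_strict

set_option linter.unusedSectionVars false

open MvPolynomial Finset

noncomputable section

namespace SR



/-- HINT: induction on `N`, with `sp_eval_succ` and `mem_strict`; the index set is nonempty (`fun j => e j.castSucc`) since `e` is
strictly monotone; `Finset.sum_pos`. -/
theorem sp_pos (N : ℕ) (e : Fin N → ℕ) (he : StrictMono e) (x : Fin N → ℝ) (hx : ∀ i, 0 < x i) :
    0 < eval x (sp N e) := by
  induction N with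
  | zero => simp [sp]
  | succ N ih =>
    rw [sp_eval_succ]
    apply mul_pos (pow_pos (hx 0) _)
    apply Finset.sum_pos
    · intro m hm
      apply mul_pos
      · exact Finset.prod_pos (fun j _ => pow_pos (hx 0) _)
      · exact ih m (mem_strict N e m hm) _ (fun i => hx i.succ)
    · refine ⟨fun j => e j.castSucc, ?_⟩
      rw [Fintype.mem_piFinset]
      intro j
      rw [Finset.mem_Ico]
      exact ⟨le_rfl, he (Fin.castSucc_lt_succ)⟩

end SR
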