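import Pool.Agent.Helper204.SR.Defs

set_option linter.unusedSectionVars false

open MvPolynomial Finset

noncomputable section

namespace SR



/-- HINT: induction on `P` (`MvPolynomial.induction_on`): constants, sums, products with `X k` (`pderiv_X`, `Derivation.leibniz`,
`Function.update_apply`), using `HasDerivAt.add/mul`. -/
theorem hasDeriv_update {N : ℕ} (P : MvPolynomial (Fin N) ℝ) (x : Fin N → ℝ) (i : Fin N) (t : ℝ) :
    HasDerivAt (fun s => eval (Function.update x i s) P)
      (eval (Function.update x i t) (pderiv i P)) t := by
  induction P using MvPolynomial.induction_on with
  | C a =>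
    simp only [eval_C, pderiv_C, map_zero]
    exact hasDerivAt_const t a
  | add p q hp hq =>
    simp only [map_add]
    exact hp.add hq
  | mul_X p k hp =>
    have hk : HasDerivAt (fun s : ℝ => Function.update x i s k)
        (eval (Function.update x i t) (pderiv i (X k : MvPolynomial (Fin N) ℝ))) t := by
      rw [pderiv_X]
      by_cases h : k = i
      · subst h
        simp only [Pi.single_eq_same, map_one, Function.update_self]
        exact hasDerivAt_id t
      · simp only [Function.update_of_ne h]
        rw [Pi.single_eq_of_ne h, map_zero]
        exact hasDerivAt_const t _
    have h2 := hp.mul hk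
    simp only [map_mul, eval_X, pderiv_mul, map_add]
    exact h2

end SR
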