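import Pool.Agent.Helper204.SR.Defs
import Pool.Agent.Helper204.SR.P_hasDeriv_update

set_option linter.unusedSectionVars false

open MvPolynomial Finset

noncomputable section

namespace SR



theorem pd_comm {N : ℕ} (i j : Fin N) (P : MvPolynomial (Fin N) ℝ) :
    pderiv i (pderiv j P) = pderiv j (pderiv i P) := by
  have hc : ∀ i j k : Fin N, pderiv i (pderiv j (X k : MvPolynomial (Fin N) ℝ)) = 0 := by
    intro i j k
    rw [pderiv_X, Pi.single_apply]
    split_ifs <;> simp
  induction P using MvPolynomial.induction_on with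
  | C a => simp
  | add p q hp hq => simp [hp, hq]
  | mul_X p k hp =>
    rw [pderiv_mul, pderiv_mul, map_add, map_add, pderiv_mul, pderiv_mul, pderiv_mul, pderiv_mul, hp, hc, hc]
    ring

theorem sA {n : ℕ} (P : MvPolynomial (Fin (n + 2)) ℝ)
    (hupd : ∀ (x : Fin (n + 2) → ℝ) (i : Fin (n + 2)) (t : ℝ),
      HasDerivAt (fun s => eval (Function.update x i s) P) (eval (Function.update x i t) (pderiv i P)) t)
    (y : Fin n → ℝ) (a b : ℝ) :
    HasDerivAt (fun s => eval (Fin.cons s (Fin.cons b y) : Fin (n + 2) → ℝ) P)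
      (eval (Fin.cons a (Fin.cons b y) : Fin (n + 2) → ℝ) (pderiv 0 P)) a := by
  have h := hupd (Fin.cons a (Fin.cons b y) : Fin (n + 2) → ℝ) 0 a
  have e : ∀ s, Function.update (Fin.cons a (Fin.cons b y) : Fin (n + 2) → ℝ) 0 s =
      (Fin.cons s (Fin.cons b y) : Fin (n + 2) → ℝ) := by
    intro s
    exact Fin.update_cons_zero _ _ _
  simp only [e] at h
  exact h

theorem sB {n : ℕ} (P : MvPolynomial (Fin (n + 2)) ℝ)
    (hupd : ∀ (x : Fin (n + 2) → ℝ) (i : Fin (n + 2)) (t : ℝ),
      HasDerivAt (fun s => eval (Function.update x i s) P) (eval (Function.update x i t) (pderiv i P)) t)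
    (y : Fin n → ℝ) (a b : ℝ) :
    HasDerivAt (fun s => eval (Fin.cons a (Fin.cons s y) : Fin (n + 2) → ℝ) P)
      (eval (Fin.cons a (Fin.cons b y) : Fin (n + 2) → ℝ) (pderiv 1 P)) b := by
  have h := hupd (Fin.cons a (Fin.cons b y) : Fin (n + 2) → ℝ) 1 b
  have e : ∀ s, Function.update (Fin.cons a (Fin.cons b y) : Fin (n + 2) → ℝ) 1 s =
      (Fin.cons a (Fin.cons s y) : Fin (n + 2) → ℝ) := by
    intro s
    have e1 : (1 : Fin (n + 2)) = Fin.succ 0 := rfl
    rw [e1, ← Fin.cons_update, Fin.update_cons_zero]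
  simp only [e] at h
  exact h

/-- HINT: write `S a b := eval (cons a (cons b y)) P`, `S1` for `pderiv 0 P`, `S2` for `pderiv 1 P`, `S12` for `pderiv 0 (pderiv 1 P)`.
`hasDeriv_update` gives `d/da S a b = S1 a b`, `d/db S a b = S2 a b` etc. (`Function.update (cons a (cons b y)) 0 s = cons s (cons b y)`,
`Fin.update_cons_zero`, similarly for index `1`). `disc` holds for all `u'`, `v'`. Differentiate both sides in `u'` at `u' = u`
(uniqueness of derivatives `HasDerivAt.unique`): for all `v'`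
`(v-u) S(u,v) (-(S(u,v')) + (v'-u) S1(u,v')) = (-(S(u,v)) + (v-u) S1(u,v)) (v'-u) S(u,v') + S(u,u) (v'-v) S(v,v')`.
Then differentiate in `v'` at `v' = v`:
`(v-u) S (-S2 + S1 + (v-u) S12) = (-S + (v-u) S1)(S + (v-u) S2) + S(u,u) S(v,v)`. Rearranged this is the claim (`linear_combination`);
`pderiv` commute if needed (`pderiv 1 (pderiv 0 P) = pderiv 0 (pderiv 1 P)`: `MvPolynomial.pderiv_pderiv`-like lemma or prove by
`MvPolynomial.induction_on`). -/
theorem star01 {n : ℕ} (P : MvPolynomial (Fin (n + 2)) ℝ)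
    (disc : ∀ (y : Fin n → ℝ) (u v u' v' : ℝ),
    (v - u) * (v' - u') * (eval (Fin.cons u (Fin.cons v y) : Fin (n + 2) → ℝ) P *
        eval (Fin.cons u' (Fin.cons v' y) : Fin (n + 2) → ℝ) P) =
      (v - u') * (v' - u) * (eval (Fin.cons u' (Fin.cons v y) : Fin (n + 2) → ℝ) P *
        eval (Fin.cons u (Fin.cons v' y) : Fin (n + 2) → ℝ) P) +
      (u' - u) * (v' - v) * (eval (Fin.cons u (Fin.cons u' y) : Fin (n + 2) → ℝ) P *
        eval (Fin.cons v (Fin.cons v' y) : Fin (n + 2) → ℝ) P))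
    (y : Fin n → ℝ) (u v : ℝ) :
    (u - v) ^ 2 * (eval (Fin.cons u (Fin.cons v y) : Fin (n + 2) → ℝ) P *
        eval (Fin.cons u (Fin.cons v y) : Fin (n + 2) → ℝ) (pderiv 0 (pderiv 1 P)) -
        eval (Fin.cons u (Fin.cons v y) : Fin (n + 2) → ℝ) (pderiv 0 P) *
        eval (Fin.cons u (Fin.cons v y) : Fin (n + 2) → ℝ) (pderiv 1 P)) =
      eval (Fin.cons u (Fin.cons u y) : Fin (n + 2) → ℝ) P *
        eval (Fin.cons v (Fin.cons v y) : Fin (n + 2) → ℝ) P -
        (eval (Fin.cons u (Fin.cons v y) : Fin (n + 2) → ℝ) P) ^ 2 := by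
  have dA := fun a b => sA P (hasDeriv_update P) y a b
  have dB := fun a b => sB P (hasDeriv_update P) y a b
  have dAB := fun a b => sB (pderiv 0 P) (hasDeriv_update (pderiv 0 P)) y a b
  rw [pd_comm 0 1 P]
  set S : ℝ → ℝ → ℝ := fun a b => eval (Fin.cons a (Fin.cons b y) : Fin (n + 2) → ℝ) P with hS
  set S1 : ℝ → ℝ → ℝ := fun a b => eval (Fin.cons a (Fin.cons b y) : Fin (n + 2) → ℝ) (pderiv 0 P) with hS1
  set S2 : ℝ → ℝ → ℝ := fun a b => eval (Fin.cons a (Fin.cons b y) : Fin (n + 2) → ℝ) (pderiv 1 P) with hS2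
  set S12 : ℝ → ℝ → ℝ := fun a b => eval (Fin.cons a (Fin.cons b y) : Fin (n + 2) → ℝ)
    (pderiv 1 (pderiv 0 P)) with hS12
  have DA : ∀ a b, HasDerivAt (fun s => S s b) (S1 a b) a := dA
  have DB : ∀ a b, HasDerivAt (fun s => S a s) (S2 a b) b := dB
  have DAB : ∀ a b, HasDerivAt (fun s => S1 a s) (S12 a b) b := dAB
  have disc' : ∀ u v u' v' : ℝ, (v - u) * (v' - u') * (S u v * S u' v') =
      (v - u') * (v' - u) * (S u' v * S u v') + (u' - u) * (v' - v) * (S u u' * S v v') :=
    fun u v u' v' => disc y u v u' v'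
  have step1 : ∀ v' : ℝ, (v - u) * S u v * (-(S u v') + (v' - u) * S1 u v') =
      (-(S u v) + (v - u) * S1 u v) * ((v' - u) * S u v') + S u u * ((v' - v) * S v v') := by
    intro v'
    have h1 := (((hasDerivAt_id u).const_sub v').const_mul (v - u)).mul ((DA u v').const_mul (S u v))
    have h2 := ((((hasDerivAt_id u).const_sub v).mul_const (v' - u)).mul ((DA u v).mul_const (S u v'))).add
      ((((hasDerivAt_id u).sub_const u).mul_const (v' - v)).mul ((DB u u).mul_const (S v v')))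
    have hf : (fun t : ℝ => (v - u) * (v' - t) * (S u v * S t v')) =
        fun t : ℝ => (v - t) * (v' - u) * (S t v * S u v') + (t - u) * (v' - v) * (S u t * S v v') :=
      funext fun t => disc' u v t v'
    have h1' : HasDerivAt (fun t : ℝ => (v - u) * (v' - t) * (S u v * S t v')) _ u := h1
    have h2' : HasDerivAt (fun t : ℝ => (v - t) * (v' - u) * (S t v * S u v') +
      (t - u) * (v' - v) * (S u t * S v v')) _ u := h2
    rw [hf] at h1'
    have h3 := h1'.unique h2'
    simp only [id] at h3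
    linear_combination h3
  have h1 : HasDerivAt (fun v' : ℝ => (v - u) * S u v * (-(S u v') + (v' - u) * S1 u v')) _ v :=
    ((DB u v).neg.add (((hasDerivAt_id v).sub_const u).mul (DAB u v))).const_mul ((v - u) * S u v)
  have h2 : HasDerivAt (fun v' : ℝ => (-(S u v) + (v - u) * S1 u v) * ((v' - u) * S u v') +
      S u u * ((v' - v) * S v v')) _ v :=
    ((((hasDerivAt_id v).sub_const u).mul (DB u v)).const_mul (-(S u v) + (v - u) * S1 u v)).add
      ((((hasDerivAt_id v).sub_const v).mul (DB v v)).const_mul (S u u))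
  rw [funext step1] at h1
  have h3 := h1.unique h2
  simp only [id] at h3
  show (u - v) ^ 2 * (S u v * S12 u v - S1 u v * S2 u v) = S u u * S v v - S u v ^ 2
  linear_combination h3

end SR
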