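import Pool.Agent.Helper204.SR.Defs

set_option linter.unusedSectionVars false

open MvPolynomial Finset

noncomputable section

namespace SR



/-- HINT: `i ≠ j` in `Fin N` forces `N = n + 2` (`obtain`, `subst`). Take a permutation `σ` with `σ 0 = i`, `σ 1 = j`. Since `rename σ P = P`,
`pderiv (σ k) P = pderiv (σ k) (rename σ P) = rename σ (pderiv k P)` (`pderiv_rename`, `σ` injective), so all evaluations at `x` are
evaluations at `x ∘ σ` (`eval_rename`), and `x ∘ σ = Fin.cons (x i) (Fin.cons (x j) y)` with `y k = x (σ k.succ.succ)`;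
`update x j (x i) ∘ σ = cons (x i) (cons (x i) y)`, `update x i (x j) ∘ σ = cons (x j) (cons (x j) y)`. Apply `h01`. -/
theorem star_gen {N : ℕ} (P : MvPolynomial (Fin N) ℝ)
    (hs : ∀ σ : Equiv.Perm (Fin N), rename σ P = P)
    (h01 : ∀ (n : ℕ) (hn : N = n + 2) (y : Fin n → ℝ) (u v : ℝ),
      (u - v) ^ 2 * (eval (Fin.cons u (Fin.cons v y) : Fin (n + 2) → ℝ) (hn ▸ P) *
        eval (Fin.cons u (Fin.cons v y) : Fin (n + 2) → ℝ) (pderiv 0 (pderiv 1 (hn ▸ P))) -
        eval (Fin.cons u (Fin.cons v y) : Fin (n + 2) → ℝ) (pderiv 0 (hn ▸ P)) *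
        eval (Fin.cons u (Fin.cons v y) : Fin (n + 2) → ℝ) (pderiv 1 (hn ▸ P))) =
      eval (Fin.cons u (Fin.cons u y) : Fin (n + 2) → ℝ) (hn ▸ P) *
        eval (Fin.cons v (Fin.cons v y) : Fin (n + 2) → ℝ) (hn ▸ P) -
        (eval (Fin.cons u (Fin.cons v y) : Fin (n + 2) → ℝ) (hn ▸ P)) ^ 2)
    (x : Fin N → ℝ) (i j : Fin N) (hij : i ≠ j) :
    (x i - x j) ^ 2 * (eval x P * eval x (pderiv i (pderiv j P)) -
        eval x (pderiv i P) * eval x (pderiv j P)) =
      eval (Function.update x j (x i)) P * eval (Function.update x i (x j)) P - (eval x P) ^ 2 := by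
  obtain ⟨n, rfl⟩ : ∃ n, N = n + 2 := by
    have hi := i.isLt
    have hj := j.isLt
    have hne : (i : ℕ) ≠ (j : ℕ) := fun h => hij (Fin.ext h)
    exact ⟨N - 2, by omega⟩
  have h01' := h01 n rfl
  simp only at h01'
  obtain ⟨σ, hσ0, hσ1⟩ : ∃ σ : Equiv.Perm (Fin (n + 2)), σ 0 = i ∧ σ 1 = j := by
    have hne : Equiv.swap 0 i j ≠ 0 := by
      intro h
      have h2 : Equiv.swap 0 i j = Equiv.swap 0 i i := by rw [h, Equiv.swap_apply_right]
      exact hij ((Equiv.swap 0 i).injective h2).symm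
    refine ⟨Equiv.swap 0 i * Equiv.swap 1 (Equiv.swap 0 i j), ?_, ?_⟩
    · rw [Equiv.Perm.mul_apply, Equiv.swap_apply_of_ne_of_ne (by simp) hne.symm,
        Equiv.swap_apply_left]
    · rw [Equiv.Perm.mul_apply, Equiv.swap_apply_left, Equiv.swap_apply_self]
  have hP : rename σ P = P := hs σ
  have hinj : Function.Injective (σ : Fin (n + 2) → Fin (n + 2)) := σ.injective
  have e0 : ∀ z : Fin (n + 2) → ℝ, eval z P = eval (z ∘ σ) P := by
    intro z
    conv_lhs => rw [← hP, eval_rename]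
  have e1 : eval x (pderiv i P) = eval (x ∘ σ) (pderiv 0 P) := by
    have h : pderiv i P = rename σ (pderiv 0 P) := by
      rw [← pderiv_rename hinj, hP, hσ0]
    rw [h, eval_rename]
  have e2 : eval x (pderiv j P) = eval (x ∘ σ) (pderiv 1 P) := by
    have h : pderiv j P = rename σ (pderiv 1 P) := by
      rw [← pderiv_rename hinj, hP, hσ1]
    rw [h, eval_rename]
  have e3 : eval x (pderiv i (pderiv j P)) = eval (x ∘ σ) (pderiv 0 (pderiv 1 P)) := by
    have h : pderiv i (pderiv j P) = rename σ (pderiv 0 (pderiv 1 P)) := by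
      rw [← pderiv_rename hinj, ← pderiv_rename hinj, hP, hσ0, hσ1]
    rw [h, eval_rename]
  have hx : x ∘ σ = (Fin.cons (x i) (Fin.cons (x j) (fun k : Fin n => x (σ k.succ.succ))) :
      Fin (n + 2) → ℝ) := by
    funext k
    refine Fin.cases ?_ (fun k => ?_) k
    · simp [hσ0]
    · refine Fin.cases ?_ (fun k => ?_) k
      · simp [hσ1]
      · simp
  have hne0 : ∀ k : Fin n, σ k.succ.succ ≠ i := by
    intro k h
    rw [← hσ0] at h
    exact absurd (hinj h) (Fin.succ_ne_zero _)
  have hne1 : ∀ k : Fin n, σ k.succ.succ ≠ j := by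
    intro k h
    rw [← hσ1] at h
    have h2 := hinj h
    have h3 := congrArg Fin.val h2
    simp at h3
  have hu : Function.update x j (x i) ∘ σ =
      (Fin.cons (x i) (Fin.cons (x i) (fun k : Fin n => x (σ k.succ.succ))) :
      Fin (n + 2) → ℝ) := by
    funext k
    refine Fin.cases ?_ (fun k => ?_) k
    · simp [hσ0, Function.update_of_ne hij]
    · refine Fin.cases ?_ (fun k => ?_) k
      · simp [hσ1]
      · simp [Function.update_of_ne (hne1 k)]
  have hv : Function.update x i (x j) ∘ σ =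
      (Fin.cons (x j) (Fin.cons (x j) (fun k : Fin n => x (σ k.succ.succ))) :
      Fin (n + 2) → ℝ) := by
    funext k
    refine Fin.cases ?_ (fun k => ?_) k
    · simp [hσ0]
    · refine Fin.cases ?_ (fun k => ?_) k
      · simp [hσ1, Function.update_of_ne hij.symm]
      · simp [Function.update_of_ne (hne0 k)]
  rw [e1, e2, e3, e0 x, e0 (Function.update x j (x i)), e0 (Function.update x i (x j)), hx, hu, hv]
  exact h01' _ _ _

end SR
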