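import Pool.Agent.Helper204.SR.Defs
import Pool.Agent.Helper204.SR.P_altR_idx_ne_zero

set_option linter.unusedSectionVars false

open MvPolynomial Finset

noncomputable section

namespace SR



theorem symm_of_alt_aux {N : ℕ} (e : Fin N → ℕ) (σ : Equiv.Perm (Fin N)) :
    rename σ (altR (X : Fin N → MvPolynomial (Fin N) ℝ) e) =
      ((Equiv.Perm.sign σ : ℤ) : MvPolynomial (Fin N) ℝ) * altR X e := by
  unfold altR
  rw [AlgHom.map_det]
  rw [← Matrix.det_permute σ]
  congr 1
  ext i j
  simp [Matrix.submatrix]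

/-- HINT: it suffices that `rename σ P = P` (then `eval x (rename σ P) = eval (x ∘ σ) P`, `eval_rename`). Apply the ring hom `rename σ` to
`hP`: `rename σ (altR X e) = altR (X ∘ σ) e = sign σ * altR X e` (`AlgHom.map_det`/`RingHom.map_det`, `Matrix.det_permute`), the same for the
Vandermonde. So `rename σ P * V = P * V` up to the common unit sign and `V ≠ 0` (`altR_idx_ne_zero`, `X` injective) can be cancelled. -/
theorem symm_of_alt {N : ℕ} (P : MvPolynomial (Fin N) ℝ) (e : Fin N → ℕ)
    (hP : P * altR (X : Fin N → MvPolynomial (Fin N) ℝ) (fun j => (j : ℕ)) = altR X e)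
    (σ : Equiv.Perm (Fin N)) : rename σ P = P := by
  have h1 := congrArg (rename σ) hP
  rw [map_mul, symm_of_alt_aux, symm_of_alt_aux, ← hP] at h1
  have hV : altR (X : Fin N → MvPolynomial (Fin N) ℝ) (fun j => (j : ℕ)) ≠ 0 :=
    altR_idx_ne_zero X (MvPolynomial.X_injective)
  have hs : ((Equiv.Perm.sign σ : ℤ) : MvPolynomial (Fin N) ℝ) ≠ 0 := by
    rcases Int.units_eq_one_or (Equiv.Perm.sign σ) with h | h <;> rw [h] <;> simp
  have h2 : rename σ P * (((Equiv.Perm.sign σ : ℤ) : MvPolynomial (Fin N) ℝ) *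
      altR (X : Fin N → MvPolynomial (Fin N) ℝ) (fun j => (j : ℕ))) =
      P * (((Equiv.Perm.sign σ : ℤ) : MvPolynomial (Fin N) ℝ) *
      altR (X : Fin N → MvPolynomial (Fin N) ℝ) (fun j => (j : ℕ))) := by
    rw [h1]; ring
  exact mul_right_cancel₀ (mul_ne_zero hs hV) h2

end SR
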