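import Pool.Agent.Helper204.SR.Defs
import Pool.Agent.Helper204.SR.P_sp_alt
import Pool.Agent.Helper204.SR.P_sp_pos
import Pool.Agent.Helper204.SR.P_sp_hom
import Pool.Agent.Helper204.SR.P_symm_of_alt
import Pool.Agent.Helper204.SR.P_disc
import Pool.Agent.Helper204.SR.P_star01
import Pool.Agent.Helper204.SR.P_star_gen

set_option linter.unusedSectionVars false

open MvPolynomial Finset

noncomputable section

namespace SR



/-- HINT: `sp_pos`, `sp_hom`, `symm_of_alt` with `sp_alt` (`eval (x ∘ σ) P = eval x (rename σ P) = eval x P`), `star_gen` with `star01` and `disc`. -/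
theorem good_sp (N : ℕ) (e : Fin N → ℕ) (he : StrictMono e) (d : ℕ)
    (hd : d + ∑ j : Fin N, (j : ℕ) = ∑ j, e j) : Good (sp N e) d := by
  have hs : ∀ σ : Equiv.Perm (Fin N), rename σ (sp N e) = sp N e :=
    fun σ => symm_of_alt (sp N e) e (sp_alt N e he) σ
  refine ⟨fun x hx => sp_pos N e he x hx, sp_hom N e he d hd, ?_, ?_⟩
  · intro σ x
    rw [← eval_rename, hs σ]
  · intro x i j hij
    refine star_gen (sp N e) hs ?_ x i j hij
    intro n hn y u v
    subst hn
    exact star01 (sp (n + 2) e) (disc (sp (n + 2) e) e (sp_alt (n + 2) e he)) y u v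

end SR
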