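import Pool.Agent.Helper204.SR.Defs
import Pool.Agent.Helper204.SR.Defs2

set_option linter.unusedSectionVars false

open MvPolynomial Finset

noncomputable section

namespace SR



/-- HINT: `sInf`, `sSup` of a bounded nonempty ord-connected set with two different points: `exists_lt_of_csInf_lt`, `exists_lt_of_lt_csSup`, `csInf_le`, `le_csSup`. -/
theorem interval_bdd (I : Set ℝ) (hI : I.OrdConnected) (hpos : I ⊆ Set.Ioi 0) (h1 : (1 : ℝ) ∈ I)
    (hlen : I.Nontrivial) (hb : BddAbove I) :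
    sInf I < sSup I ∧ Set.Ioo (sInf I) (sSup I) ⊆ I ∧ I ⊆ Set.Icc (sInf I) (sSup I) ∧
      sInf I ≤ 1 ∧ 1 ≤ sSup I := by
  have hbb : BddBelow I := ⟨0, fun x hx => (hpos hx).le⟩
  have hIcc : I ⊆ Set.Icc (sInf I) (sSup I) := fun x hx => ⟨csInf_le hbb hx, le_csSup hb hx⟩
  refine ⟨?_, ?_, hIcc, csInf_le hbb h1, le_csSup hb h1⟩
  · obtain ⟨x, hx, y, hy, hxy⟩ := hlen
    rcases lt_or_gt_of_ne hxy with h | h
    · exact lt_of_le_of_lt (csInf_le hbb hx) (lt_of_lt_of_le h (le_csSup hb hy))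
    · exact lt_of_le_of_lt (csInf_le hbb hy) (lt_of_lt_of_le h (le_csSup hb hx))
  · intro x hx
    obtain ⟨u, hu, hux⟩ := exists_lt_of_csInf_lt ⟨1, h1⟩ hx.1
    obtain ⟨v, hv, hxv⟩ := exists_lt_of_lt_csSup ⟨1, h1⟩ hx.2
    exact hI.out hu hv ⟨hux.le, hxv.le⟩

end SR
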