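import Pool.Agent.Helper204.SR.Defs
import Pool.Agent.Helper204.SR.Defs2

set_option linter.unusedSectionVars false

open MvPolynomial Finset

noncomputable section

namespace SR



/-- HINT: the matrix of `alternant l` is the matrix of `altR X (expo l)` with columns permuted by `Fin.revPerm` (`(Fin.rev j : ℕ) = N - 1 - j`):
`Matrix.det_permute'` (column permutation multiplies the determinant by the sign); the same for `vandermonde N` (with `l = 0`). Cancel the sign (a unit `±1`). -/
theorem alternant_rev {N : ℕ} (l : Fin N → ℕ) (P : MvPolynomial (Fin N) ℝ) :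
    P * vandermonde N = alternant l ↔
      P * altR (X : Fin N → MvPolynomial (Fin N) ℝ) (fun j => (j : ℕ)) = altR X (expo l) := by
  have hrev : ∀ (j : Fin N), N - 1 - ((Fin.rev j : Fin N) : ℕ) = (j : ℕ) := by
    intro j
    have h1 := Fin.val_rev j
    have h2 := j.isLt
    omega
  have key : ∀ (e f : Fin N → ℕ), (∀ j, f j = e (Fin.rev j)) →
      altR (X : Fin N → MvPolynomial (Fin N) ℝ) f =
        ((Equiv.Perm.sign (Fin.revPerm : Equiv.Perm (Fin N)) : ℤˣ) : MvPolynomial (Fin N) ℝ) *
          altR (X : Fin N → MvPolynomial (Fin N) ℝ) e := by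
    intro e f hef
    have := Matrix.det_permute' (Fin.revPerm : Equiv.Perm (Fin N))
      (Matrix.of fun i j : Fin N => (X i : MvPolynomial (Fin N) ℝ) ^ e j)
    unfold altR
    rw [← this]
    congr 1
    ext1 i j
    simp [Matrix.submatrix, hef j, Fin.revPerm]
  have hv : altR (X : Fin N → MvPolynomial (Fin N) ℝ) (fun j => (j : ℕ)) =
        ((Equiv.Perm.sign (Fin.revPerm : Equiv.Perm (Fin N)) : ℤˣ) : MvPolynomial (Fin N) ℝ) *
          vandermonde N := by
    have := key (fun j => N - 1 - (j : ℕ)) (fun j => (j : ℕ)) (fun j => (hrev j).symm)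
    rw [this]
    rfl
  have ha : altR (X : Fin N → MvPolynomial (Fin N) ℝ) (expo l) =
        ((Equiv.Perm.sign (Fin.revPerm : Equiv.Perm (Fin N)) : ℤˣ) : MvPolynomial (Fin N) ℝ) *
          alternant l := by
    have := key (fun j => l j + (N - 1 - (j : ℕ))) (expo l) (fun j => by
      simp only [expo]
      rw [hrev j])
    rw [this]
    rfl
  rw [hv, ha]
  rcases Int.units_eq_one_or (Equiv.Perm.sign (Fin.revPerm : Equiv.Perm (Fin N))) with h | h
  · rw [h]; simp
  · rw [h]; simp

end SR
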