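import Pool.Agent.Helper204.SR.Defs
import Pool.Agent.Helper204.SR.Defs2
import Pool.Agent.Helper204.SR.P_expo_strict
import Pool.Agent.Helper204.SR.P_alternant_rev
import Pool.Agent.Helper204.SR.P_altR_idx_ne_zero
import Pool.Agent.Helper204.SR.P_sp_alt

set_option linter.unusedSectionVars false

open MvPolynomial Finset

noncomputable section

namespace SR



/-- HINT: `alternant_rev`, `sp_alt`, `expo_strict`: existence; uniqueness by cancelling `altR X idx ≠ 0` (`altR_idx_ne_zero`, `X` injective);
`Classical.epsilon_spec`. -/
theorem schur_eq {N : ℕ} (l : Fin N → ℕ) (hl : Antitone l) :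
    schur l = sp N (expo l) ∧ schur l * vandermonde N = alternant l ∧
      ∀ P : MvPolynomial (Fin N) ℝ, P * vandermonde N = alternant l → P = schur l := by
  have hsp : sp N (expo l) * vandermonde N = alternant l :=
    (alternant_rev l _).2 (sp_alt N (expo l) (expo_strict l hl))
  have hsch : schur l * vandermonde N = alternant l :=
    Classical.epsilon_spec (p := fun P : MvPolynomial (Fin N) ℝ => P * vandermonde N = alternant l)
      ⟨_, hsp⟩
  have hne : altR (X : Fin N → MvPolynomial (Fin N) ℝ) (fun j => (j : ℕ)) ≠ 0 :=
    altR_idx_ne_zero _ (MvPolynomial.X_injective)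
  have huniq : ∀ P : MvPolynomial (Fin N) ℝ, P * vandermonde N = alternant l → P = schur l := by
    intro P hP
    have h1 := (alternant_rev l P).1 hP
    have h2 := (alternant_rev l (schur l)).1 hsch
    exact mul_right_cancel₀ hne (h1.trans h2.symm)
  exact ⟨(huniq _ hsp).symm, hsch, huniq⟩

end SR
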