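import Pool.Agent.Helper204.SR.Defs
import Pool.Agent.Helper204.SR.Defs2
import Pool.Agent.Helper204.SR.P_schur_eq

set_option linter.unusedSectionVars false

open MvPolynomial Finset

noncomputable section

namespace SR



/-- HINT: `schur_eq` (first component) for `l` and `m`, unfold. -/
theorem min_iff {N : ℕ} (l m : Fin N → ℕ) (hl : Antitone l) (hm : Antitone m) (I : Set ℝ) :
    (MinimizedAtOne l m I ↔ minOn (sp N (expo l)) (sp N (expo m)) I) ∧
      ∀ x : Fin N → ℝ, ratio l m x = rat (sp N (expo l)) (sp N (expo m)) x := by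
  have hr : ∀ x : Fin N → ℝ, ratio l m x = rat (sp N (expo l)) (sp N (expo m)) x := by
    intro x
    unfold ratio rat
    rw [(schur_eq l hl).1, (schur_eq m hm).1]
  refine ⟨?_, hr⟩
  unfold MinimizedAtOne minOn
  simp only [hr, ge_iff_le]

end SR
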