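import Pool.Agent.Helper204.SR.Defs2
import Pool.Agent.Helper204.SR.P_expo_strict
import Pool.Agent.Helper204.SR.P_interval_bdd
import Pool.Agent.Helper204.SR.P_T1
import Pool.Agent.Helper204.SR.P_T1b
import Pool.Agent.Helper204.SR.P_good_sp
import Pool.Agent.Helper204.SR.P_min_iff

set_option linter.unusedSectionVars false

open MvPolynomial Finset

noncomputable section

namespace SR

theorem F1 {N : ℕ} (l m : Fin N → ℕ) (hl : Antitone l) (hm : Antitone m) (I : Set ℝ)
    (hI : I.OrdConnected) (hpos : I ⊆ Set.Ioi 0) (h1 : (1 : ℝ) ∈ I) (hlen : I.Nontrivial)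
    (h0 : 0 < sInf I) (hb : BddAbove I) :
    (MinimizedAtOne l m I ↔
      ∀ k ≤ N, ratio l m (corner (sInf I) (sSup I) k) ≥ ratio l m (fun _ => 1)) ∧
    (sInf I < 1 → 1 < sSup I → (MinimizedAtOne l m I ↔ ∑ i, l i = ∑ i, m i ∧
      ∀ k, 1 ≤ k → k < N → ratio l m (corner 1 (sSup I / sInf I) k) ≥ ratio l m (fun _ => 1))) := by
  obtain ⟨hab, hI1, hI2, ha1, hb1⟩ := interval_bdd I hI hpos h1 hlen hb
  have hexp : ∀ r : Fin N → ℕ, (∑ i, r i) + ∑ j : Fin N, (j : ℕ) = ∑ j, expo r j := by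
    intro r
    unfold expo
    rw [Finset.sum_add_distrib]
    congr 1
    exact (Equiv.sum_comp Fin.revPerm r).symm
  have hP := good_sp N (expo l) (expo_strict l hl) (∑ i, l i) (hexp l)
  have hQ := good_sp N (expo m) (expo_strict m hm) (∑ i, m i) (hexp m)
  obtain ⟨hmin, hrat⟩ := min_iff l m hl hm I
  refine ⟨?_, fun h2 h3 => ?_⟩
  · rw [hmin, T1 _ _ _ _ hP hQ _ _ h0 hab I hI1 hI2]
    constructor
    · intro h k hk
      have := h k hk
      rw [ge_iff_le, hrat, hrat]
      exact this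
    · intro h k hk
      have := h k hk
      rw [ge_iff_le, hrat, hrat] at this
      exact this
  · rw [hmin, T1b _ _ _ _ hP hQ _ _ h0 h2 h3 I hI1 hI2]
    constructor
    · rintro ⟨h, h'⟩
      refine ⟨h, fun k hk hk' => ?_⟩
      have := h' k hk hk'
      rw [ge_iff_le, hrat, hrat]
      exact this
    · rintro ⟨h, h'⟩
      refine ⟨h, fun k hk hk' => ?_⟩
      have := h' k hk hk'
      rw [ge_iff_le, hrat, hrat] at this
      exact this

end SR
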