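import Pool.Agent.Helper204.SR.Defs
import Pool.Agent.Helper204.SR.P_sp_eval_succ
import Pool.Agent.Helper204.SR.P_mem_strict
import Pool.Agent.Helper204.SR.P_sp_pos
import Pool.Agent.Helper204.SR.P_sp_hom

set_option linter.unusedSectionVars false

open MvPolynomial Finset

noncomputable section

namespace SR



theorem sp_lower_aux_sum {N : ℕ} (e : Fin (N + 1) → ℕ) (he : StrictMono e) (x : Fin (N + 1) → ℝ)
    (hx : ∀ i, 0 < x i) (h0 : x 0 = 1) (m0 : Fin N → ℕ)
    (hm0 : m0 ∈ Fintype.piFinset (fun j : Fin N => Finset.Ico (e j.castSucc) (e j.succ))) :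
    eval (fun i : Fin N => x i.succ) (sp N m0) ≤ eval x (sp (N + 1) e) := by
  rw [sp_eval_succ, h0, one_pow, one_mul]
  have h1 : ∀ m ∈ Fintype.piFinset (fun j : Fin N => Finset.Ico (e j.castSucc) (e j.succ)),
      0 ≤ (∏ j : Fin N, (1 : ℝ) ^ (e j.succ - 1 - m j)) * eval (fun i : Fin N => x i.succ) (sp N m) := by
    intro m hm
    have := sp_pos N m (mem_strict N e m hm) (fun i : Fin N => x i.succ) (fun i => hx _)
    simp only [one_pow, Finset.prod_const_one, one_mul]
    exact this.le
  have h2 := Finset.single_le_sum h1 hm0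
  simpa only [one_pow, Finset.prod_const_one, one_mul] using h2

theorem sp_lower_aux_mem {N : ℕ} (e : Fin (N + 1) → ℕ) (he : StrictMono e) :
    (fun j : Fin N => e j.succ - 1) ∈ Fintype.piFinset (fun j : Fin N => Finset.Ico (e j.castSucc) (e j.succ)) := by
  rw [Fintype.mem_piFinset]
  intro j
  have h : e j.castSucc < e j.succ := he Fin.castSucc_lt_succ
  rw [Finset.mem_Ico]
  omega

theorem sp_lower_one (N : ℕ) : ∀ (e : Fin N → ℕ), StrictMono e →
    1 ≤ eval (fun _ => (1 : ℝ)) (sp N e) := by
  induction N with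
  | zero => intro e _; simp [sp]
  | succ N ih =>
    intro e he
    have hm := sp_lower_aux_mem e he
    have h1 := sp_lower_aux_sum e he (fun _ => (1 : ℝ)) (fun _ => one_pos) rfl _ hm
    exact (ih _ (mem_strict N e _ hm)).trans h1

theorem sp_lower_le {N : ℕ} (e : Fin N → ℕ) (he : StrictMono e) (j : Fin N) : (j : ℕ) ≤ e j := by
  cases N with
  | zero => exact j.elim0
  | succ N =>
    induction j using Fin.induction with
    | zero => simp
    | succ j ih =>
      have h : e j.castSucc < e j.succ := he Fin.castSucc_lt_succ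
      have h2 : ((j.castSucc : Fin (N + 1)) : ℕ) = j := rfl
      have h3 : ((j.succ : Fin (N + 1)) : ℕ) = j + 1 := rfl
      omega

theorem sp_lower_hom {N : ℕ} (P : MvPolynomial (Fin N) ℝ) (d : ℕ) (hP : P.IsHomogeneous d) (β : ℝ) :
    eval (fun _ => β) P = β ^ d * eval (fun _ => (1 : ℝ)) P := by
  rw [eval_eq', eval_eq', Finset.mul_sum]
  refine Finset.sum_congr rfl fun s hs => ?_
  have h := hP (mem_support_iff.mp hs)
  rw [Finset.prod_pow_eq_pow_sum]
  have h2 : ∑ i, s i = d := by
    rw [← h, Finsupp.weight_apply, Finsupp.sum_fintype]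
    · simp
    · simp
  rw [h2]
  simp
  ring

theorem sp_lower_tsum {N : ℕ} (k : ℕ) (hk : k ≤ N) (e : Fin (N + 1) → ℕ) :
    tsum k e = ∑ j with N ≤ (j : Fin N).val + k, e j.succ := by
  unfold tsum
  rw [Finset.sum_filter, Finset.sum_filter, Fin.sum_univ_succ]
  have h0 : ¬ (N + 1 ≤ ((0 : Fin (N + 1)) : ℕ) + k) := by
    simp; omega
  rw [if_neg h0, zero_add]
  refine Finset.sum_congr rfl fun j _ => ?_
  have h1 : ((j.succ : Fin (N + 1)) : ℕ) = j + 1 := rfl
  by_cases h : N ≤ (j : ℕ) + k
  · rw [if_pos h, if_pos (by omega)]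
  · rw [if_neg h, if_neg (by omega)]

theorem sp_lower_main (N : ℕ) (β : ℝ) (hβ : 1 ≤ β) : ∀ (e : Fin N → ℕ) (_ : StrictMono e) (k : ℕ) (_ : k ≤ N),
    β ^ (tsum k e) ≤ eval (cor 1 β k) (sp N e) * β ^ (tsum k (fun j : Fin N => (j : ℕ))) := by
  induction N with
  | zero =>
    intro e he k hk
    simp [tsum, sp]
  | succ N ih =>
    intro e he k hk
    have hβ0 : 0 < β := lt_of_lt_of_le one_pos hβ
    rcases Nat.lt_or_ge N k with hk2 | hk2
    · have hk3 : k = N + 1 := by omega
      subst hk3
      have hc : (cor 1 β (N + 1) : Fin (N + 1) → ℝ) = fun _ => β := by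
        funext j
        unfold cor
        rw [if_neg (by omega)]
      have ht : ∀ f : Fin (N + 1) → ℕ, tsum (N + 1) f = ∑ j, f j := by
        intro f
        unfold tsum
        rw [Finset.filter_true_of_mem]
        intro j _
        omega
      have hle : ∑ j : Fin (N + 1), (j : ℕ) ≤ ∑ j, e j :=
        Finset.sum_le_sum fun j _ => sp_lower_le e he j
      obtain ⟨d, hd⟩ := Nat.exists_eq_add_of_le' hle
      have hh := sp_hom (N + 1) e he d hd.symm
      rw [hc, ht, ht, sp_lower_hom _ d hh β, hd, pow_add]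
      have h1 := sp_lower_one (N + 1) e he
      have h2 : 0 < β ^ d := pow_pos hβ0 _
      have h3 : 0 < β ^ (∑ j : Fin (N + 1), (j : ℕ)) := pow_pos hβ0 _
      have h4 : β ^ d * 1 ≤ β ^ d * eval (fun _ => (1 : ℝ)) (sp (N + 1) e) :=
        mul_le_mul_of_nonneg_left h1 h2.le
      have h5 := mul_le_mul_of_nonneg_right h4 h3.le
      rw [mul_one] at h5
      exact h5
    · have hm := sp_lower_aux_mem e he
      have hpos : ∀ i, 0 < (cor 1 β k : Fin (N + 1) → ℝ) i := by
        intro i
        unfold cor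
        split_ifs
        · exact one_pos
        · exact hβ0
      have h0 : (cor 1 β k : Fin (N + 1) → ℝ) 0 = 1 := by
        unfold cor
        rw [if_pos]
        simp
        omega
      have h1 := sp_lower_aux_sum e he (cor 1 β k) hpos h0 _ hm
      have hc : (fun i : Fin N => (cor 1 β k : Fin (N + 1) → ℝ) i.succ) = cor 1 β k := by
        funext i
        unfold cor
        have h3 : ((i.succ : Fin (N + 1)) : ℕ) = i + 1 := rfl
        by_cases h : (i : ℕ) + k < N
        · rw [if_pos h, if_pos (by omega)]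
        · rw [if_neg h, if_neg (by omega)]
      rw [hc] at h1
      have h2 := ih _ (mem_strict N e _ hm) k hk2
      rw [sp_lower_tsum k hk2 e, sp_lower_tsum k hk2 (fun j : Fin (N + 1) => (j : ℕ))]
      have e1 : ∑ j with N ≤ (j : Fin N).val + k, e j.succ =
          tsum k (fun j : Fin N => e j.succ - 1) + ∑ j with N ≤ (j : Fin N).val + k, 1 := by
        unfold tsum
        rw [← Finset.sum_add_distrib]
        refine Finset.sum_congr rfl fun j _ => ?_
        have h : e j.castSucc < e j.succ := he Fin.castSucc_lt_succ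
        omega
      have e2 : ∑ j with N ≤ (j : Fin N).val + k, ((j.succ : Fin (N + 1)) : ℕ) =
          tsum k (fun j : Fin N => (j : ℕ)) + ∑ j with N ≤ (j : Fin N).val + k, 1 := by
        unfold tsum
        rw [← Finset.sum_add_distrib]
        refine Finset.sum_congr rfl fun j _ => ?_
        rfl
      rw [e1, e2, pow_add, pow_add, ← mul_assoc]
      have h3 : 0 < β ^ (∑ j with N ≤ (j : Fin N).val + k, 1) := pow_pos hβ0 _
      have h4 : 0 < β ^ (tsum k (fun j : Fin N => (j : ℕ))) := pow_pos hβ0 _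
      exact mul_le_mul_of_nonneg_right (h2.trans (mul_le_mul_of_nonneg_right h1 h4.le)) h3.le

/-- HINT: induction on `N` as follows. `N = 0`: trivial. Step `N + 1`: if `k = N + 1`, `cor 1 β k` is the constant `β`, `sp_hom` gives
`eval (fun _ => β) = β ^ d * eval 1` with `d + ∑ j = ∑ e j`, `tsum (N+1) e = ∑ e`, and `1 ≤ eval 1 (sp (N+1) e)` (from the statement for `β = 1`, or prove
`1 ≤ eval 1 (sp N e)` separately by induction: one summand is at least `1`). If `k ≤ N`: the coordinate `0` of `cor 1 β k` is `1`, the others form `cor 1 β k` on `Fin N`;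
in `sp_eval_succ` keep only the summand `m j = e j.succ - 1` (all summands are nonnegative by `sp_pos`; this `m` is in the index set because `e` is strictly monotone);
`tsum_{N+1} k e = ∑_{j, N ≤ j + k} e j.succ = tsum_N k m + (number of j)` and `tsum_{N+1} k idx = tsum_N k idx + (number of j)`. -/
theorem sp_lower (N : ℕ) (e : Fin N → ℕ) (he : StrictMono e) (k : ℕ) (hk : k ≤ N) (β : ℝ) (hβ : 1 ≤ β) :
    β ^ (tsum k e) ≤ eval (cor 1 β k) (sp N e) * β ^ (tsum k (fun j : Fin N => (j : ℕ))) := by
  exact sp_lower_main N β hβ e he k hk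

end SR
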