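import Pool.Agent.Helper204.SR.Defs
import Pool.Agent.Helper204.SR.P_sp_eval_succ
import Pool.Agent.Helper204.SR.P_mem_strict
import Pool.Agent.Helper204.SR.P_sp_pos
import Pool.Agent.Helper204.SR.P_sp_hom

set_option linter.unusedSectionVars false

open MvPolynomial Finset

noncomputable section

namespace SR



theorem sp_upper_hom {N : ℕ} (P : MvPolynomial (Fin N) ℝ) (d : ℕ) (h : P.IsHomogeneous d) (β : ℝ) :
    eval (fun _ => β) P = β ^ d * eval (fun _ => 1) P := by
  rw [eval_eq', eval_eq', Finset.mul_sum]
  refine Finset.sum_congr rfl fun s hs => ?_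
  have h1 : ∑ i, s i = d := by
    have h2 := h.degree_eq_sum_deg_support hs
    rw [h2, ← Finsupp.degree_eq_sum, Finsupp.degree_apply]
  simp only [one_pow, Finset.prod_const_one, mul_one]
  rw [Finset.prod_pow_eq_pow_sum, h1, mul_comm]

theorem sp_upper_tsum {N : ℕ} (k : ℕ) (hk : k ≤ N) (e : Fin (N + 1) → ℕ) :
    tsum k e = ∑ j with N ≤ (j : Fin N).val + k, e j.succ := by
  unfold tsum
  rw [Finset.sum_filter, Finset.sum_filter, Fin.sum_univ_succ, if_neg (by
    rw [Fin.val_zero]; omega), zero_add]
  refine Finset.sum_congr rfl fun j _ => ?_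
  rw [Fin.val_succ]
  by_cases h : N ≤ j.val + k
  · rw [if_pos h, if_pos (by omega)]
  · rw [if_neg h, if_neg (by omega)]

/-- HINT: induction on `N`. `N = 0`: both sums empty, `sp = 1`. Step `N + 1`: if `k = N + 1`, `cor 1 β k` is the constant `β`, `sp_hom` (homogeneity) gives
`eval (fun _ => β) = β ^ d * eval 1` with `d + ∑ j = ∑ e j`, and `tsum (N+1) e = ∑ e` : equality. If `k ≤ N`: the coordinate `0` of `cor 1 β k` is `1` and the others form
`cor 1 β k` on `Fin N`; `sp_eval_succ` and `tsum k e = ∑_{j : Fin N, N ≤ j + k} e j.succ` (sums over `Fin (N+1)` with `N + 1 ≤ j + k`, `Fin.sum_univ_succ`,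
index `0` is not in the filter). For `m` in the index set (`mem_strict`), by induction `eval (cor 1 β k) (sp N m) * β^(tsum k idx) ≤ eval 1 (sp N m) * β^(tsum k m)`, and
`m j + 1 ≤ e j.succ`, so `tsum k m + (number of j) ≤ ∑ e j.succ` while `tsum_{N+1} k idx = tsum_N k idx + (number of j)`. -/
theorem sp_upper (N : ℕ) (e : Fin N → ℕ) (he : StrictMono e) (k : ℕ) (hk : k ≤ N) (β : ℝ) (hβ : 1 ≤ β) :
    eval (cor 1 β k) (sp N e) * β ^ (tsum k (fun j : Fin N => (j : ℕ))) ≤
      eval (fun _ => 1) (sp N e) * β ^ (tsum k e) := by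
  induction N generalizing k with
  | zero => simp [sp, tsum]
  | succ N ih =>
    rcases Nat.lt_or_ge N k with hkN | hkN
    · have hkk : k = N + 1 := by omega
      subst hkk
      have hcor : (cor 1 β (N + 1) : Fin (N + 1) → ℝ) = fun _ => β := by
        funext j
        unfold cor
        rw [if_neg (by omega)]
      have hts : ∀ f : Fin (N + 1) → ℕ, tsum (N + 1) f = ∑ j, f j := by
        intro f
        unfold tsum
        rw [Finset.filter_true_of_mem]
        intro j _
        omega
      have hle : ∑ j : Fin (N + 1), (j : ℕ) ≤ ∑ j, e j :=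
        Finset.sum_le_sum fun j _ => by
          have h1 : ∀ n : ℕ, ∀ hn : n < N + 1, n ≤ e ⟨n, hn⟩ := by
            intro n
            induction n with
            | zero => intro _; exact Nat.zero_le _
            | succ n ihn =>
              intro hn
              have h2 := ihn (by omega)
              have h3 : e ⟨n, by omega⟩ < e ⟨n + 1, hn⟩ := he (by simp [Fin.lt_def])
              omega
          exact h1 j j.2
      obtain ⟨d, hd⟩ := Nat.exists_eq_add_of_le hle
      have hhom := sp_hom (N + 1) e he d (by omega)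
      rw [hcor, hts, hts, sp_upper_hom _ d hhom β, hd]
      apply le_of_eq
      rw [pow_add]
      ring
    · have hx0 : (cor 1 β k : Fin (N + 1) → ℝ) 0 = 1 := by
        unfold cor
        rw [if_pos (by rw [Fin.val_zero]; omega)]
      have hxs : (fun i : Fin N => (cor 1 β k : Fin (N + 1) → ℝ) i.succ) = cor 1 β k := by
        funext i
        unfold cor
        rw [Fin.val_succ]
        by_cases h : (i : ℕ) + k < N
        · rw [if_pos h, if_pos (by omega)]
        · rw [if_neg h, if_neg (by omega)]
      rw [sp_eval_succ, sp_eval_succ, hx0, hxs, sp_upper_tsum k hkN, sp_upper_tsum k hkN]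
      simp only [one_pow, Finset.prod_const_one, one_mul]
      rw [Finset.sum_mul, Finset.sum_mul]
      refine Finset.sum_le_sum fun m hm => ?_
      have hms := mem_strict N e m hm
      have h1 := ih m hms k hkN
      have hβ0 : 0 < β := by linarith
      have hpos := sp_pos N m hms (fun _ => 1) (fun _ => one_pos)
      have e1 : ∑ j with N ≤ (j : Fin N).val + k, (j.succ : ℕ) =
          tsum k (fun j : Fin N => (j : ℕ)) + (univ.filter fun j : Fin N => N ≤ j.val + k).card := by
        unfold tsum
        rw [Finset.card_eq_sum_ones, ← Finset.sum_add_distrib]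
        exact Finset.sum_congr rfl fun j _ => Fin.val_succ j
      have e2 : tsum k m + (univ.filter fun j : Fin N => N ≤ j.val + k).card ≤
          ∑ j with N ≤ (j : Fin N).val + k, e j.succ := by
        unfold tsum
        rw [Finset.card_eq_sum_ones, ← Finset.sum_add_distrib]
        refine Finset.sum_le_sum fun j _ => ?_
        have h2 := Finset.mem_Ico.1 (Fintype.mem_piFinset.1 hm j)
        omega
      rw [e1, pow_add, ← mul_assoc]
      calc _ ≤ (eval (fun _ => 1) (sp N m) * β ^ tsum k m) *
            β ^ (univ.filter fun j : Fin N => N ≤ j.val + k).card :=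
            mul_le_mul_of_nonneg_right h1 (by positivity)
        _ = eval (fun _ => 1) (sp N m) *
            β ^ (tsum k m + (univ.filter fun j : Fin N => N ≤ j.val + k).card) := by
            rw [pow_add, mul_assoc]
        _ ≤ _ := mul_le_mul_of_nonneg_left (pow_le_pow_right₀ hβ e2) hpos.le

end SR
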