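import Pool.Agent.Helper204.SR.Defs
import Pool.Agent.Helper204.SR.P_second_test

set_option linter.unusedSectionVars false

open MvPolynomial Finset

noncomputable section

namespace SR



/-- HINT: by contradiction `f k1 s1 < 0`, `s1 > 0` (as `f k 0 = 0`). Let `m s = min_{k ≤ N} f k s` (continuous; `Finset.inf'`), `m s1 = -A < 0`. Let `c = A / (2 s1)`, choose
`T > s1` with `c T ≥ C + 1` (so `m T ≥ -C > - c T`), `ε > 0` small with `ε s1 (T - s1) < A / 4`. Consider `G k s = f k s + c s - ε s (s - T)` on `[0,T]`, `k ≤ N`.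
At `s = 0` it is `0`, at `s = T` it is `≥ -C + cT > 0`, and `G k1 s1 ≤ -A + A/2 + A/4 < 0`. Take `(k, s)` minimizing `G` over `k ≤ N`, `s ∈ [0,T]` (finite set times compact:
minimize `min_k G k s` over `s`, or take for each `k` a minimizer and then the best `k`). The minimum is negative, so `0 < s < T` and `f k s ≤ f j s` for all `j ≤ N` (same correction terms),
so `f2 k s ≤ 0` by `h2`. But `G k` has a local minimum at `s`, with second derivative `f2 k s - 2 ε ≥ 0` (`second_test` applied to `fun s => f k s + c s - ε s (s - T)`, derivative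
`f1 k s + c - ε (2 s - T)`): contradiction. -/
theorem barrier (N : ℕ) (f f1 f2 : ℕ → ℝ → ℝ) (C : ℝ)
    (hd1 : ∀ k ≤ N, ∀ s, HasDerivAt (f k) (f1 k s) s)
    (hd2 : ∀ k ≤ N, ∀ s, HasDerivAt (f1 k) (f2 k s) s)
    (h0 : ∀ k ≤ N, f k 0 = 0) (hC : ∀ k ≤ N, ∀ s, 0 ≤ s → -C ≤ f k s)
    (h2 : ∀ k ≤ N, ∀ s, 0 < s → (∀ j ≤ N, f k s ≤ f j s) → f2 k s ≤ 0) :
    ∀ k ≤ N, ∀ s, 0 ≤ s → 0 ≤ f k s := by
  intro k1 hk1 s1 hs1
  by_contra hcon
  push Not at hcon
  have hs1pos : 0 < s1 := by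
    rcases hs1.lt_or_eq with h | h
    · exact h
    · exfalso
      rw [← h, h0 k1 hk1] at hcon
      exact lt_irrefl _ hcon
  obtain ⟨A, hA⟩ : ∃ A, A = - f k1 s1 := ⟨_, rfl⟩
  have hApos : 0 < A := by rw [hA]; linarith
  obtain ⟨c, hc⟩ : ∃ c, c = A / (2 * s1) := ⟨_, rfl⟩
  have hcpos : 0 < c := by rw [hc]; positivity
  have hcs : c * s1 = A / 2 := by rw [hc]; field_simp
  obtain ⟨T, hT⟩ : ∃ T, T = s1 + 1 + |C| / c := ⟨_, rfl⟩
  have habs : 0 ≤ |C| / c := div_nonneg (abs_nonneg _) hcpos.le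
  have hTs : s1 < T := by rw [hT]; linarith
  have hTpos : 0 < T := lt_trans hs1pos hTs
  have hcT : C < c * T := by
    have h1 : c * T = c * s1 + c + |C| := by rw [hT]; field_simp
    have h2 := le_abs_self C
    have h3 : 0 < c * s1 := mul_pos hcpos hs1pos
    linarith
  obtain ⟨ε, hε⟩ : ∃ ε, ε = A / (8 * (s1 * (T - s1))) := ⟨_, rfl⟩
  have hTs' : 0 < T - s1 := by linarith
  have hεpos : 0 < ε := by rw [hε]; positivity
  have hεs : ε * (s1 * (T - s1)) = A / 8 := by rw [hε]; field_simp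
  -- the corrected functions
  obtain ⟨G, hG⟩ : ∃ G : ℕ → ℝ → ℝ, ∀ k s, G k s = f k s + c * s - ε * (s * (s - T)) :=
    ⟨fun k s => f k s + c * s - ε * (s * (s - T)), fun _ _ => rfl⟩
  have hGd : ∀ k ≤ N, ∀ s, HasDerivAt (G k) (f1 k s + c - ε * (2 * s - T)) s := by
    intro k hk s
    have h1 := hd1 k hk s
    have h2 : HasDerivAt (fun s : ℝ => c * s) (c * 1) s := (hasDerivAt_id s).const_mul c
    have h3 : HasDerivAt (fun s : ℝ => ε * (s * (s - T))) (ε * (1 * (s - T) + s * 1)) s :=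
      ((hasDerivAt_id s).mul ((hasDerivAt_id s).sub_const T)).const_mul ε
    have h4 := (h1.add h2).sub h3
    have h5 : G k = fun s => f k s + c * s - ε * (s * (s - T)) := by
      funext s; exact hG k s
    rw [h5]
    have h6 : f1 k s + c - ε * (2 * s - T) = f1 k s + c * 1 - ε * (1 * (s - T) + s * 1) := by ring
    rw [h6]
    exact h4
  have hGc : ∀ k ≤ N, Continuous (G k) := fun k hk =>
    continuous_iff_continuousAt.2 fun s => (hGd k hk s).continuousAt
  have hmin : ∀ k, ∃ t, k ≤ N → t ∈ Set.Icc 0 T ∧ ∀ s ∈ Set.Icc 0 T, G k t ≤ G k s := by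
    intro k
    by_cases hk : k ≤ N
    · obtain ⟨t, ht, hmt⟩ := isCompact_Icc.exists_isMinOn (Set.nonempty_Icc.2 hTpos.le)
        (hGc k hk).continuousOn
      exact ⟨t, fun _ => ⟨ht, fun s hs => hmt hs⟩⟩
    · exact ⟨0, fun h => absurd h hk⟩
  choose t ht using hmin
  obtain ⟨k0, hk0, hbest⟩ := Finset.exists_min_image (Finset.range (N + 1)) (fun k => G k (t k))
    ⟨k1, Finset.mem_range.2 (by omega)⟩
  have hk0N : k0 ≤ N := by have := Finset.mem_range.1 hk0; omega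
  obtain ⟨⟨ht0, htT⟩, htmin⟩ := ht k0 hk0N
  have hle : ∀ j ≤ N, ∀ s ∈ Set.Icc 0 T, G k0 (t k0) ≤ G j s := by
    intro j hj s hs
    exact (hbest j (Finset.mem_range.2 (by omega))).trans ((ht j hj).2 s hs)
  have hneg : G k0 (t k0) < 0 := by
    have h1 := hle k1 hk1 s1 ⟨hs1, hTs.le⟩
    rw [hG k1 s1] at h1
    have h2 : ε * (s1 * (s1 - T)) = - (A / 8) := by
      have : ε * (s1 * (s1 - T)) = - (ε * (s1 * (T - s1))) := by ring
      rw [this, hεs]
    linarith
  have hne0 : t k0 ≠ 0 := by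
    intro h
    rw [h, hG, h0 k0 hk0N] at hneg
    simp at hneg
  have hneT : t k0 ≠ T := by
    intro h
    rw [h, hG] at hneg
    have h1 := hC k0 hk0N T hTpos.le
    have h2 : ε * (T * (T - T)) = 0 := by ring
    rw [h2] at hneg
    linarith
  have hpos : 0 < t k0 := lt_of_le_of_ne ht0 (Ne.symm hne0)
  have hltT : t k0 < T := lt_of_le_of_ne htT hneT
  have hf2 : f2 k0 (t k0) ≤ 0 := by
    apply h2 k0 hk0N _ hpos
    intro j hj
    have h1 := hle j hj (t k0) ⟨ht0, htT⟩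
    rw [hG, hG] at h1
    linarith
  have hloc : IsLocalMin (G k0) (t k0) := by
    filter_upwards [Ioo_mem_nhds hpos hltT] with s hs
    exact htmin s ⟨hs.1.le, hs.2.le⟩
  have hdd : HasDerivAt (fun s => f1 k0 s + c - ε * (2 * s - T)) (f2 k0 (t k0) - ε * (2 * 1)) (t k0) := by
    have h1 := hd2 k0 hk0N (t k0)
    have h3 : HasDerivAt (fun s : ℝ => ε * (2 * s - T)) (ε * (2 * 1)) (t k0) :=
      (((hasDerivAt_id (t k0)).const_mul 2).sub_const T).const_mul ε
    exact (h1.add_const c).sub h3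
  have hfin := second_test (G k0) _ _ (t k0) (hGd k0 hk0N) hdd hloc
  linarith

end SR
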