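import Pool.Agent.Helper204.SR.Defs
import Pool.Agent.Helper204.SR.P_GG_diff
import Pool.Agent.Helper204.SR.P_term_sign
import Pool.Agent.Helper204.SR.P_two_valued

set_option linter.unusedSectionVars false

open MvPolynomial Finset

noncomputable section

namespace SR



/-- HINT: with `J = univ.filter (fun j => N ≤ (j:ℕ) + k)` and `x = cor 1 β k`: `x j = β` on `J`, `x j = 1` off `J`. `GG_diff` : the difference is minus a sum of terms
`x k x l / (x k - x l)^2 * (..)`, each `≥ 0` by `term_sign`: the points `update x l (x k)` and `update x k (x l)` take only the values `1`, `β`, so by `two_valued` and `symm` of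
`Good` their `rat` equals `rat P Q (cor 1 β k')` for some `k' ≤ N`, which is `≥ rat P Q (cor 1 β k)` by `hk2`. -/
theorem fk_sign {N : ℕ} (P Q : MvPolynomial (Fin N) ℝ) (p q : ℕ)
    (hP : Good P p) (hQ : Good Q q) (β : ℝ) (hβ : 1 < β) (k : ℕ) (hk : k ≤ N)
    (hk2 : ∀ j ≤ N, rat P Q (cor 1 β k) ≤ rat P Q (cor 1 β j)) :
    GG P (univ.filter fun j : Fin N => N ≤ (j : ℕ) + k) (cor 1 β k) -
      GG Q (univ.filter fun j : Fin N => N ≤ (j : ℕ) + k) (cor 1 β k) ≤ 0 := by
  have hv : ∀ i : Fin N, cor 1 β k i = (1:ℝ) ∨ cor 1 β k i = β := by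
    intro i
    unfold cor
    by_cases h : (i : ℕ) + k < N
    · left; simp [h]
    · right; simp [h]
  have hval : ∀ y : Fin N → ℝ, (∀ i, y i = 1 ∨ y i = β) →
      rat P Q (cor 1 β k) ≤ rat P Q y ∧ 0 < eval y P ∧ 0 < eval y Q := by
    intro y hy
    have hpos : ∀ i, 0 < y i := by
      intro i
      rcases hy i with h | h
      · rw [h]; exact one_pos
      · rw [h]; linarith
    refine ⟨?_, hP.pos y hpos, hQ.pos y hpos⟩
    obtain ⟨k', hk', σ, hσ⟩ := two_valued 1 β y hy
    have h1 := hk2 k' hk'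
    rw [← hσ] at h1
    have h2 : rat P Q (y ∘ σ) = rat P Q y := by
      unfold rat
      rw [hP.symm σ y, hQ.symm σ y]
    rwa [h2] at h1
  have hx : ∀ i : Fin N, 0 < cor 1 β k i := by
    intro i
    rcases hv i with h | h
    · rw [h]; exact one_pos
    · rw [h]; linarith
  have hJ : ∀ a ∈ (univ.filter fun j : Fin N => N ≤ (j : ℕ) + k),
      ∀ l ∈ (univ.filter fun j : Fin N => N ≤ (j : ℕ) + k)ᶜ, cor 1 β k a ≠ cor 1 β k l := by
    intro a ha l hl
    rw [Finset.mem_filter] at ha
    rw [Finset.mem_compl, Finset.mem_filter] at hl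
    have ha' : ¬ ((a : ℕ) + k < N) := by have := ha.2; omega
    have hl' : (l : ℕ) + k < N := by
      by_contra hcon
      exact hl ⟨Finset.mem_univ _, by omega⟩
    have e1 : cor 1 β k a = β := by unfold cor; simp [ha']
    have e2 : cor 1 β k l = 1 := by unfold cor; simp [hl']
    rw [e1, e2]; exact hβ.ne'
  rw [GG_diff _ P Q p q hP hQ (cor 1 β k) hx hJ]
  rw [neg_nonpos]
  refine Finset.sum_nonneg fun a ha => Finset.sum_nonneg fun l hl => ?_
  refine mul_nonneg (div_nonneg (mul_nonneg (hx a).le (hx l).le) (sq_nonneg _)) ?_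
  have hu1 : ∀ i, Function.update (cor 1 β k) l (cor 1 β k a) i = 1 ∨
      Function.update (cor 1 β k) l (cor 1 β k a) i = β := by
    intro i
    by_cases h : i = l
    · subst h; rw [Function.update_self]; exact hv a
    · rw [Function.update_of_ne h]; exact hv i
  have hu2 : ∀ i, Function.update (cor 1 β k) a (cor 1 β k l) i = 1 ∨
      Function.update (cor 1 β k) a (cor 1 β k l) i = β := by
    intro i
    by_cases h : i = a
    · subst h; rw [Function.update_self]; exact hv l
    · rw [Function.update_of_ne h]; exact hv i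
  obtain ⟨r0, p0, q0⟩ := hval _ hv
  obtain ⟨r1, p1, q1⟩ := hval _ hu1
  obtain ⟨r2, p2, q2⟩ := hval _ hu2
  exact (term_sign _ _ _ _ _ _ p0 q0 p1 q1 p2 q2 r1 r2).1

end SR
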