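import Pool.Agent.Helper204.SR.Defs
import Pool.Agent.Helper204.SR.P_curve_second
import Pool.Agent.Helper204.SR.P_barrier
import Pool.Agent.Helper204.SR.P_fk_sign

set_option linter.unusedSectionVars false

open MvPolynomial Finset

noncomputable section

namespace SR



theorem suff_kappa {N : ℕ} (P Q : MvPolynomial (Fin N) ℝ) (p q : ℕ)
    (hP : Good P p) (hQ : Good Q q) (κ : ℝ) (C : ℝ) (hCpos : 0 < C)
    (hC : ∀ k ≤ N, ∀ β : ℝ, 1 ≤ β → C * β ^ κ ≤ rat P Q (cor 1 β k)) :
    ∀ k ≤ N, ∀ β : ℝ, 1 ≤ β → rat P Q (fun _ => 1) * β ^ κ ≤ rat P Q (cor 1 β k) := by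
  classical
  have h1pos : ∀ i : Fin N, 0 < (fun _ : Fin N => (1 : ℝ)) i := fun i => one_pos
  have hcor : ∀ (k : ℕ) (s : ℝ), curve (univ.filter fun j : Fin N => N ≤ (j : ℕ) + k)
      (fun _ => 1) s = cor 1 (Real.exp s) k := by
    intro k s
    funext j
    unfold curve cor
    by_cases h : N ≤ (j : ℕ) + k
    · have : j ∈ (univ.filter fun j : Fin N => N ≤ (j : ℕ) + k) := by simp [h]
      rw [if_pos this, if_neg (by omega), one_mul]
    · have : j ∉ (univ.filter fun j : Fin N => N ≤ (j : ℕ) + k) := by simp; omega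
      rw [if_neg this, if_pos (by omega)]
  have hcpos : ∀ (k : ℕ) (s : ℝ) (i : Fin N), 0 < cor (N := N) 1 (Real.exp s) k i := by
    intro k s i
    unfold cor
    split_ifs
    · norm_num
    · exact Real.exp_pos s
  have hPpos : ∀ (k : ℕ) (s : ℝ), 0 < eval (cor (N := N) 1 (Real.exp s) k) P :=
    fun k s => hP.pos _ (hcpos k s)
  have hQpos : ∀ (k : ℕ) (s : ℝ), 0 < eval (cor (N := N) 1 (Real.exp s) k) Q :=
    fun k s => hQ.pos _ (hcpos k s)
  have hrpos : ∀ (k : ℕ) (s : ℝ), 0 < rat P Q (cor 1 (Real.exp s) k) :=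
    fun k s => div_pos (hPpos k s) (hQpos k s)
  have hr1 : 0 < rat P Q (fun _ => 1) := div_pos (hP.pos _ h1pos) (hQ.pos _ h1pos)
  have hcor0 : ∀ k : ℕ, cor (N := N) 1 (Real.exp 0) k = fun _ => (1 : ℝ) := by
    intro k
    funext j
    unfold cor
    simp
  have hf : ∀ (k : ℕ) (s : ℝ),
      Real.log (eval (curve (univ.filter fun j : Fin N => N ≤ (j : ℕ) + k) (fun _ => 1) s) P) -
        Real.log (eval (curve (univ.filter fun j : Fin N => N ≤ (j : ℕ) + k) (fun _ => 1) s) Q) -
        Real.log (rat P Q (fun _ => 1)) - κ * s =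
      Real.log (rat P Q (cor 1 (Real.exp s) k)) - Real.log (rat P Q (fun _ => 1)) - κ * s := by
    intro k s
    rw [hcor]
    unfold rat
    rw [Real.log_div (hPpos k s).ne' (hQpos k s).ne']
  have key := barrier N
    (fun k s => Real.log (eval (curve (univ.filter fun j : Fin N => N ≤ (j : ℕ) + k)
        (fun _ => 1) s) P) -
      Real.log (eval (curve (univ.filter fun j : Fin N => N ≤ (j : ℕ) + k) (fun _ => 1) s) Q) -
      Real.log (rat P Q (fun _ => 1)) - κ * s)
    (fun k s => eval (curve (univ.filter fun j : Fin N => N ≤ (j : ℕ) + k) (fun _ => 1) s)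
        (DD (univ.filter fun j : Fin N => N ≤ (j : ℕ) + k) P) /
        eval (curve (univ.filter fun j : Fin N => N ≤ (j : ℕ) + k) (fun _ => 1) s) P -
      eval (curve (univ.filter fun j : Fin N => N ≤ (j : ℕ) + k) (fun _ => 1) s)
        (DD (univ.filter fun j : Fin N => N ≤ (j : ℕ) + k) Q) /
        eval (curve (univ.filter fun j : Fin N => N ≤ (j : ℕ) + k) (fun _ => 1) s) Q - κ)
    (fun k s => GG P (univ.filter fun j : Fin N => N ≤ (j : ℕ) + k)
        (curve (univ.filter fun j : Fin N => N ≤ (j : ℕ) + k) (fun _ => 1) s) -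
      GG Q (univ.filter fun j : Fin N => N ≤ (j : ℕ) + k)
        (curve (univ.filter fun j : Fin N => N ≤ (j : ℕ) + k) (fun _ => 1) s))
    (Real.log (rat P Q (fun _ => 1)) - Real.log C) ?_ ?_ ?_ ?_ ?_
  · intro k hk β hβ
    have hβ0 : 0 < β := by linarith
    have h := key k hk (Real.log β) (Real.log_nonneg hβ)
    simp only [hf] at h
    rw [Real.exp_log hβ0] at h
    have hr := hrpos k (Real.log β)
    rw [Real.exp_log hβ0] at hr
    have hβκ : 0 < β ^ κ := Real.rpow_pos_of_pos hβ0 κ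
    rw [← Real.log_le_log_iff (mul_pos hr1 hβκ) hr, Real.log_mul hr1.ne' hβκ.ne',
      Real.log_rpow hβ0]
    linarith
  · intro k hk s
    have e1 := (curve_second (univ.filter fun j : Fin N => N ≤ (j : ℕ) + k) P p hP
      (fun _ => 1) h1pos s).1
    have e2 := (curve_second (univ.filter fun j : Fin N => N ≤ (j : ℕ) + k) Q q hQ
      (fun _ => 1) h1pos s).1
    have e3 := ((e1.sub e2).sub_const (Real.log (rat P Q (fun _ => 1)))).sub
      ((hasDerivAt_id s).const_mul κ)
    simp only [id, mul_one] at e3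
    exact e3
  · intro k hk s
    have e1 := (curve_second (univ.filter fun j : Fin N => N ≤ (j : ℕ) + k) P p hP
      (fun _ => 1) h1pos s).2
    have e2 := (curve_second (univ.filter fun j : Fin N => N ≤ (j : ℕ) + k) Q q hQ
      (fun _ => 1) h1pos s).2
    exact (e1.sub e2).sub_const κ
  · intro k hk
    show _ - _ - _ - _ = _
    rw [hf, hcor0]
    ring
  · intro k hk s hs
    show _ ≤ _ - _ - _ - _
    rw [hf]
    have h := hC k hk (Real.exp s) (Real.one_le_exp hs)
    have hβκ : 0 < (Real.exp s) ^ κ := Real.rpow_pos_of_pos (Real.exp_pos s) κ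
    have h2 := Real.log_le_log (mul_pos hCpos hβκ) h
    rw [Real.log_mul hCpos.ne' hβκ.ne', Real.log_rpow (Real.exp_pos s), Real.log_exp] at h2
    linarith
  · intro k hk s hs hmin
    show _ - _ ≤ _
    rw [hcor]
    refine fk_sign P Q p q hP hQ (Real.exp s) (Real.one_lt_exp_iff.2 hs) k hk ?_
    intro j hj
    have h := hmin j hj
    simp only [hf] at h
    rw [← Real.log_le_log_iff (hrpos k s) (hrpos j s)]
    linarith

end SR
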