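import Pool.Agent.Helper204.SR.Defs
import Pool.Agent.Helper204.SR.P_good_sp
import Pool.Agent.Helper204.SR.P_rat_scale
import Pool.Agent.Helper204.SR.P_vertex
import Pool.Agent.Helper204.SR.P_sp_upper
import Pool.Agent.Helper204.SR.P_sp_lower
import Pool.Agent.Helper204.SR.P_suff_kappa

set_option linter.unusedSectionVars false

open MvPolynomial Finset

noncomputable section

namespace SR



theorem idx_le {N : ℕ} (e : Fin N → ℕ) (he : StrictMono e) (j : Fin N) : (j : ℕ) ≤ e j := by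
  obtain ⟨j, hj⟩ := j
  induction j with
  | zero => exact Nat.zero_le _
  | succ n ih =>
    have h1 := ih (by omega)
    have h2 : e ⟨n, by omega⟩ < e ⟨n + 1, hj⟩ := he (by simp [Fin.lt_def])
    simp only at h1 ⊢
    omega

theorem deg_ex {N : ℕ} (e : Fin N → ℕ) (he : StrictMono e) :
    ∃ d : ℕ, d + ∑ j : Fin N, (j : ℕ) = ∑ j, e j :=
  ⟨∑ j, e j - ∑ j : Fin N, (j : ℕ),
    Nat.sub_add_cancel (Finset.sum_le_sum fun j _ => idx_le e he j)⟩

theorem cor_ge {N : ℕ} (β : ℝ) (hβ : 1 ≤ β) (k : ℕ) (i : Fin N) :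
    1 ≤ (cor 1 β k : Fin N → ℝ) i := by
  unfold cor
  split_ifs
  · exact le_refl _
  · exact hβ

/-- HINT: `P = sp N e`, `Q = sp N f` are good (`good_sp`, the degree exists since `j ≤ e j`). (←) for `1 ≤ β`, `k ≤ N`: `sp_lower` for `e` and `sp_upper` for `f` give
`rat (cor 1 β k) ≥ β^(tsum k e) / (eval 1 Q * β^(tsum k f)) ≥ 1 / eval 1 Q =: C`, so `suff_kappa` with `κ = 0` gives `rat 1 ≤ rat (cor 1 β k)`. For `x` with all
`x i ≥ 1` let `b` be an upper bound of the coordinates; `vertex` on `[1,b]`. (→) if `tsum k e < tsum k f`, then by `sp_upper` for `e`, `sp_lower` for `f`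
`rat (cor 1 β k) ≤ eval 1 P * β^(tsum k e) / β^(tsum k f) ≤ eval 1 P / β`, which tends to `0` as `β → ∞`, contradicting `rat 1 ≤ rat (cor 1 β k)`, `rat 1 > 0`. -/
theorem T2 (N : ℕ) (e f : Fin N → ℕ) (he : StrictMono e) (hf : StrictMono f) :
    minOn (sp N e) (sp N f) (Set.Ici 1) ↔ ∀ k ≤ N, tsum k f ≤ tsum k e := by
  obtain ⟨p, hp⟩ := deg_ex e he
  obtain ⟨q, hq⟩ := deg_ex f hf
  have hP := good_sp N e he p hp
  have hQ := good_sp N f hf q hq
  have hp1 : 0 < eval (fun _ => (1 : ℝ)) (sp N e) := hP.pos _ (fun _ => one_pos)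
  have hq1 : 0 < eval (fun _ => (1 : ℝ)) (sp N f) := hQ.pos _ (fun _ => one_pos)
  constructor
  · intro hmin k hk
    by_contra hlt
    push Not at hlt
    set β : ℝ := eval (fun _ => (1 : ℝ)) (sp N f) + 1 with hβdef
    have hβ : 1 ≤ β := by rw [hβdef]; linarith
    have hβ0 : 0 < β := by linarith
    have h1 := hmin (cor 1 β k) (fun i => cor_ge β hβ k i)
    have hPc : 0 < eval (cor 1 β k) (sp N e) :=
      hP.pos _ (fun i => lt_of_lt_of_le one_pos (cor_ge β hβ k i))
    have hQc : 0 < eval (cor 1 β k) (sp N f) :=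
      hQ.pos _ (fun i => lt_of_lt_of_le one_pos (cor_ge β hβ k i))
    have hu := sp_upper N e he k hk β hβ
    have hl := sp_lower N f hf k hk β hβ
    set B : ℝ := β ^ (tsum k (fun j : Fin N => (j : ℕ))) with hB
    have hBpos : 0 < B := by rw [hB]; positivity
    unfold rat at h1
    rw [div_le_div_iff₀ hq1 hQc] at h1
    -- p1 * Q ≤ P * q1
    have h2 : eval (fun _ => (1 : ℝ)) (sp N e) * β ^ (tsum k f) ≤
        eval (fun _ => (1 : ℝ)) (sp N e) * β ^ (tsum k e) * eval (fun _ => (1 : ℝ)) (sp N f) := by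
      calc eval (fun _ => (1 : ℝ)) (sp N e) * β ^ (tsum k f)
          ≤ eval (fun _ => (1 : ℝ)) (sp N e) * (eval (cor 1 β k) (sp N f) * B) := by gcongr
        _ = (eval (fun _ => (1 : ℝ)) (sp N e) * eval (cor 1 β k) (sp N f)) * B := by ring
        _ ≤ (eval (cor 1 β k) (sp N e) * eval (fun _ => (1 : ℝ)) (sp N f)) * B := by gcongr
        _ = (eval (cor 1 β k) (sp N e) * B) * eval (fun _ => (1 : ℝ)) (sp N f) := by ring
        _ ≤ _ := by gcongr
    have h3 : β ^ (tsum k e + 1) ≤ β ^ (tsum k f) := pow_le_pow_right₀ hβ hlt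
    have h4 : 0 < β ^ (tsum k e) := by positivity
    rw [pow_succ] at h3
    have h5 : eval (fun _ => (1 : ℝ)) (sp N e) * (β ^ (tsum k e) * β) ≤
        eval (fun _ => (1 : ℝ)) (sp N e) * β ^ (tsum k e) * eval (fun _ => (1 : ℝ)) (sp N f) :=
      (mul_le_mul_of_nonneg_left h3 hp1.le).trans h2
    have h6 : eval (fun _ => (1 : ℝ)) (sp N e) * β ^ (tsum k e) * β ≤
        eval (fun _ => (1 : ℝ)) (sp N e) * β ^ (tsum k e) * eval (fun _ => (1 : ℝ)) (sp N f) := by
      linarith
    have h7 := le_of_mul_le_mul_left h6 (by positivity)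
    rw [hβdef] at h7
    linarith
  · intro ht x hx
    have hC : ∀ k ≤ N, ∀ β : ℝ, 1 ≤ β →
        1 / eval (fun _ => (1 : ℝ)) (sp N f) * β ^ (0 : ℝ) ≤ rat (sp N e) (sp N f) (cor 1 β k) := by
      intro k hk β hβ
      have hβ0 : 0 < β := by linarith
      have hPc : 0 < eval (cor 1 β k) (sp N e) :=
        hP.pos _ (fun i => lt_of_lt_of_le one_pos (cor_ge β hβ k i))
      have hQc : 0 < eval (cor 1 β k) (sp N f) :=
        hQ.pos _ (fun i => lt_of_lt_of_le one_pos (cor_ge β hβ k i))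
      have hu := sp_upper N f hf k hk β hβ
      have hl := sp_lower N e he k hk β hβ
      set B : ℝ := β ^ (tsum k (fun j : Fin N => (j : ℕ))) with hB
      have hBpos : 0 < B := by rw [hB]; positivity
      rw [Real.rpow_zero, mul_one]
      unfold rat
      rw [div_le_div_iff₀ hq1 hQc, one_mul]
      have h3 : β ^ (tsum k f) ≤ β ^ (tsum k e) := pow_le_pow_right₀ hβ (ht k hk)
      have h4 : eval (cor 1 β k) (sp N f) * B ≤
          (eval (cor 1 β k) (sp N e) * eval (fun _ => (1 : ℝ)) (sp N f)) * B := by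
        calc eval (cor 1 β k) (sp N f) * B
            ≤ eval (fun _ => (1 : ℝ)) (sp N f) * β ^ (tsum k f) := hu
          _ ≤ eval (fun _ => (1 : ℝ)) (sp N f) * β ^ (tsum k e) := by gcongr
          _ ≤ eval (fun _ => (1 : ℝ)) (sp N f) * (eval (cor 1 β k) (sp N e) * B) := by gcongr
          _ = _ := by ring
      exact le_of_mul_le_mul_right h4 hBpos
    have hkap := suff_kappa (sp N e) (sp N f) p q hP hQ 0 _ (by positivity) hC
    -- an upper bound
    obtain ⟨b, hb1, hb⟩ : ∃ b : ℝ, 1 ≤ b ∧ ∀ i, x i ≤ b := by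
      refine ⟨1 + ∑ i, |x i|, ?_, ?_⟩
      · have : 0 ≤ ∑ i, |x i| := Finset.sum_nonneg fun i _ => abs_nonneg _
        linarith
      · intro i
        have h1 : |x i| ≤ ∑ i, |x i| :=
          Finset.single_le_sum (f := fun i => |x i|) (fun i _ => abs_nonneg _) (Finset.mem_univ i)
        have h2 := le_abs_self (x i)
        linarith
    obtain ⟨k, hk, hv⟩ := vertex (sp N e) (sp N f) p q hP hQ 1 b one_pos hb1
    have h1 := hkap k hk b hb1
    rw [Real.rpow_zero, mul_one] at h1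
    exact h1.trans (hv x fun i => ⟨hx i, hb i⟩)

end SR
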