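import Pool.Agent.Helper204.SR.Defs
import Pool.Agent.Helper204.SR.Defs2

set_option linter.unusedSectionVars false

open MvPolynomial Finset

noncomputable section

namespace SR



/-- HINT: `Finset.sum_add_distrib`, reindex by `Fin.rev` (`N ≤ j + k ↔ (rev j : ℕ) < k`): `Finset.sum_bij` or `Finset.sum_equiv Fin.revPerm`. -/
theorem tsum_expo {N : ℕ} (l : Fin N → ℕ) (k : ℕ) :
    tsum k (expo l) = (∑ i with (i : Fin N).val < k, l i) + tsum k (fun j : Fin N => (j : ℕ)) := by
  unfold tsum expo
  rw [Finset.sum_add_distrib]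
  congr 1
  refine Finset.sum_equiv Fin.revPerm ?_ ?_
  · intro i
    simp only [Finset.mem_filter, Finset.mem_univ, true_and, Fin.revPerm_apply, Fin.val_rev]
    have := i.isLt
    omega
  · intro i _
    rw [Fin.revPerm_apply]

end SR
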