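import Pool.Agent.Helper204.SR.Defs
import Pool.Agent.Helper204.SR.Defs2

set_option linter.unusedSectionVars false

open MvPolynomial Finset

noncomputable section

namespace SR



/-- HINT: with `σ = τ = 1` for `→`. For `←`: if `a ∘ σ` and `a` are both antitone then `a ∘ σ = a` (`Tuple.unique_antitone` or `Tuple.unique_monotone` on the dual / negation). Casts. -/
theorem weakMaj_iff {N : ℕ} (l m : Fin N → ℕ) (hl : Antitone l) (hm : Antitone m) :
    WeaklyMajorizes (fun i => (l i : ℝ)) (fun i => (m i : ℝ)) ↔
      ∀ k ≤ N, (∑ i with (i : Fin N).val < k, m i) ≤ ∑ i with (i : Fin N).val < k, l i := by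
  constructor
  · intro h k hk
    have h1 := h 1 1 (by intro a b hab; simpa using hl hab) (by intro a b hab; simpa using hm hab) k hk
    simp only [Equiv.Perm.coe_one, id_eq, ge_iff_le] at h1
    exact_mod_cast h1
  · intro h σ τ hσ hτ k hk
    have key : ∀ (g : Fin N → ℕ) (ρ : Equiv.Perm (Fin N)), Antitone g →
        Antitone ((fun i => (g i : ℝ)) ∘ ρ) → ∀ i, g (ρ i) = g i := by
      intro g ρ hg hρ i
      have h1 : Antitone (g ∘ ρ) := by
        intro a b hab
        have := hρ hab
        simpa using this
      have h2 : Antitone (g ∘ (1 : Equiv.Perm (Fin N))) := by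
        simpa using hg
      have h3 := Tuple.unique_antitone h1 h2
      have := congrFun h3 i
      simpa using this
    have e1 : (∑ i with (i : Fin N).val < k, ((l (σ i) : ℕ) : ℝ)) = ((∑ i with (i : Fin N).val < k, l i : ℕ) : ℝ) := by
      push_cast
      refine Finset.sum_congr rfl ?_
      intro i _
      rw [key l σ hl hσ i]
    have e2 : (∑ i with (i : Fin N).val < k, ((m (τ i) : ℕ) : ℝ)) = ((∑ i with (i : Fin N).val < k, m i : ℕ) : ℝ) := by
      push_cast
      refine Finset.sum_congr rfl ?_
      intro i _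
      rw [key m τ hm hτ i]
    show (∑ i with (i : Fin N).val < k, ((m (τ i) : ℕ) : ℝ)) ≤ (∑ i with (i : Fin N).val < k, ((l (σ i) : ℕ) : ℝ))
    rw [e1, e2]
    exact_mod_cast h k hk

end SR
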