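import Pool.Agent.Helper204.SR.Defs
import Pool.Agent.Helper204.SR.Defs2
import Pool.Agent.Helper204.SR.P_expo_strict
import Pool.Agent.Helper204.SR.P_tsum_expo
import Pool.Agent.Helper204.SR.P_weakMaj_iff
import Pool.Agent.Helper204.SR.P_T2
import Pool.Agent.Helper204.SR.P_min_iff

set_option linter.unusedSectionVars false

open MvPolynomial Finset

noncomputable section

namespace SR



/-- HINT: `min_iff`, `T2`, `tsum_expo`, `weakMaj_iff`. -/
theorem F2 {N : ℕ} (l m : Fin N → ℕ) (hl : Antitone l) (hm : Antitone m) :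
    MinimizedAtOne l m (Set.Ici 1) ↔ WeaklyMajorizes (fun i => (l i : ℝ)) (fun i => (m i : ℝ)) := by
  rw [(min_iff l m hl hm (Set.Ici 1)).1, T2 N _ _ (expo_strict l hl) (expo_strict m hm),
    weakMaj_iff l m hl hm]
  constructor
  · intro h k hk
    have h1 := h k hk
    rw [tsum_expo, tsum_expo] at h1
    omega
  · intro h k hk
    have h1 := h k hk
    rw [tsum_expo, tsum_expo]
    omega

end SR
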