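import Pool.Agent.Helper204.SR.Defs
import Pool.Agent.Helper204.SR.P_good_sp
import Pool.Agent.Helper204.SR.P_rat_scale
import Pool.Agent.Helper204.SR.P_vertex
import Pool.Agent.Helper204.SR.P_sp_upper
import Pool.Agent.Helper204.SR.P_sp_lower
import Pool.Agent.Helper204.SR.P_suff_kappa

set_option linter.unusedSectionVars false

open MvPolynomial Finset

noncomputable section

namespace SR



theorem T3_le {N : ℕ} (e : Fin N → ℕ) (he : StrictMono e) : ∀ (n : ℕ) (hn : n < N), n ≤ e ⟨n, hn⟩ := by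
  intro n
  induction n with
  | zero => intro _; exact Nat.zero_le _
  | succ n ih =>
    intro hn
    have h1 := ih (Nat.lt_of_succ_lt hn)
    have h2 : e ⟨n, Nat.lt_of_succ_lt hn⟩ < e ⟨n + 1, hn⟩ := he (by simp [Fin.lt_def])
    omega

theorem T3_deg {N : ℕ} (e : Fin N → ℕ) (he : StrictMono e) : 
    ∃ d, d + ∑ j : Fin N, (j : ℕ) = ∑ j, e j := by
  have h : ∑ j : Fin N, (j : ℕ) ≤ ∑ j, e j := Finset.sum_le_sum fun j _ => T3_le e he j.1 j.2
  exact ⟨∑ j, e j - ∑ j : Fin N, (j : ℕ), Nat.sub_add_cancel h⟩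

theorem T3_split {N : ℕ} (k : ℕ) (e : Fin N → ℕ) : 
    tsum k e + ∑ j with (j : Fin N).val + k < N, e j = ∑ j, e j := by
  unfold tsum
  rw [add_comm, ← Finset.sum_filter_add_sum_filter_not Finset.univ (fun j : Fin N => j.val + k < N) e]
  congr 1
  apply Finset.sum_congr _ (fun _ _ => rfl)
  ext j
  simp

theorem T3_cor {N : ℕ} (β : ℝ) (hβ : 1 ≤ β) (k : ℕ) : 
    (cor (1 / β) 1 k : Fin N → ℝ) = fun i => (1 / β) * cor 1 β k i := by
  funext i
  unfold cor
  split_ifs
  · ring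
  · field_simp

theorem T3_corpos {N : ℕ} (β : ℝ) (hβ : 1 ≤ β) (k : ℕ) (i : Fin N) : 0 < (cor 1 β k : Fin N → ℝ) i := by
  unfold cor
  split_ifs <;> linarith

theorem T3_low {N : ℕ} (e f : Fin N → ℕ) (he : StrictMono e) (hf : StrictMono f) (p q : ℕ)
    (hp : p + ∑ j : Fin N, (j : ℕ) = ∑ j, e j) (hq : q + ∑ j : Fin N, (j : ℕ) = ∑ j, f j)
    (k : ℕ) (hk : k ≤ N) 
    (h : (∑ j with (j : Fin N).val + k < N, e j) ≤ ∑ j with (j : Fin N).val + k < N, f j)
    (β : ℝ) (hβ : 1 ≤ β) :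
    β ^ p * eval (cor 1 β k) (sp N f) ≤ 
      eval (cor 1 β k) (sp N e) * eval (fun _ => 1) (sp N f) * β ^ q := by
  have hβ0 : 0 < β := by linarith
  have l1 := sp_lower N e he k hk β hβ
  have l2 := sp_upper N f hf k hk β hβ
  have hQ := good_sp N f hf q hq
  have hP := good_sp N e he p hp
  have hQ1 : 0 < eval (fun _ => 1) (sp N f) := hQ.pos _ (fun _ => one_pos)
  have hB : 0 < β ^ (tsum k (fun j : Fin N => (j : ℕ))) := by positivity
  have hexp : p + tsum k f ≤ q + tsum k e := by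
    have := T3_split k e
    have := T3_split k f
    omega
  refine le_of_mul_le_mul_right ?_ hB
  calc β ^ p * eval (cor 1 β k) (sp N f) * β ^ (tsum k (fun j : Fin N => (j : ℕ))) 
      = β ^ p * (eval (cor 1 β k) (sp N f) * β ^ (tsum k (fun j : Fin N => (j : ℕ)))) := by ring
    _ ≤ β ^ p * (eval (fun _ => 1) (sp N f) * β ^ (tsum k f)) := 
        mul_le_mul_of_nonneg_left l2 (by positivity)
    _ = eval (fun _ => 1) (sp N f) * β ^ (p + tsum k f) := by rw [pow_add]; ring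
    _ ≤ eval (fun _ => 1) (sp N f) * β ^ (q + tsum k e) := 
        mul_le_mul_of_nonneg_left (pow_le_pow_right₀ hβ hexp) hQ1.le
    _ = eval (fun _ => 1) (sp N f) * β ^ q * β ^ (tsum k e) := by rw [pow_add]; ring
    _ ≤ eval (fun _ => 1) (sp N f) * β ^ q * (eval (cor 1 β k) (sp N e) * β ^ (tsum k (fun j : Fin N => (j : ℕ)))) :=
        mul_le_mul_of_nonneg_left l1 (by positivity)
    _ = _ := by ring

theorem T3_up {N : ℕ} (e f : Fin N → ℕ) (he : StrictMono e) (hf : StrictMono f) (p q : ℕ)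
    (hp : p + ∑ j : Fin N, (j : ℕ) = ∑ j, e j) (hq : q + ∑ j : Fin N, (j : ℕ) = ∑ j, f j)
    (k : ℕ) (hk : k ≤ N) 
    (h : (∑ j with (j : Fin N).val + k < N, f j) < ∑ j with (j : Fin N).val + k < N, e j)
    (β : ℝ) (hβ : 1 ≤ β) :
    eval (cor 1 β k) (sp N e) * β ^ q * β ≤ 
      eval (fun _ => 1) (sp N e) * β ^ p * eval (cor 1 β k) (sp N f) := by
  have hβ0 : 0 < β := by linarith
  have l1 := sp_upper N e he k hk β hβ
  have l2 := sp_lower N f hf k hk β hβ
  have hP := good_sp N e he p hp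
  have hP1 : 0 < eval (fun _ => 1) (sp N e) := hP.pos _ (fun _ => one_pos)
  have hB : 0 < β ^ (tsum k (fun j : Fin N => (j : ℕ))) := by positivity
  have hexp : tsum k e + (q + 1) ≤ p + tsum k f := by
    have := T3_split k e
    have := T3_split k f
    omega
  refine le_of_mul_le_mul_right ?_ hB
  calc eval (cor 1 β k) (sp N e) * β ^ q * β * β ^ (tsum k (fun j : Fin N => (j : ℕ))) 
      = (eval (cor 1 β k) (sp N e) * β ^ (tsum k (fun j : Fin N => (j : ℕ)))) * (β ^ q * β) := by ring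
    _ ≤ (eval (fun _ => 1) (sp N e) * β ^ (tsum k e)) * (β ^ q * β) := 
        mul_le_mul_of_nonneg_right l1 (by positivity)
    _ = eval (fun _ => 1) (sp N e) * β ^ (tsum k e + (q + 1)) := by rw [pow_add, pow_succ]; ring
    _ ≤ eval (fun _ => 1) (sp N e) * β ^ (p + tsum k f) := 
        mul_le_mul_of_nonneg_left (pow_le_pow_right₀ hβ hexp) hP1.le
    _ = eval (fun _ => 1) (sp N e) * β ^ p * β ^ (tsum k f) := by rw [pow_add]; ring
    _ ≤ eval (fun _ => 1) (sp N e) * β ^ p * (eval (cor 1 β k) (sp N f) * β ^ (tsum k (fun j : Fin N => (j : ℕ)))) :=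
        mul_le_mul_of_nonneg_left l2 (by positivity)
    _ = _ := by ring

/-- HINT: `P = sp N e`, `Q = sp N f` are good (`good_sp`) of degrees `p`, `q` with `p + ∑ j = ∑ e j`, `q + ∑ j = ∑ f j`. For `0 < a ≤ 1` put `β = 1/a`: `cor a 1 k = a * cor 1 β k`
so by `rat_scale` `rat (cor a 1 k) = a^p / a^q * rat (cor 1 β k) = rat (cor 1 β k) * β^q / β^p`. (←) as in `T2` with `κ = p - q` (real): `sp_lower`/`sp_upper` give
`rat (cor 1 β k) ≥ β^(tsum k e) / (eval 1 Q * β^(tsum k f)) ≥ C β^(p-q)` because `tsum k e - tsum k f ≥ ∑ e - ∑ f = p - q`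
(`tsum k e + (sum over j + k < N) = ∑ e`); so `suff_kappa` gives `rat 1 ≤ rat (cor a 1 k)`; for general `x ∈ (0,1]^N` use `vertex` on `[a,1]` with `a` a positive lower bound.
(→) if `∑_{j+k<N} f j < ∑_{j+k<N} e j` for some `k` then `rat (cor a 1 k) ≤ eval 1 P * β^(tsum k e) / β^(tsum k f) * β^q / β^p ≤ eval 1 P / β → 0`. -/
theorem T3 (N : ℕ) (e f : Fin N → ℕ) (he : StrictMono e) (hf : StrictMono f) :
    minOn (sp N e) (sp N f) (Set.Ioc 0 1) ↔
      ∀ k ≤ N, (∑ j with (j : Fin N).val + k < N, e j) ≤ ∑ j with (j : Fin N).val + k < N, f j := by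
  obtain ⟨p, hp⟩ := T3_deg e he
  obtain ⟨q, hq⟩ := T3_deg f hf
  have hP := good_sp N e he p hp
  have hQ := good_sp N f hf q hq
  have hP1 : 0 < eval (fun _ => 1) (sp N e) := hP.pos _ (fun _ => one_pos)
  have hQ1 : 0 < eval (fun _ => 1) (sp N f) := hQ.pos _ (fun _ => one_pos)
  constructor
  · intro hmin k hk
    by_contra hcon
    rw [not_le] at hcon
    obtain ⟨β, hβd⟩ : ∃ β, β = eval (fun _ => 1) (sp N f) + 1 := ⟨_, rfl⟩
    have hβ : 1 ≤ β := by rw [hβd]; linarith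
    have hβ0 : 0 < β := by linarith
    have hmem : ∀ i, (cor (1 / β) 1 k : Fin N → ℝ) i ∈ Set.Ioc (0:ℝ) 1 := by
      intro i
      unfold cor
      split_ifs
      · refine ⟨by positivity, ?_⟩
        rw [div_le_one hβ0]
        exact hβ
      · exact ⟨one_pos, le_rfl⟩
    have h1 := hmin _ hmem
    rw [T3_cor β hβ k, (rat_scale (sp N e) (sp N f) p q hP hQ (1 / β) _).2] at h1
    have hPc : 0 < eval (cor 1 β k) (sp N e) := hP.pos _ (T3_corpos β hβ k)
    have hQc : 0 < eval (cor 1 β k) (sp N f) := hQ.pos _ (T3_corpos β hβ k)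
    have h2 := T3_up e f he hf p q hp hq k hk hcon β hβ
    unfold rat at h1
    have h3 : (1 / β) ^ p / (1 / β) ^ q * (eval (cor 1 β k) (sp N e) / eval (cor 1 β k) (sp N f)) ≤ 
        eval (fun _ => 1) (sp N e) / β := by
      have e1 : (1 / β) ^ p / (1 / β) ^ q = β ^ q / β ^ p := by
        rw [div_pow, div_pow, one_pow, one_pow]
        field_simp
      rw [e1, div_mul_div_comm, div_le_div_iff₀ (by positivity) hβ0]
      calc β ^ q * eval (cor 1 β k) (sp N e) * β = eval (cor 1 β k) (sp N e) * β ^ q * β := by ring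
        _ ≤ _ := h2
        _ = _ := by ring
    have h4 := h1.trans h3
    rw [div_le_div_iff₀ hQ1 hβ0] at h4
    have h5 := le_of_mul_le_mul_left h4 hP1
    rw [hβd] at h5
    linarith
  · intro hle x hx
    obtain ⟨κ, hκ⟩ : ∃ κ : ℝ, κ = (p:ℝ) - q := ⟨_, rfl⟩
    have hpow : ∀ β : ℝ, 1 ≤ β → β ^ κ = β ^ p / β ^ q := by
      intro β hβ
      rw [hκ, Real.rpow_sub (by linarith), Real.rpow_natCast, Real.rpow_natCast]
    have hmain := suff_kappa (sp N e) (sp N f) p q hP hQ κ (1 / eval (fun _ => 1) (sp N f)) (by positivity) (by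
      intro k hk β hβ
      have hβ0 : 0 < β := by linarith
      have hQc : 0 < eval (cor 1 β k) (sp N f) := hQ.pos _ (T3_corpos β hβ k)
      rw [hpow β hβ]
      unfold rat
      rw [div_mul_div_comm, div_le_div_iff₀ (by positivity) hQc]
      have := T3_low e f he hf p q hp hq k hk (hle k hk) β hβ
      calc 1 * β ^ p * eval (cor 1 β k) (sp N f) = β ^ p * eval (cor 1 β k) (sp N f) := by ring
        _ ≤ _ := this
        _ = _ := by ring)
    have hcorner : ∀ k ≤ N, ∀ β : ℝ, 1 ≤ β → 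
        rat (sp N e) (sp N f) (fun _ => 1) ≤ rat (sp N e) (sp N f) (cor (1 / β) 1 k) := by
      intro k hk β hβ
      have hβ0 : 0 < β := by linarith
      rw [T3_cor β hβ k, (rat_scale (sp N e) (sp N f) p q hP hQ (1 / β) _).2]
      have h1 := hmain k hk β hβ
      rw [hpow β hβ] at h1
      have e1 : (1 / β) ^ p / (1 / β) ^ q = β ^ q / β ^ p := by
        rw [div_pow, div_pow, one_pow, one_pow]
        field_simp
      rw [e1]
      calc rat (sp N e) (sp N f) (fun _ => 1) = 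
          β ^ q / β ^ p * (rat (sp N e) (sp N f) (fun _ => 1) * (β ^ p / β ^ q)) := by field_simp
        _ ≤ _ := mul_le_mul_of_nonneg_left h1 (by positivity)
    have hex : ∃ a : ℝ, 0 < a ∧ a ≤ 1 ∧ ∀ i, a ≤ x i := by
      rcases isEmpty_or_nonempty (Fin N) with hE | hE
      · exact ⟨1, one_pos, le_rfl, fun i => (hE.false i).elim⟩
      · obtain ⟨i0, hi0⟩ := Finite.exists_min x
        exact ⟨x i0, (hx i0).1, (hx i0).2, hi0⟩
    obtain ⟨a, ha0, ha1, hax⟩ := hex
    obtain ⟨k, hk, hv⟩ := vertex (sp N e) (sp N f) p q hP hQ a 1 ha0 ha1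
    refine le_trans ?_ (hv x (fun i => ⟨hax i, (hx i).2⟩))
    have h2 := hcorner k hk (1 / a) (by rw [le_div_iff₀ ha0]; linarith)
    rwa [one_div_one_div] at h2

end SR
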