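import Pool.Agent.Helper204.SR.Defs
import Pool.Agent.Helper204.SR.Defs2

set_option linter.unusedSectionVars false

open MvPolynomial Finset

noncomputable section

namespace SR



/-- HINT: `Finset.sum_add_distrib`, reindex by `Fin.rev` (`j + k < N ↔ k ≤ (rev j : ℕ)`). -/
theorem bsum_expo {N : ℕ} (l : Fin N → ℕ) (k : ℕ) :
    (∑ j with (j : Fin N).val + k < N, expo l j) =
      (∑ i with k ≤ (i : Fin N).val, l i) + ∑ j with (j : Fin N).val + k < N, (j : ℕ) := by
  unfold expo
  rw [Finset.sum_add_distrib]
  congr 1
  apply Finset.sum_equiv Fin.revPerm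
  · intro j
    simp only [Finset.mem_filter, Finset.mem_univ, true_and, Fin.revPerm_apply, Fin.val_rev]
    have := j.2
    omega
  · intro j _
    rfl

end SR
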