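import Pool.Agent.Helper204.SR.Defs
import Pool.Agent.Helper204.SR.Defs2

set_option linter.unusedSectionVars false

open MvPolynomial Finset

noncomputable section

namespace SR



theorem wm_reindex {N : ℕ} {M : Type} [AddCommMonoid M] (f : Fin N → M) (k : ℕ) (hk : k ≤ N) :
    ∑ i with (i : Fin N).val < N - k, f (Fin.rev i) = ∑ i with k ≤ (i : Fin N).val, f i := by
  refine Finset.sum_equiv Fin.revPerm ?_ ?_
  · intro i
    simp only [Finset.mem_filter, Finset.mem_univ, true_and, Fin.revPerm_apply, Fin.val_rev]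
    have := i.2
    omega
  · intro i _
    simp

theorem wm_rearr {N : ℕ} (l : Fin N → ℕ) (hl : Antitone l) (σ : Equiv.Perm (Fin N))
    (h : Antitone ((fun i => -(l i : ℝ)) ∘ σ)) (i : Fin N) :
    (fun i => -(l i : ℝ)) (σ i) = -(l (Fin.rev i) : ℝ) := by
  have h1 : Monotone ((fun i => (l i : ℝ)) ∘ σ) := by
    intro a b hab
    have := h hab
    simp only [Function.comp] at this ⊢
    linarith
  have h2 : Monotone ((fun i => (l i : ℝ)) ∘ (Fin.revPerm : Equiv.Perm (Fin N))) := by
    intro a b hab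
    have h3 : l (Fin.rev a) ≤ l (Fin.rev b) := hl (Fin.rev_le_rev.2 hab)
    simp only [Function.comp, Fin.revPerm_apply]
    exact_mod_cast h3
  have h3 := congrFun (Tuple.unique_monotone h1 h2) i
  simp only [Function.comp, Fin.revPerm_apply] at h3
  simp only [h3]

/-- HINT: the non-increasing rearrangement of `-l` is `i ↦ -l (rev i)`; if `a ∘ σ` and `a ∘ rev` are both antitone then they are equal
(`Tuple.unique_antitone`/`Tuple.unique_monotone`). `∑_{i<k} l (rev i) = ∑_{N-k ≤ i} l i` (reindex by `Fin.rev`), and `k ↦ N - k` maps `{0..N}` onto itself. -/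
theorem weakMaj_neg_iff {N : ℕ} (l m : Fin N → ℕ) (hl : Antitone l) (hm : Antitone m) :
    WeaklyMajorizes (fun i => -(l i : ℝ)) (fun i => -(m i : ℝ)) ↔
      ∀ k ≤ N, (∑ i with k ≤ (i : Fin N).val, l i) ≤ ∑ i with k ≤ (i : Fin N).val, m i := by
  constructor
  · intro h k hk
    have hanti : ∀ l : Fin N → ℕ, Antitone l →
        Antitone ((fun i => -(l i : ℝ)) ∘ (Fin.revPerm : Equiv.Perm (Fin N))) := by
      intro l hl a b hab
      have h3 : l (Fin.rev a) ≤ l (Fin.rev b) := hl (Fin.rev_le_rev.2 hab)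
      have h4 : (l (Fin.rev a) : ℝ) ≤ l (Fin.rev b) := by exact_mod_cast h3
      simp only [Function.comp, Fin.revPerm_apply]
      linarith
    have h1 := h Fin.revPerm Fin.revPerm (hanti l hl) (hanti m hm) (N - k) (Nat.sub_le _ _)
    simp only [Fin.revPerm_apply] at h1
    rw [Finset.sum_neg_distrib, Finset.sum_neg_distrib,
      wm_reindex (fun i => (l i : ℝ)) k hk, wm_reindex (fun i => (m i : ℝ)) k hk] at h1
    have h2 : (∑ i with k ≤ (i : Fin N).val, (l i : ℝ)) ≤ ∑ i with k ≤ (i : Fin N).val, (m i : ℝ) := by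
      linarith
    exact_mod_cast h2
  · intro h σ τ hσ hτ k hk
    rw [Finset.sum_congr rfl (fun i _ => wm_rearr l hl σ hσ i),
      Finset.sum_congr rfl (fun i _ => wm_rearr m hm τ hτ i)]
    have h1 := h (N - k) (Nat.sub_le _ _)
    have h2 : (∑ i with N - k ≤ (i : Fin N).val, (l i : ℝ)) ≤
        ∑ i with N - k ≤ (i : Fin N).val, (m i : ℝ) := by exact_mod_cast h1
    rw [← wm_reindex (fun i => (l i : ℝ)) (N - k) (Nat.sub_le _ _),
      ← wm_reindex (fun i => (m i : ℝ)) (N - k) (Nat.sub_le _ _), Nat.sub_sub_self hk] at h2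
    rw [Finset.sum_neg_distrib, Finset.sum_neg_distrib]
    linarith

end SR
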