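import Pool.Agent.Helper204.SR.Defs
import Pool.Agent.Helper204.SR.Defs2
import Pool.Agent.Helper204.SR.P_expo_strict
import Pool.Agent.Helper204.SR.P_bsum_expo
import Pool.Agent.Helper204.SR.P_weakMaj_neg_iff
import Pool.Agent.Helper204.SR.P_T3
import Pool.Agent.Helper204.SR.P_min_iff

set_option linter.unusedSectionVars false

open MvPolynomial Finset

noncomputable section

namespace SR



/-- HINT: `min_iff`, `T3`, `bsum_expo`, `weakMaj_neg_iff`. -/
theorem F3 {N : ℕ} (l m : Fin N → ℕ) (hl : Antitone l) (hm : Antitone m) :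
    MinimizedAtOne l m (Set.Ioc 0 1) ↔
      WeaklyMajorizes (fun i => -(l i : ℝ)) (fun i => -(m i : ℝ)) := by
  rw [(min_iff l m hl hm (Set.Ioc 0 1)).1, T3 N (expo l) (expo m) (expo_strict l hl) (expo_strict m hm),
    weakMaj_neg_iff l m hl hm]
  refine forall_congr' fun k => forall_congr' fun _ => ?_
  rw [bsum_expo, bsum_expo]
  exact Nat.add_le_add_iff_right

end SR
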