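import Pool.Agent.Helper204.SR.Defs
import Pool.Agent.Helper204.SR.P_good_sp
import Pool.Agent.Helper204.SR.P_rat_scale
import Pool.Agent.Helper204.SR.P_T2

set_option linter.unusedSectionVars false

open MvPolynomial Finset

noncomputable section

namespace SR



/-- HINT: (→) from `b ∈ I`, `b > 1` and `a ∈ I`, `a < 1`: constant vectors, `rat_scale`: `rat (b,..,b) = b^p/b^q * rat 1 ≥ rat 1` gives `q ≤ p` and the other gives `p ≤ q`
(`rat 1 > 0`; `N > 0`: if `N = 0` everything is trivial), so `p = q`, so `∑ e = ∑ f`, and `rat` is invariant under scaling by `c > 0`. Every `x ∈ [1,∞)^N` can be scaled into `I^N`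
(`OrdConnected`: if `I` is unbounded, `[a,∞) ⊆ I`: take `x` itself; if `I` contains arbitrarily small positive elements, `(0,b] ⊆ I`: scale by a small `c`).
So `minOn (Ici 1)` and `T2`. (←) `T2` gives `minOn (Ici 1)`; `p = q`; any `x` with positive coordinates is scaled into `[1,∞)^N` by a large `c`. -/
theorem T4 (N : ℕ) (e f : Fin N → ℕ) (he : StrictMono e) (hf : StrictMono f) (I : Set ℝ)
    (hI : I.OrdConnected) (hpos : I ⊆ Set.Ioi 0) (a b : ℝ) (ha : a ∈ I) (ha1 : a < 1) (hb : b ∈ I) (hb1 : 1 < b)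
    (hub : (¬ BddAbove I) ∨ (∀ ε > 0, ∃ c ∈ I, c < ε)) :
    minOn (sp N e) (sp N f) I ↔ (∀ k ≤ N, tsum k f ≤ tsum k e) ∧ ∑ j, e j = ∑ j, f j := by
  have hle : ∀ g : Fin N → ℕ, StrictMono g → ∀ (n : ℕ) (h : n < N), n ≤ g ⟨n, h⟩ := by
    intro g hg n
    induction n with
    | zero => intro h; exact Nat.zero_le _
    | succ m ih =>
      intro h
      have h1 := ih (by omega)
      have h2 : g ⟨m, by omega⟩ < g ⟨m + 1, h⟩ := hg (by simp [Fin.lt_def])
      omega
  have hsum : ∀ g : Fin N → ℕ, StrictMono g → ∑ j : Fin N, (j : ℕ) ≤ ∑ j, g j := by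
    intro g hg
    exact Finset.sum_le_sum (fun j _ => hle g hg j.1 j.2)
  obtain ⟨p, hp⟩ : ∃ p : ℕ, p + ∑ j : Fin N, (j : ℕ) = ∑ j, e j :=
    ⟨∑ j, e j - ∑ j : Fin N, (j : ℕ), Nat.sub_add_cancel (hsum e he)⟩
  obtain ⟨q, hq⟩ : ∃ q : ℕ, q + ∑ j : Fin N, (j : ℕ) = ∑ j, f j :=
    ⟨∑ j, f j - ∑ j : Fin N, (j : ℕ), Nat.sub_add_cancel (hsum f hf)⟩
  have hP := good_sp N e he p hp
  have hQ := good_sp N f hf q hq
  have hC0 : 0 < rat (sp N e) (sp N f) (fun _ => 1) :=
    div_pos (hP.pos _ (fun _ => one_pos)) (hQ.pos _ (fun _ => one_pos))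
  have hsc : ∀ (c : ℝ) (x : Fin N → ℝ), rat (sp N e) (sp N f) (fun i => c * x i) =
      c ^ p / c ^ q * rat (sp N e) (sp N f) x := fun c x =>
    (rat_scale (sp N e) (sp N f) p q hP hQ c x).2
  have hsc2 : p = q → ∀ c : ℝ, 0 < c → ∀ x : Fin N → ℝ,
      rat (sp N e) (sp N f) (fun i => c * x i) = rat (sp N e) (sp N f) x := by
    intro hpq c hc x
    rw [hsc, hpq, div_self (pow_pos hc q).ne', one_mul]
  constructor
  · intro hm
    have hconst : ∀ c ∈ I, c ^ q ≤ c ^ p := by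
      intro c hc
      have hc0 : 0 < c := hpos hc
      have h1 := hm (fun _ => c) (fun _ => hc)
      have h2 : (fun _ : Fin N => c) = fun i => c * (fun _ : Fin N => (1:ℝ)) i := by
        funext i; simp
      rw [h2, hsc] at h1
      have h3 : 1 ≤ c ^ p / c ^ q := by
        by_contra h
        push Not at h
        nlinarith
      rw [le_div_iff₀ (pow_pos hc0 q), one_mul] at h3
      exact h3
    have h1 : q ≤ p := (pow_le_pow_iff_right₀ hb1).mp (hconst b hb)
    have h2 : p ≤ q := (pow_le_pow_iff_right_of_lt_one₀ (hpos ha) ha1).mp (hconst a ha)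
    have hpq : p = q := le_antisymm h2 h1
    have hs : ∑ j, e j = ∑ j, f j := by rw [← hp, ← hq, hpq]
    refine ⟨?_, hs⟩
    rw [← T2 N e f he hf]
    intro x hx
    rcases hub with hub | hub
    · apply hm
      intro i
      obtain ⟨y, hy, hxy⟩ := not_bddAbove_iff.mp hub (x i)
      exact hI.out ha hy ⟨ha1.le.trans (hx i), hxy.le⟩
    · have hM : ∀ i, x i ≤ 1 + ∑ j, x j := by
        intro i
        have h3 : x i ≤ ∑ j, x j :=
          Finset.single_le_sum (fun j _ => (zero_le_one.trans (hx j))) (Finset.mem_univ i)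
        linarith
      have hM0 : 0 < 1 + ∑ j, x j := by
        have : 0 ≤ ∑ j, x j := Finset.sum_nonneg (fun j _ => (zero_le_one.trans (hx j)))
        linarith
      have hb0 : 0 < b := by linarith
      have hc0 : 0 < b / (1 + ∑ j, x j) := div_pos hb0 hM0
      obtain ⟨c', hc', hcc'⟩ := hub _ hc0
      rw [← hsc2 hpq _ hc0 x]
      apply hm
      intro i
      apply hI.out hc' hb
      constructor
      · have h4 : (1:ℝ) ≤ x i := hx i
        nlinarith
      · rw [div_mul_eq_mul_div, div_le_iff₀ hM0]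
        exact mul_le_mul_of_nonneg_left (hM i) hb0.le
  · rintro ⟨h1, hs⟩
    have hpq : p = q := by omega
    have hm := (T2 N e f he hf).mpr h1
    intro x hx
    have hx0 : ∀ i, 0 < x i := fun i => hpos (hx i)
    have hinv : 0 ≤ ∑ j, (x j)⁻¹ := Finset.sum_nonneg (fun j _ => (inv_pos.mpr (hx0 j)).le)
    have hc0 : 0 < 1 + ∑ j, (x j)⁻¹ := by linarith
    rw [← hsc2 hpq _ hc0 x]
    apply hm
    intro i
    show (1:ℝ) ≤ (1 + ∑ j, (x j)⁻¹) * x i
    have h3 : (x i)⁻¹ ≤ ∑ j, (x j)⁻¹ :=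
      Finset.single_le_sum (f := fun j => (x j)⁻¹) (fun j _ => (inv_pos.mpr (hx0 j)).le) (Finset.mem_univ i)
    have h4 : (x i)⁻¹ * x i = 1 := inv_mul_cancel₀ (hx0 i).ne'
    nlinarith [hx0 i]

end SR
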