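import Pool.Agent.Helper204.SR.Defs
import Pool.Agent.Helper204.SR.Defs2
import Pool.Agent.Helper204.SR.P_expo_strict
import Pool.Agent.Helper204.SR.P_tsum_expo
import Pool.Agent.Helper204.SR.P_weakMaj_iff
import Pool.Agent.Helper204.SR.P_T4
import Pool.Agent.Helper204.SR.P_min_iff

set_option linter.unusedSectionVars false

open MvPolynomial Finset

noncomputable section

namespace SR



/-- HINT: `min_iff`, `T4` (in the case `sInf I = 0`: small elements of `I` by `exists_lt_of_csInf_lt`, in particular an element `< 1`; in the unbounded case there is an element `> 1`),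
`tsum_expo`, `weakMaj_iff`; `∑ expo l = ∑ l + ∑ j` (e.g. `tsum_expo` with `k = N`, or reindexing by `Fin.rev`). -/
theorem F4 {N : ℕ} (l m : Fin N → ℕ) (hl : Antitone l) (hm : Antitone m) (I : Set ℝ)
    (hI : I.OrdConnected) (hpos : I ⊆ Set.Ioi 0) (h1 : (1 : ℝ) ∈ I)
    (h : (sInf I = 0 ∧ ∃ b ∈ I, 1 < b) ∨ (¬ BddAbove I ∧ ∃ a ∈ I, a < 1)) :
    MinimizedAtOne l m I ↔ Majorizes (fun i => (l i : ℝ)) (fun i => (m i : ℝ)) := by
  have hex : ∃ a ∈ I, ∃ b ∈ I, a < 1 ∧ 1 < b ∧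
      ((¬ BddAbove I) ∨ (∀ ε > 0, ∃ c ∈ I, c < ε)) := by
    rcases h with ⟨h0, b, hb, hb1⟩ | ⟨hu, a, ha, ha1⟩
    · have hne : I.Nonempty := ⟨1, h1⟩
      obtain ⟨a, ha, ha1⟩ := exists_lt_of_csInf_lt hne (by rw [h0]; exact one_pos)
      refine ⟨a, ha, b, hb, ha1, hb1, Or.inr ?_⟩
      intro ε hε
      exact exists_lt_of_csInf_lt hne (by rw [h0]; exact hε)
    · obtain ⟨b, hb, hb1⟩ := not_bddAbove_iff.mp hu 1
      exact ⟨a, ha, b, hb, ha1, hb1, Or.inl hu⟩
  obtain ⟨a, ha, b, hb, ha1, hb1, hub⟩ := hex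
  have hsum : ∀ q : Fin N → ℕ, ∑ j, expo q j = ∑ j, q j + ∑ j : Fin N, (j : ℕ) := by
    intro q
    unfold expo
    rw [Finset.sum_add_distrib]
    congr 1
    exact Equiv.sum_comp Fin.revPerm q
  rw [(min_iff l m hl hm I).1, T4 N (expo l) (expo m) (expo_strict l hl) (expo_strict m hm) I hI
    hpos a b ha ha1 hb hb1 hub]
  unfold Majorizes
  rw [weakMaj_iff l m hl hm]
  refine and_congr ?_ ?_
  · refine forall_congr' (fun k => forall_congr' (fun _ => ?_))
    rw [tsum_expo, tsum_expo]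
    exact Nat.add_le_add_iff_right
  · rw [hsum, hsum]
    constructor
    · intro hh
      have h2 : ∑ j, l j = ∑ j, m j := by omega
      have h3 : (∑ j, (l j : ℝ)) = ∑ j, (m j : ℝ) := by exact_mod_cast h2
      exact h3
    · intro hh
      have h3 : (∑ j, (l j : ℝ)) = ∑ j, (m j : ℝ) := hh
      have h2 : ∑ j, l j = ∑ j, m j := by exact_mod_cast h3
      omega

end SR
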