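import Pool.Agent.Helper204.SR.Defs
import Pool.Agent.Helper204.SR.Defs2
import Pool.Agent.Helper204.SR.Defs3

set_option linter.unusedSectionVars false

open MvPolynomial Finset

noncomputable section

namespace SR



theorem tel_aux (a : ℝ) (f c : ℕ → ℝ) (hc : ∀ m, f (m + 1) - a * f m = c m) (p q : ℕ)
    (hpq : p ≤ q) :
    f q - a ^ (q - p) * f p = ∑ m ∈ Finset.Ico p q, a ^ (q - 1 - m) * c m := by
  induction q, hpq using Nat.le_induction with
  | base => simp
  | succ q hq ih =>
    rw [Finset.sum_Ico_succ_top hq]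
    have h1 : ∑ m ∈ Finset.Ico p q, a ^ (q + 1 - 1 - m) * c m =
        a * ∑ m ∈ Finset.Ico p q, a ^ (q - 1 - m) * c m := by
      rw [Finset.mul_sum]
      refine Finset.sum_congr rfl fun m hm => ?_
      rw [Finset.mem_Ico] at hm
      have h2 : q + 1 - 1 - m = (q - 1 - m) + 1 := by omega
      rw [h2, pow_succ]; ring
    rw [h1, ← ih, ← hc q]
    have h3 : q + 1 - p = (q - p) + 1 := by omega
    have h4 : q + 1 - 1 - q = 0 := by omega
    rw [h3, h4, pow_succ]
    ring

theorem hs_zero_succ (x : ℝ) (m : ℕ) : hs 0 x (m + 1) = x * hs 0 x m := by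
  simp [hs, pow_succ]; ring

theorem hs_succ_succ (i : ℕ) (x : ℝ) (m : ℕ) :
    hs (i + 1) x (m + 1) = x * hs (i + 1) x m + hs i x m := by
  unfold hs
  rw [Nat.choose_succ_succ, Nat.cast_add, Nat.add_sub_add_right]
  by_cases h : i + 1 ≤ m
  · have h2 : m - i = (m - (i + 1)) + 1 := by omega
    rw [h2, pow_succ]
    ring
  · have h2 : m.choose (i + 1) = 0 := Nat.choose_eq_zero_of_lt (by omega)
    rw [h2]
    simp

/-- HINT: the recurrences `hs 0 x (m+1) = x * hs 0 x m` and `hs (i+1) x (m+1) = x * hs (i+1) x m + hs i x m` (Pascal `Nat.choose_succ_succ`; careful with the truncated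
subtraction: if `m < i` everything vanishes), then telescoping by induction on `q ≥ p` (`Nat.le_induction`). -/
theorem hs_tel (i : ℕ) (a x : ℝ) (p q : ℕ) (hpq : p ≤ q) :
    hs (i + 1) x q - a ^ (q - p) * hs (i + 1) x p =
        ∑ m ∈ Finset.Ico p q, a ^ (q - 1 - m) * ((x - a) * hs (i + 1) x m + hs i x m) ∧
      hs 0 x q - a ^ (q - p) * hs 0 x p =
        ∑ m ∈ Finset.Ico p q, a ^ (q - 1 - m) * ((x - a) * hs 0 x m) := by
  constructor
  · refine tel_aux a (fun m => hs (i + 1) x m) (fun m => (x - a) * hs (i + 1) x m + hs i x m)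
      (fun m => ?_) p q hpq
    simp only [hs_succ_succ]
    ring
  · refine tel_aux a (fun m => hs 0 x m) (fun m => (x - a) * hs 0 x m)
      (fun m => ?_) p q hpq
    simp only [hs_zero_succ]
    ring

end SR
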