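import Pool.Agent.Helper204.SR.Defs
import Pool.Agent.Helper204.SR.Defs2
import Pool.Agent.Helper204.SR.Defs3
import Pool.Agent.Helper204.SR.P_hs_tel

set_option linter.unusedSectionVars false

open MvPolynomial Finset

noncomputable section

namespace SR



theorem det_expand_aux {N : ℕ} (S : Fin N → Finset ℕ) (α : Fin N → ℕ → ℝ) (f : Fin N → ℕ → ℝ) :
    (Matrix.of fun i j : Fin N => ∑ m ∈ S j, α j m * f i m).det =
      ∑ m ∈ Fintype.piFinset S, (∏ j, α j (m j)) *
        (Matrix.of fun i j : Fin N => f i (m j)).det := by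
  simp only [Matrix.det_apply', Matrix.of_apply, Finset.prod_univ_sum, Finset.mul_sum]
  rw [Finset.sum_comm]
  refine Finset.sum_congr rfl fun m _ => Finset.sum_congr rfl fun σ _ => ?_
  rw [Finset.prod_mul_distrib]
  ring

/-- HINT: as for the branching of the alternant. Column operations `Matrix.det_eq_of_forall_col_eq_smul_add_pred` with `c j = a ^ (e j.succ - e j.castSucc)`:
`det (cmat a b k e) = det B` with `B i 0 = cmat i 0`, `B i j.succ = cmat i j.succ - a ^ (e j.succ - e j.castSucc) * cmat i j.castSucc`. Row `0` (an `a`-row `hs 0 a m = a^m`, as `k ≤ N`) of `B` is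
`(a ^ e 0, 0, .., 0)`, so `Matrix.det_succ_row_zero` gives `det B = a ^ e 0 * det (B i.succ j.succ)`, and by `hs_tel` (with `x = a` in the `a`-block: `hs (i+1) a q - .. = ∑ a^(q-1-m) hs i a m`;
with `x = b` in the `b`-block)
`B i.succ j.succ = ∑ m ∈ Ico (e j.castSucc) (e j.succ), a ^ (e j.succ - 1 - m) * (cmat' a b k (N) entry (i, m))`. Expand by multilinearity in the columns
(`Matrix.det_apply` and `Finset.prod_univ_sum`, or `MultilinearMap.map_sum_finset` of `Matrix.detRowAlternating` for the transpose). -/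
theorem cmat_branch {N : ℕ} (a b : ℝ) (k : ℕ) (hk : k ≤ N) (e : Fin (N + 1) → ℕ) (he : Monotone e) :
    (cmat a b k e).det = a ^ (e 0) *
      ∑ m ∈ Fintype.piFinset (fun j : Fin N => Finset.Ico (e j.castSucc) (e j.succ)),
        (∏ j : Fin N, a ^ (e j.succ - 1 - m j)) * (cmat' a b k m).det := by
  set B : Matrix (Fin (N + 1)) (Fin (N + 1)) ℝ := Matrix.of fun i j =>
    Fin.cases (cmat a b k e i 0)
      (fun j' => cmat a b k e i j'.succ - a ^ (e j'.succ - e j'.castSucc) * cmat a b k e i j'.castSucc) j
    with hB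
  have h1 : (cmat a b k e).det = B.det := by
    apply Matrix.det_eq_of_forall_col_eq_smul_add_pred (fun j => a ^ (e j.succ - e j.castSucc))
    · intro i; simp [hB]
    · intro i j; simp [hB]
  have hmono : ∀ j : Fin N, e j.castSucc ≤ e j.succ := fun j => he (Fin.castSucc_lt_succ).le
  have hrow0 : ∀ j, cmat a b k e 0 j = a ^ (e j) := by
    intro j
    have : (0:ℕ) + k < N + 1 := by omega
    simp [cmat, hs, this]
    intro h; omega
  have h2 : B.det = a ^ (e 0) * (B.submatrix Fin.succ (Fin.succAbove 0)).det := by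
    rw [Matrix.det_succ_row_zero, Fin.sum_univ_succ, Finset.sum_eq_zero]
    · have : B 0 0 = a ^ (e 0) := by
        simp only [hB, Matrix.of_apply, Fin.cases_zero]
        exact hrow0 0
      rw [this]; simp
    · intro j _
      have : B 0 j.succ = 0 := by
        simp only [hB, Matrix.of_apply, Fin.cases_succ]
        rw [hrow0, hrow0, ← pow_add, Nat.sub_add_cancel (hmono j), sub_self]
      rw [this]; ring
  have h3 : B.submatrix Fin.succ (Fin.succAbove 0) =
      Matrix.of fun i j : Fin N => ∑ m ∈ Finset.Ico (e j.castSucc) (e j.succ),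
        a ^ (e j.succ - 1 - m) *
          (if (i : ℕ) + k < N then hs (i : ℕ) a m
            else (b - a) * hs ((i : ℕ) + k - N) b m +
              (if (i : ℕ) + k = N then 0 else hs ((i : ℕ) + k - N - 1) b m)) := by
    ext i j
    simp only [Matrix.submatrix_apply, Fin.succAbove_zero, hB, Matrix.of_apply, Fin.cases_succ, cmat,
      Fin.val_succ]
    by_cases hik : (i : ℕ) + k < N
    · have h' : (i : ℕ) + 1 + k < N + 1 := by omega
      simp only [if_pos hik, if_pos h']
      rw [(hs_tel (i : ℕ) a a _ _ (hmono j)).1]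
      refine Finset.sum_congr rfl fun m _ => ?_
      ring
    · have h' : ¬ ((i : ℕ) + 1 + k < N + 1) := by omega
      simp only [if_neg hik, if_neg h']
      have e1 : (i : ℕ) + 1 + k - (N + 1) = (i : ℕ) + k - N := by omega
      rw [e1]
      by_cases hN : (i : ℕ) + k = N
      · have e2 : (i : ℕ) + k - N = 0 := by omega
        simp only [if_pos hN]
        rw [e2, (hs_tel 0 a b _ _ (hmono j)).2]
        refine Finset.sum_congr rfl fun m _ => ?_
        ring
      · obtain ⟨s, hs'⟩ : ∃ s, (i : ℕ) + k - N = s + 1 := ⟨(i : ℕ) + k - N - 1, by omega⟩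
        simp only [if_neg hN]
        rw [hs', (hs_tel s a b _ _ (hmono j)).1]
        refine Finset.sum_congr rfl fun m _ => ?_
        simp
  rw [h1, h2, h3, det_expand_aux]
  rfl

end SR
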