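import Pool.Agent.Helper204.SR.Defs
import Pool.Agent.Helper204.SR.Defs2
import Pool.Agent.Helper204.SR.Defs3

set_option linter.unusedSectionVars false

open MvPolynomial Finset

noncomputable section

namespace SR



/-- the bidiagonal row operation -/
def crL {N : ℕ} (a b : ℝ) (k : ℕ) : Matrix (Fin N) (Fin N) ℝ :=
  Matrix.diagonal (fun i : Fin N => if (i : ℕ) + k < N then (1:ℝ) else b - a) +
    Matrix.of fun i m : Fin N => if ((m : ℕ) + 1 = (i : ℕ) ∧ N < (i : ℕ) + k) then (1:ℝ) else 0

theorem crL_det {N : ℕ} (a b : ℝ) (k : ℕ) (hk : k ≤ N) :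
    (crL (N := N) a b k).det = (b - a) ^ k := by
  have htri : (crL (N := N) a b k).BlockTriangular OrderDual.toDual := by
    intro i j hij
    have hij' : i < j := hij
    have h2 : (i : ℕ) < (j : ℕ) := hij'
    simp only [crL, Matrix.add_apply, Matrix.of_apply]
    rw [Matrix.diagonal_apply_ne _ (ne_of_lt hij'), if_neg (by omega), add_zero]
  rw [Matrix.det_of_isLowerTriangular _ htri]
  have h1 : ∀ i : Fin N, (crL (N := N) a b k) i i
      = (fun j : ℕ => if j + k < N then (1:ℝ) else b - a) (i : ℕ) := by
    intro i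
    simp only [crL, Matrix.add_apply, Matrix.of_apply, Matrix.diagonal_apply_eq]
    rw [if_neg (by omega : ¬ ((i : ℕ) + 1 = (i : ℕ) ∧ N < (i : ℕ) + k)), add_zero]
  rw [Finset.prod_congr rfl (fun i _ => h1 i),
    Fin.prod_univ_eq_prod_range (fun j : ℕ => if j + k < N then (1:ℝ) else b - a) N]
  obtain ⟨M, rfl⟩ : ∃ M, N = M + k := ⟨N - k, by omega⟩
  rw [Finset.prod_range_add]
  have e1 : ∏ j ∈ Finset.range M, (if j + k < M + k then (1:ℝ) else b - a) = 1 := by
    apply Finset.prod_eq_one
    intro j hj
    have := Finset.mem_range.1 hj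
    rw [if_pos (by omega)]
  have e2 : ∏ j ∈ Finset.range k, (if M + j + k < M + k then (1:ℝ) else b - a) = (b - a) ^ k := by
    rw [Finset.prod_congr rfl (fun j _ => if_neg (by omega : ¬ (M + j + k < M + k))),
      Finset.prod_const, Finset.card_range]
  rw [e1, e2, one_mul]

theorem crL_mul {N : ℕ} (a b : ℝ) (k : ℕ) (hk : k ≤ N) (e : Fin N → ℕ) :
    cmat' a b k e = crL a b k * cmat a b k e := by
  ext i j
  rw [crL, Matrix.add_mul, Matrix.add_apply, Matrix.diagonal_mul]
  have h2 : ((Matrix.of fun i m : Fin N => if ((m : ℕ) + 1 = (i : ℕ) ∧ N < (i : ℕ) + k)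
      then (1:ℝ) else 0) * cmat a b k e) i j
      = if N < (i : ℕ) + k then hs ((i : ℕ) + k - N - 1) b (e j) else 0 := by
    rw [Matrix.mul_apply]
    split_ifs with h
    · have hi := i.2
      have hi1 : (i : ℕ) - 1 < N := by omega
      rw [Finset.sum_eq_single (⟨(i : ℕ) - 1, hi1⟩ : Fin N)]
      · simp only [Matrix.of_apply, cmat]
        rw [if_pos ⟨by omega, h⟩, if_neg (by omega), one_mul]
        congr 1
        omega
      · intro m _ hm
        simp only [Matrix.of_apply]
        rw [if_neg, zero_mul]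
        rintro ⟨h3, _⟩
        apply hm
        apply Fin.ext
        simp only
        omega
      · intro h3
        exact absurd (Finset.mem_univ _) h3
    · apply Finset.sum_eq_zero
      intro m _
      simp only [Matrix.of_apply]
      rw [if_neg (fun h3 => h h3.2), zero_mul]
  rw [h2]
  simp only [cmat', cmat, Matrix.of_apply]
  by_cases h : (i : ℕ) + k < N
  · rw [if_pos h, if_pos h, if_pos h, if_neg (by omega), one_mul, add_zero]
  · rw [if_neg h, if_neg h, if_neg h]
    by_cases h3 : (i : ℕ) + k = N
    · rw [if_pos h3, if_neg (by omega)]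
    · rw [if_neg h3, if_pos (by omega)]

/-- HINT: `k ≤ N`; if `N = 0` trivial. Row operations: for `b = a` and `k > 0` both sides are `0` (if `k = 0` the matrices are equal): when `b = a`, `k > 0`, the first row of the `b`-block of
`cmat'` (index `N - k`) is zero. For `b ≠ a`: `cmat'` is obtained by multiplying the `k` rows of the `b`-block by `(b-a)` (`Matrix.det_mul_column`/`det_mul_row`, product
`(b-a)^k` since there are `k` indices with `N ≤ i + k`) from the matrix `B` with rows `B_i = row_i` (`a`-block and first row of the `b`-block), `B_i = row_i + (b-a)⁻¹ row_{i-1}`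
otherwise, and `det B = det (cmat a b k e)` by `Matrix.det_eq_of_forall_row_eq_smul_add_pred`. -/
theorem cmat_row {N : ℕ} (a b : ℝ) (k : ℕ) (hk : k ≤ N) (e : Fin N → ℕ) :
    (cmat' a b k e).det = (b - a) ^ k * (cmat a b k e).det := by
  rw [crL_mul a b k hk e, Matrix.det_mul, crL_det a b k hk]

end SR
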