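import Pool.Agent.Helper204.SR.Defs
import Pool.Agent.Helper204.SR.Defs2
import Pool.Agent.Helper204.SR.Defs3

set_option linter.unusedSectionVars false

open MvPolynomial Finset

noncomputable section

namespace SR



/-- HINT: `i! * choose m i = descFactorial m i` is a monic polynomial of degree `i` in `m` (`descPochhammer ℝ i`), so the determinant of `(descFactorial (e j) i)` equals the Vandermonde
determinant: `Matrix.det_eval_matrixOfPolynomials_eq_det_vandermonde` (with `Matrix.det_transpose`), `Matrix.det_vandermonde`, `descPochhammer` monic of `natDegree i`,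
`descPochhammer_eval_eq_descFactorial`, `Nat.descFactorial_eq_factorial_mul_choose`, pull out row factors `i!` by `Matrix.det_mul_column`. -/
theorem det_choose (N : ℕ) (e : Fin N → ℕ) :
    (∏ i : Fin N, ((i : ℕ).factorial : ℝ)) * (cmat 1 1 0 e).det =
      ∏ i : Fin N, ∏ j ∈ Finset.Ioi i, ((e j : ℝ) - e i) := by
  have h1 := Matrix.det_eval_matrixOfPolynomials_eq_det_vandermonde (fun i : Fin N => (e i : ℝ))
    (fun i : Fin N => descPochhammer ℝ (i : ℕ)) (fun i => descPochhammer_natDegree ℝ _)
    (fun i => monic_descPochhammer ℝ _)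
  rw [Matrix.det_vandermonde] at h1
  rw [h1, ← Matrix.det_transpose (cmat 1 1 0 e), ← Matrix.det_mul_row]
  congr 1
  ext i j
  have hj : (j : ℕ) + 0 < N := by have := j.2; omega
  simp only [Matrix.of_apply, Matrix.transpose_apply, cmat, if_pos hj, hs, one_pow, mul_one]
  rw [descPochhammer_eval_eq_descFactorial, Nat.descFactorial_eq_factorial_mul_choose]
  push_cast
  ring

end SR
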