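import Pool.Agent.Helper204.SR.Defs
import Pool.Agent.Helper204.SR.Defs2

set_option linter.unusedSectionVars false

open MvPolynomial Finset

noncomputable section

namespace SR



/-- HINT: `0` is a lower bound. If `0 < sInf I` and `I` is unbounded above: if some `a ∈ I` is `< 1` last case; otherwise `I ⊆ [1,∞)`, `1 ∈ I`, ord-connected and unbounded
so `I = Ici 1`. If `sInf I = 0` (`0 ≤ sInf I` always): if some `b ∈ I`, `1 < b` then last case; otherwise `I ⊆ (0,1]`, and `I = Ioc 0 1` by ord-connectedness and `sInf I = 0`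
(`exists_lt_of_csInf_lt`). -/
theorem interval_cases (I : Set ℝ) (hI : I.OrdConnected) (hpos : I ⊆ Set.Ioi 0) (h1 : (1 : ℝ) ∈ I) :
    (0 < sInf I ∧ BddAbove I) ∨ I = Set.Ioc 0 1 ∨ I = Set.Ici 1 ∨
      (sInf I = 0 ∧ ∃ b ∈ I, 1 < b) ∨ (¬ BddAbove I ∧ ∃ a ∈ I, a < 1) := by
  have hne : I.Nonempty := ⟨1, h1⟩
  have h0 : 0 ≤ sInf I := le_csInf hne fun x hx => le_of_lt (hpos hx)
  by_cases hb : BddAbove I
  · rcases h0.lt_or_eq with h | h
    · exact Or.inl ⟨h, hb⟩
    · by_cases hex : ∃ b ∈ I, 1 < b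
      · exact Or.inr (Or.inr (Or.inr (Or.inl ⟨h.symm, hex⟩)))
      · refine Or.inr (Or.inl (Set.Subset.antisymm ?_ ?_))
        · intro x hx
          refine ⟨hpos hx, ?_⟩
          by_contra hlt
          exact hex ⟨x, hx, not_le.1 hlt⟩
        · rintro x ⟨hx0, hx1⟩
          obtain ⟨a, ha, hax⟩ := exists_lt_of_csInf_lt hne (h ▸ hx0 : sInf I < x)
          exact hI.out ha h1 ⟨hax.le, hx1⟩
  · by_cases hex : ∃ a ∈ I, a < 1
    · exact Or.inr (Or.inr (Or.inr (Or.inr ⟨hb, hex⟩)))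
    · refine Or.inr (Or.inr (Or.inl (Set.Subset.antisymm ?_ ?_)))
      · intro x hx
        by_contra hlt
        exact hex ⟨x, hx, not_le.1 hlt⟩
      · intro x hx
        obtain ⟨b, hbI, hxb⟩ := not_bddAbove_iff.1 hb x
        exact hI.out h1 hbI ⟨hx, hxb.le⟩

end SR
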