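import Pool.Agent.Helper204.SR.Defs
import Pool.Agent.Helper204.SR.Defs2
import Pool.Agent.Helper204.SR.Defs3
import Pool.Agent.Helper204.SR.P_cmat_row
import Pool.Agent.Helper204.SR.P_cmat_branch
import Pool.Agent.Helper204.SR.P_sp_eval_succ
import Pool.Agent.Helper204.SR.P_mem_strict

set_option linter.unusedSectionVars false

open MvPolynomial Finset

noncomputable section

namespace SR



/-- HINT: induction on `N`, `sp_eval_succ`, `mem_strict`, `cmat_branch` and `cmat_row` with `k = 0` (`cmat' = cmat` then). -/
theorem sp_conf0 (N : ℕ) (e : Fin N → ℕ) (he : StrictMono e) (a b : ℝ) :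
    eval (fun _ => a) (sp N e) = (cmat a b 0 e).det := by
  induction N with
  | zero => simp [sp]
  | succ N ih =>
    rw [sp_eval_succ, cmat_branch a b 0 (Nat.zero_le _) e he.monotone]
    congr 1
    refine Finset.sum_congr rfl fun m hm => ?_
    have hm' := mem_strict N e m hm
    have h1 : eval (fun i : Fin N => (fun _ : Fin (N + 1) => a) i.succ) (sp N m) =
        (cmat a b 0 m).det := ih m hm'
    rw [h1, cmat_row a b 0 (Nat.zero_le _) m, pow_zero, one_mul]

end SR
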