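import Pool.Agent.Helper204.SR.Defs
import Pool.Agent.Helper204.SR.Defs2
import Pool.Agent.Helper204.SR.Defs3
import Pool.Agent.Helper204.SR.P_cmat_row
import Pool.Agent.Helper204.SR.P_cmat_branch
import Pool.Agent.Helper204.SR.P_sp_eval_succ
import Pool.Agent.Helper204.SR.P_mem_strict
import Pool.Agent.Helper204.SR.P_sp_conf0

set_option linter.unusedSectionVars false

open MvPolynomial Finset

noncomputable section

namespace SR



/-- HINT: induction on `N` (with `k ≤ N`). If `k = N` (in particular for `N = 0`): `cor a b N` is the constant `b` and `cmat a b N e = cmat b a 0 e` (rows `i + N < N` do not occur, `i + N - N = i`), so `sp_conf0`.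
For `k ≤ N`, `N + 1`: coordinate `0` of `cor a b k` is `a`, the others form `cor a b k` on `Fin N`; `sp_eval_succ`, `mem_strict`, induction hypothesis, `cmat_branch`, `cmat_row`;
`(b-a)^(k*(N+1-k)) = (b-a)^(k*(N-k)) * (b-a)^k`. -/
theorem sp_conf (N : ℕ) (e : Fin N → ℕ) (he : StrictMono e) (a b : ℝ) (k : ℕ) (hk : k ≤ N) :
    eval (cor a b k) (sp N e) * (b - a) ^ (k * (N - k)) = (cmat a b k e).det := by
  induction N generalizing k with
  | zero =>
    obtain rfl : k = 0 := by omega
    have h1 : (cor a b 0 : Fin 0 → ℝ) = fun _ => a := by
      funext i; exact i.elim0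
    rw [h1, sp_conf0 0 e he a b]
    simp
  | succ N ih =>
    rcases Nat.lt_or_ge N k with hlt | hge
    · obtain rfl : k = N + 1 := by omega
      have h1 : (cor a b (N + 1) : Fin (N + 1) → ℝ) = fun _ => b := by
        funext i
        unfold cor
        rw [if_neg (by omega)]
      have h2 : cmat a b (N + 1) e = cmat b a 0 e := by
        ext i j
        unfold cmat
        simp only [Matrix.of_apply]
        rw [if_neg (by omega), if_pos (by omega)]
        congr 1
        omega
      rw [h1, h2, sp_conf0 (N + 1) e he b a]
      simp
    · have h0 : (cor a b k : Fin (N + 1) → ℝ) 0 = a := by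
        unfold cor
        rw [if_pos]
        simp only [Fin.val_zero]
        omega
      have hs : (fun i : Fin N => (cor a b k : Fin (N + 1) → ℝ) i.succ) = cor a b k := by
        funext i
        unfold cor
        simp only [Fin.val_succ]
        by_cases hi : (i : ℕ) + k < N
        · rw [if_pos (by omega), if_pos hi]
        · rw [if_neg (by omega), if_neg hi]
      rw [sp_eval_succ, h0, hs, cmat_branch a b k hge e he.monotone, mul_assoc, Finset.sum_mul]
      congr 1
      refine Finset.sum_congr rfl (fun m hm => ?_)
      have hm' := mem_strict N e m hm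
      rw [cmat_row a b k hge m, ← ih m hm' k hge]
      have hk2 : k * (N + 1 - k) = k * (N - k) + k := by
        rw [Nat.sub_add_comm hge, Nat.mul_add, Nat.mul_one]
      rw [hk2, pow_add]
      ring

end SR
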