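import Pool.Agent.Helper204.SR.Defs
import Pool.Agent.Helper204.SR.Defs2
import Pool.Agent.Helper204.SR.Defs3
import Pool.Agent.Helper204.SR.P_sp_conf0
import Pool.Agent.Helper204.SR.P_sp_conf
import Pool.Agent.Helper204.SR.P_det_choose
import Pool.Agent.Helper204.SR.P_sp_pos

set_option linter.unusedSectionVars false

open MvPolynomial Finset

noncomputable section

namespace SR



/-- HINT: `sp_conf`, `sp_conf0` at `a = 1` and `det_choose`: `(∏ i!) * eval 1 (sp N e) = ∏∏ (e j - e i)`. Cross-multiply (`div_le_div_iff₀`, `sp_pos`) and multiply by the positive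
`(b - a)^(k (N-k))` and `∏ i!`. -/
theorem rat_conf (N : ℕ) (e f : Fin N → ℕ) (he : StrictMono e) (hf : StrictMono f) (a b : ℝ) (ha : 0 < a) (hab : a < b)
    (k : ℕ) (hk : k ≤ N) :
    rat (sp N e) (sp N f) (fun _ => 1) ≤ rat (sp N e) (sp N f) (cor a b k) ↔
      (cmat a b k f).det * (∏ i : Fin N, ∏ j ∈ Finset.Ioi i, ((e j : ℝ) - e i)) ≤
        (cmat a b k e).det * (∏ i : Fin N, ∏ j ∈ Finset.Ioi i, ((f j : ℝ) - f i)) := by
  have hcor : ∀ i : Fin N, 0 < cor a b k i := by
    intro i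
    unfold cor
    split_ifs
    · exact ha
    · exact ha.trans hab
  have hD : 0 < (b - a) ^ (k * (N - k)) := pow_pos (sub_pos.mpr hab) _
  have hP : 0 < (∏ i : Fin N, ((i : ℕ).factorial : ℝ)) :=
    Finset.prod_pos fun i _ => by exact_mod_cast Nat.factorial_pos _
  have hE1 : eval (fun _ => (1:ℝ)) (sp N e) = (cmat 1 1 0 e).det := sp_conf0 N e he 1 1
  have hF1 : eval (fun _ => (1:ℝ)) (sp N f) = (cmat 1 1 0 f).det := sp_conf0 N f hf 1 1
  have hEd := det_choose N e
  have hFd := det_choose N f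
  rw [← hE1] at hEd
  rw [← hF1] at hFd
  have hEc := sp_conf N e he a b k hk
  have hFc := sp_conf N f hf a b k hk
  have pF1 : 0 < eval (fun _ => (1:ℝ)) (sp N f) := sp_pos N f hf _ (fun _ => one_pos)
  have pFc : 0 < eval (cor a b k) (sp N f) := sp_pos N f hf _ hcor
  unfold rat
  rw [div_le_div_iff₀ pF1 pFc, ← hEd, ← hFd, ← hEc, ← hFc]
  have hDP : 0 < (b - a) ^ (k * (N - k)) * (∏ i : Fin N, ((i : ℕ).factorial : ℝ)) := mul_pos hD hP
  rw [← mul_le_mul_iff_right₀ hDP]
  generalize (b - a) ^ (k * (N - k)) = D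
  generalize (∏ i : Fin N, ((i : ℕ).factorial : ℝ)) = P
  generalize eval (fun _ => (1:ℝ)) (sp N f) = F1
  generalize eval (fun _ => (1:ℝ)) (sp N e) = E1
  generalize eval (cor a b k) (sp N f) = Fc
  generalize eval (cor a b k) (sp N e) = Ec
  have h1 : D * P * (E1 * Fc) = Fc * D * (P * E1) := by ring
  have h2 : D * P * (Ec * F1) = Ec * D * (P * F1) := by ring
  rw [h1, h2]

end SR
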