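import Pool.Agent.Helper204.SR.Defs
import Pool.Agent.Helper204.SR.Defs2
import Pool.Agent.Helper204.SR.Defs3

set_option linter.unusedSectionVars false

open MvPolynomial Finset

noncomputable section

namespace SR



/-- HINT: reindex the double product by `Fin.rev` (pairs `i < j` to pairs `rev j < rev i`): e.g. write both as a product over `univ.filter (fun p : Fin N × Fin N => p.1 < p.2)`
(`Finset.prod_sigma'` / `Finset.prod_filter`) and use the bijection `(i, j) ↦ (rev j, rev i)`; `((rev j : ℕ) : ℝ) = N - 1 - j`. -/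
theorem weyl_rev {N : ℕ} (l : Fin N → ℕ) :
    (∏ i : Fin N, ∏ j ∈ Finset.Ioi i, ((expo l j : ℝ) - expo l i)) =
      ∏ i : Fin N, ∏ j ∈ Finset.Ioi i, ((l i : ℝ) - l j + ((j : ℕ) - (i : ℕ) : ℝ)) := by
  classical
  have conv : ∀ f : Fin N → Fin N → ℝ, ∏ i, ∏ j ∈ Finset.Ioi i, f i j =
      ∏ p ∈ (Finset.univ.filter (fun p : Fin N × Fin N => p.1 < p.2)), f p.1 p.2 := by
    intro f
    rw [Finset.prod_filter, Fintype.prod_prod_type]
    refine Finset.prod_congr rfl fun i _ => ?_
    rw [← Finset.prod_filter]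
    refine Finset.prod_congr ?_ fun _ _ => rfl
    ext j
    simp
  rw [conv (fun i j => (expo l j : ℝ) - expo l i),
    conv (fun i j => (l i : ℝ) - l j + ((j : ℕ) - (i : ℕ) : ℝ))]
  refine Finset.prod_nbij' (fun p => (p.2.rev, p.1.rev)) (fun p => (p.2.rev, p.1.rev)) ?_ ?_ ?_ ?_ ?_
  · intro p hp
    simp only [Finset.mem_filter, Finset.mem_univ, true_and] at hp ⊢
    exact Fin.rev_lt_rev.2 hp
  · intro p hp
    simp only [Finset.mem_filter, Finset.mem_univ, true_and] at hp ⊢
    exact Fin.rev_lt_rev.2 hp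
  · intro p _
    simp
  · intro p _
    simp
  · intro p _
    simp only [expo, Fin.val_rev]
    have h1 := p.1.2
    have h2 := p.2.2
    have e1 : ((N - ((p.2 : ℕ) + 1) : ℕ) : ℝ) = (N : ℝ) - ((p.2 : ℕ) + 1) := by
      rw [Nat.cast_sub (by omega)]; push_cast; ring
    have e2 : ((N - ((p.1 : ℕ) + 1) : ℕ) : ℝ) = (N : ℝ) - ((p.1 : ℕ) + 1) := by
      rw [Nat.cast_sub (by omega)]; push_cast; ring
    rw [e1, e2]
    push_cast
    ring

end SR
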